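import Pool.Agent.P.MP_ab3ecb_nt.R1.HAsm

/-!
Points of an elliptic curve over a normed field that are close to the origin.
-/

namespace Pool.Agent.P.MP_ab3ecb_nt.R1.H

open WeierstrassCurve WeierstrassCurve.Affine WeierstrassCurve.Affine.Point Filter Topology

section Alg

variable {L : Type} [Field L] (W : WeierstrassCurve L)

/-- The symmetric form of tridegree `(2, 2, 2)` that vanishes at `x(P), x(Q), x(P + Q)`. -/
def tri (p₀ p₁ q₀ q₁ s₀ s₁ : L) : L :=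
  (p₀ * q₁ - p₁ * q₀) ^ 2 * s₀ ^ 2 -
    (2 * (p₀ * q₁ + p₁ * q₀) * (p₀ * q₀) + W.b₂ * (p₀ * q₀) * (p₁ * q₁) +
      W.b₄ * (p₀ * q₁ + p₁ * q₀) * (p₁ * q₁) + W.b₆ * (p₁ * q₁) ^ 2) * s₀ * s₁ +
    ((p₀ * q₀) ^ 2 - W.b₄ * (p₀ * q₀) * (p₁ * q₁) - W.b₆ * (p₀ * q₁ + p₁ * q₀) * (p₁ * q₁) -
      W.b₈ * (p₁ * q₁) ^ 2) * s₁ ^ 2

theorem tri_smul (a b p₀ p₁ q₀ q₁ s₀ s₁ : L) :
    tri W (a * p₀) (a * p₁) (b * q₀) (b * q₁) s₀ s₁ = a ^ 2 * b ^ 2 * tri W p₀ p₁ q₀ q₁ s₀ s₁ := by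
  simp only [tri]
  ring

theorem tri_add [DecidableEq L] [W.IsElliptic] (P Q : W.toAffine.Point) :
    tri W (P.xRep 0) (P.xRep 1) (Q.xRep 0) (Q.xRep 1) ((P + Q).xRep 0) ((P + Q).xRep 1) = 0 := by
  obtain ⟨c, -, a⟩ := asm W P Q
  rw [asm_eval] at a
  have a0 := congrFun a 0
  have a1 := congrFun a 1
  have a2 := congrFun a 2
  simp only [sym2x, Matrix.cons_val_zero, Matrix.cons_val_one, Matrix.cons_val, Pi.smul_apply,
    smul_eq_mul] at a0 a1 a2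
  simp only [tri]
  linear_combination (P + Q).xRep 1 ^ 2 * a0 - (P + Q).xRep 0 * (P + Q).xRep 1 * a1 +
    (P + Q).xRep 0 ^ 2 * a2

end Alg

variable {L : Type} [NormedField L] (W : WeierstrassCurve L)

/-- `T` is the origin or has `‖x(T)‖ ≥ r`. -/
def Near (r : ℝ) (T : W.toAffine.Point) : Prop := r * ‖T.xRep 1‖ ≤ ‖T.xRep 0‖

variable {W}

theorem near_zero (r : ℝ) : Near W r 0 := by simp [Near]

theorem near_some {r : ℝ} {x y : L} {h : W.toAffine.Nonsingular x y} :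
    Near W r (some x y h) ↔ r ≤ ‖x‖ := by simp [Near]

theorem Near.neg {r : ℝ} {T : W.toAffine.Point} (h : Near W r T) : Near W r (-T) := by
  simpa [Near] using h

theorem Near.mono {r s : ℝ} {T : W.toAffine.Point} (h : Near W r T) (hs : s ≤ r) : Near W s T :=
  (mul_le_mul_of_nonneg_right hs (norm_nonneg _)).trans h

theorem eq_zero_of_near {T : W.toAffine.Point} (h : ∀ r, Near W r T) : T = 0 := by
  rcases T with _ | ⟨x, y, hT⟩
  · rfl
  · linarith [near_some.1 (h (‖x‖ + 1))]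

theorem Near.rep {r : ℝ} (hr : 0 < r) {T : W.toAffine.Point} (h : Near W r T) :
    ∃ a t : L, a * T.xRep 0 = 1 ∧ a * T.xRep 1 = t ∧ ‖t‖ ≤ r⁻¹ := by
  rcases T with _ | ⟨x, y, hT⟩
  · exact ⟨1, 0, by simp [← zero_def], by simp [← zero_def], by simp [hr.le]⟩
  · have h1 := near_some.1 h
    have h0 : x ≠ 0 := norm_pos_iff.1 (hr.trans_le h1)
    exact ⟨x⁻¹, x⁻¹, by simp [h0], by simp, by rw [norm_inv]; exact inv_anti₀ hr h1⟩

section Ultra

variable [IsUltrametricDist L]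

theorem ua {a b : L} {t : ℝ} (ha : ‖a‖ ≤ t) (hb : ‖b‖ ≤ t) : ‖a + b‖ ≤ t :=
  (IsUltrametricDist.norm_add_le_max a b).trans (max_le ha hb)

theorem us {a b : L} {t : ℝ} (ha : ‖a‖ ≤ t) (hb : ‖b‖ ≤ t) : ‖a - b‖ ≤ t := by
  rw [sub_eq_add_neg]
  exact ua ha (by rwa [norm_neg])

omit [IsUltrametricDist L] in
theorem um {a b : L} {s t : ℝ} (ha : ‖a‖ ≤ s) (hb : ‖b‖ ≤ t) : ‖a * b‖ ≤ s * t := by
  rw [norm_mul]
  exact mul_le_mul ha hb (norm_nonneg _) ((norm_nonneg _).trans ha)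

theorem u2 : ‖(2 : L)‖ ≤ 1 := by exact_mod_cast IsUltrametricDist.norm_natCast_le_one L 2

variable [DecidableEq L] [W.IsElliptic] {c : ℝ} (hc : 1 ≤ c) (h₂ : ‖W.b₂‖ ≤ c) (h₄ : ‖W.b₄‖ ≤ c)
  (h₆ : ‖W.b₆‖ ≤ c) (h₈ : ‖W.b₈‖ ≤ c)
include hc h₂ h₄ h₆ h₈

/-- (N1) -/
theorem Near.add {r : ℝ} (hr : c < r) {P Q : W.toAffine.Point} (hP : Near W r P)
    (hQ : Near W r Q) : Near W r (P + Q) := by
  have hr0 : 0 < r := by linarith
  obtain ⟨a, t, a0, a1, ht⟩ := hP.rep hr0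
  obtain ⟨b, u, b0, b1, hu⟩ := hQ.rep hr0
  have e := tri_smul W a b (P.xRep 0) (P.xRep 1) (Q.xRep 0) (Q.xRep 1) ((P + Q).xRep 0)
    ((P + Q).xRep 1)
  rw [tri_add, mul_zero, a0, a1, b0, b1] at e
  rw [Near]
  generalize (P + Q).xRep 0 = s₀ at e ⊢
  generalize (P + Q).xRep 1 = s₁ at e ⊢
  by_contra hn
  push Not at hn
  set ε := r⁻¹ with hε
  have ε0 : 0 < ε := inv_pos.2 hr0
  have cε : c * ε < 1 := by rw [hε, ← div_eq_mul_inv, div_lt_one hr0]; exact hr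
  have ε1 : ε ≤ 1 := by nlinarith
  have s1 : 0 < ‖s₁‖ := by
    by_contra h
    have : ‖s₁‖ = 0 := le_antisymm (not_lt.1 h) (norm_nonneg _)
    rw [this, mul_zero] at hn
    exact absurd hn (not_lt.2 (norm_nonneg _))
  set θ := max (ε * ‖s₀‖ / ‖s₁‖) (c * ε) with hθ
  have θ1 : θ < 1 := max_lt (by
    rw [div_lt_one s1, hε, inv_mul_lt_iff₀ hr0]
    exact hn) cε
  have θ0 : 0 ≤ θ := le_max_of_le_right (by positivity)
  have hs : ε * ‖s₀‖ ≤ θ * ‖s₁‖ := (div_le_iff₀ s1).1 (le_max_left _ _)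
  have tu : ‖t * u‖ ≤ ε * ε := um ht hu
  have tu1 : ‖t * u‖ ≤ ε := tu.trans (by nlinarith)
  have ta : ‖u + t‖ ≤ 1 := (ua hu ht).trans ε1
  have k : ∀ {x y : L}, ‖x‖ ≤ c → ‖y‖ ≤ 1 → ‖x * y * (t * u)‖ ≤ ε := fun hx hy =>
    (um (um hx hy) tu).trans (by nlinarith)
  have k' : ∀ {x y : L}, ‖x‖ ≤ c → ‖y‖ ≤ 1 → ‖x * y * (t * u)‖ ≤ θ := fun hx hy =>
    (um (um hx hy) tu1).trans (by rw [mul_one]; exact le_max_right _ _)
  have e' : s₁ * s₁ = (W.b₄ * 1 * (t * u) + W.b₆ * (u + t) * (t * u) +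
      W.b₈ * (t * u) * (t * u)) * (s₁ * s₁) +
      (2 * (u + t) + W.b₂ * 1 * (t * u) + W.b₄ * (u + t) * (t * u) + W.b₆ * (t * u) * (t * u)) *
        s₀ * s₁ - ((u - t) * s₀) * ((u - t) * s₀) := by
    simp only [tri] at e
    linear_combination e
  have n1 : ‖(1 : L)‖ ≤ 1 := norm_one.le
  have hb : ‖s₁ * s₁‖ ≤ θ * (‖s₁‖ * ‖s₁‖) := by
    rw [e']
    refine us (ua ?_ ?_) ?_
    · exact um (ua (ua (k' h₄ n1) (k' h₆ ta)) (k' h₈ (tu1.trans ε1))) (norm_mul _ _).le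
    · refine (um (um (ua (ua (ua ?_ (k h₂ n1)) (k h₄ ta)) (k h₆ (tu1.trans ε1))) le_rfl)
        le_rfl).trans (by nlinarith)
      simpa using um u2 (ua hu ht)
    · have := (um (us hu ht) (le_refl ‖s₀‖)).trans hs
      refine (um this this).trans ?_
      have : θ * θ ≤ θ := by nlinarith
      nlinarith [mul_pos s1 s1]
  rw [norm_mul] at hb
  nlinarith [mul_pos s1 s1]

theorem Near.zsmul {r : ℝ} (hr : c < r) {P : W.toAffine.Point} (hP : Near W r P) (n : ℤ) :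
    Near W r (n • P) := by
  induction n using Int.induction_on with
  | zero => rw [zero_smul]; exact near_zero r
  | succ n ih => rw [add_smul, one_smul]; exact ih.add hc h₂ h₄ h₆ h₈ hr hP
  | pred n ih => rw [sub_smul, one_smul, sub_eq_add_neg]; exact ih.add hc h₂ h₄ h₆ h₈ hr hP.neg

/-- (N2) -/
theorem Near.close {r : ℝ} (hr : 1 ≤ r) {T : W.toAffine.Point} (hT : Near W r T) {ξ η : L}
    (h : W.toAffine.Nonsingular ξ η) :
    r * ‖(T + some ξ η h).xRep 0 - ξ * (T + some ξ η h).xRep 1‖ ^ 2 ≤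
      c * max 1 ‖ξ‖ ^ 2 * max ‖(T + some ξ η h).xRep 0‖ ‖(T + some ξ η h).xRep 1‖ ^ 2 := by
  have hr0 : 0 < r := by linarith
  obtain ⟨a, t, a0, a1, ht⟩ := hT.rep hr0
  have e := tri_smul W a 1 (T.xRep 0) (T.xRep 1) ((some ξ η h).xRep 0) ((some ξ η h).xRep 1)
    ((T + some ξ η h).xRep 0) ((T + some ξ η h).xRep 1)
  rw [tri_add, mul_zero, a0, a1] at e
  generalize (T + some ξ η h).xRep 0 = s₀ at e ⊢
  generalize (T + some ξ η h).xRep 1 = s₁ at e ⊢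
  simp only [xRep_some, Matrix.cons_val_zero, Matrix.cons_val_one, one_mul] at e
  set H := max 1 ‖ξ‖
  set S := max ‖s₀‖ ‖s₁‖
  have H1 : 1 ≤ H := le_max_left _ _
  have hξ : ‖ξ‖ ≤ H := le_max_right _ _
  have n1 : ‖(1 : L)‖ ≤ H := by rwa [norm_one]
  have t1 : ‖t‖ ≤ 1 := ht.trans (inv_le_one_of_one_le₀ hr)
  have tH : ‖t‖ ≤ H := t1.trans H1
  have tξ : ‖t * ξ‖ ≤ H := by simpa using um t1 hξ
  have g0 : ‖s₀‖ ≤ S := le_max_left _ _
  have g1 : ‖s₁‖ ≤ S := le_max_right _ _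
  have k : ∀ {x y z : L}, ‖x‖ ≤ c → ‖y‖ ≤ H → ‖z‖ ≤ H → ‖x * y * z‖ ≤ c * H * H :=
    fun hx hy hz => um (um hx hy) hz
  have c1 : ‖(1 : L)‖ ≤ c := by rwa [norm_one]
  have c2 : ‖(2 : L)‖ ≤ c := u2.trans hc
  have e' : (s₀ - ξ * s₁) ^ 2 = t * ((2 * ξ * 1 - 1 * (t * ξ) * ξ) * s₀ * s₀ +
      (2 * ξ * ξ + W.b₂ * ξ * 1 + W.b₄ * (1 + t * ξ) * 1 + W.b₆ * t * 1) * s₀ * s₁ +
      (W.b₄ * ξ * 1 + W.b₆ * (1 + t * ξ) * 1 + W.b₈ * t * 1) * s₁ * s₁) := by
    simp only [tri] at e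
    linear_combination e
  have := um ht (ua (ua (um (um (us (k c2 hξ n1) (k c1 tξ hξ)) g0) g0)
    (um (um (ua (ua (ua (k c2 hξ hξ) (k h₂ hξ n1)) (k h₄ (ua n1 tξ) n1)) (k h₆ tH n1)) g0) g1))
    (um (um (ua (ua (k h₄ hξ n1) (k h₆ (ua n1 tξ) n1)) (k h₈ tH n1)) g1) g1))
  rw [← e', norm_pow, ← div_eq_inv_mul, le_div_iff₀ hr0] at this
  linarith

end Ultra

/-- If the coordinates of `P` tend to those of `Q`, then `Q - P` tends to the origin. -/
theorem near_sub [DecidableEq L] [W.IsElliptic] {α : Type} {l : Filter α} {a b : L}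
    (h : W.toAffine.Nonsingular a b) {x y : α → L} (hx : Tendsto x l (𝓝 a))
    (hy : Tendsto y l (𝓝 b)) (r : ℝ) :
    ∀ᶠ i in l, ∀ h' : W.toAffine.Nonsingular (x i) (y i),
      Near W r (some a b h - some (x i) (y i) h') := by
  have key : ∀ {N : α → L} {N₀ : L}, N₀ ≠ 0 → Tendsto N l (𝓝 N₀) → ∀ s : ℝ,
      ∀ᶠ i in l, s * ‖(a - x i) ^ 2‖ < ‖N i‖ := by
    intro N N₀ h0 hN s
    have t1 : Tendsto (fun i => s * ‖(a - x i) ^ 2‖) l (𝓝 (s * ‖(a - a) ^ 2‖)) :=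
      (((hx.const_sub a).pow 2).norm).const_mul s
    refine t1.eventually_lt hN.norm ?_
    simpa using h0
  by_cases hb : b = W.toAffine.negY a b
  · have h2 : some a b h + some a b h = 0 := add_self_of_Y_eq hb
    obtain ⟨d, hd, e⟩ := asm W (some a b h) (some a b h)
    rw [h2, sub_self, asm_eval] at e
    have e0 := congrFun e 0
    simp only [sym2x_some_some, sym2x_zero_zero, Matrix.cons_val_zero, Matrix.cons_val_one,
      Matrix.cons_val, Pi.smul_apply, smul_eq_mul, mul_one, one_pow] at e0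
    have t : Tendsto (fun i => (a * x i) ^ 2 - W.b₄ * (a * x i) - W.b₆ * (a + x i) - W.b₈) l
        (𝓝 d) := by
      rw [← e0]
      exact ((((hx.const_mul a).pow 2).sub ((hx.const_mul a).const_mul _)).sub
        ((hx.const_add a).const_mul _)).sub_const _
    filter_upwards [key hd t (r ^ 2)] with i hi h'
    obtain ⟨c, -, e⟩ := asm W (some a b h) (some _ _ h')
    have : some a b h + some _ _ h' = -(some a b h - some _ _ h') := by
      rw [neg_sub, sub_eq_add_neg, add_comm, neg_eq_of_add_eq_zero_left h2]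
    rw [this, sym2x_neg_left, asm_eval] at e
    rw [Near]
    generalize some a b h - some _ _ h' = S at e ⊢
    have e0 := congrFun e 0
    have e2 := congrFun e 2
    simp only [sym2x, xRep_some, Matrix.cons_val_zero, Matrix.cons_val_one,
      Matrix.cons_val, Pi.smul_apply, smul_eq_mul, mul_one, one_mul, one_pow] at e0 e2
    rw [e0, show (a - x i) ^ 2 = c * (S.xRep 1 * S.xRep 1) by linear_combination e2] at hi
    simp only [norm_mul] at hi
    by_contra hn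
    push Not at hn
    have := mul_le_mul_of_nonneg_left (mul_self_le_mul_self (norm_nonneg _) hn.le) (norm_nonneg c)
    nlinarith
  · have e := (equation_iff _ _).1 h.1
    obtain ⟨N, hN⟩ : ∃ N : L → L → L, N = fun u w =>
      a ^ 3 + W.a₂ * a ^ 2 + W.a₄ * a + W.a₆ + (u ^ 3 + W.a₂ * u ^ 2 + W.a₄ * u + W.a₆) -
        (W.a₂ + a + u) * (a - u) ^ 2 + (W.a₁ * a + W.a₃) * (W.a₁ * u + W.a₃) +
        (2 * b * w + (W.a₁ * u + W.a₃) * b + (W.a₁ * a + W.a₃) * w) := ⟨_, rfl⟩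
    have h0 : N a b ≠ 0 := by
      rw [show N a b = (b - W.toAffine.negY a b) ^ 2 by
        simp only [hN, negY]; linear_combination (-2) * e]
      exact pow_ne_zero 2 (sub_ne_zero.2 hb)
    have hc : Continuous fun p : L × L => N p.1 p.2 := by
      simp only [hN]
      fun_prop
    have t : Tendsto (fun i => N (x i) (y i)) l (𝓝 (N a b)) :=
      (hc.tendsto (a, b)).comp (hx.prodMk_nhds hy)
    filter_upwards [key h0 t r, hy.eventually_ne hb] with i hi hi' h'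
    by_cases hxa : a = x i
    · rcases (X_eq_iff (h₁ := h') (h₂ := h)).1 hxa.symm with h3 | h3
      · rw [h3, sub_self]
        exact near_zero r
      · rw [neg_some] at h3
        injection h3 with _ h4
        exact absurd h4 hi'
    · have e2 := (equation_iff _ _).1 h'.1
      have hd : a - x i ≠ 0 := sub_ne_zero.2 hxa
      rw [sub_eq_add_neg, neg_some, add_of_X_ne hxa, near_some]
      have hm : (a - x i) ^ 2 * W.toAffine.addX a (x i)
          (W.toAffine.slope a (x i) b (W.toAffine.negY (x i) (y i))) = N (x i) (y i) := by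
        rw [slope_of_X_ne hxa, addX, negY]
        simp only [hN]
        field_simp
        linear_combination e + e2
      rw [← hm, norm_mul, mul_comm r] at hi
      exact (lt_of_mul_lt_mul_left hi (norm_nonneg _)).le

end Pool.Agent.P.MP_ab3ecb_nt.R1.H
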