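import Pool.Agent.P.MP_ab3ecb_nt.R1.HCan
import Pool.Agent.P.MP_ab3ecb_nt.R1.HNear

/-!
Many multiples of a point of infinite order have a large denominator.
-/

namespace Pool.Agent.P.MP_ab3ecb_nt.R1.H

open WeierstrassCurve WeierstrassCurve.Affine WeierstrassCurve.Affine.Point Height Filter Topology
  NumberField Real

variable {K : Type} [Field K] (W : WeierstrassCurve K)

theorem arch_far {E : Type} [NormedField E] (σ : K →+* E) (ξ : K) : ∃ L : ℝ, ∀ a b : K, L ≤ ‖σ a‖ → L ≤ ‖σ b‖ →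
    tri W a 1 ξ 1 b 1 ≠ 0 := by
  obtain ⟨f, hf⟩ : ∃ f : E × E → E, f = fun p => tri (W.map σ) 1 p.1 (σ ξ) 1 1 p.2 := ⟨_, rfl⟩
  have hc : Continuous f := by
    simp only [hf, tri]
    fun_prop
  have h0 : f 0 ≠ 0 := by simp [hf, tri]
  obtain ⟨δ, hδ, h⟩ := Metric.eventually_nhds_iff.1 (hc.continuousAt.eventually_ne h0)
  refine ⟨2 / δ, fun a b ha hb e => ?_⟩
  have k : ∀ {z : E}, 2 / δ ≤ ‖z‖ → z ≠ 0 ∧ ‖z⁻¹‖ < δ := fun {z} hz => by
    have h1 : 0 < ‖z‖ := (div_pos two_pos hδ).trans_le hz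
    refine ⟨norm_pos_iff.1 h1, ?_⟩
    rw [norm_inv, inv_lt_comm₀ h1 hδ]
    refine lt_of_lt_of_le ?_ hz
    rw [inv_eq_one_div]
    gcongr
    norm_num
  refine h (y := ((σ a)⁻¹, (σ b)⁻¹)) ?_ ?_
  · rw [dist_zero_right, Prod.norm_def]
    exact max_lt (k ha).2 (k hb).2
  · have e' := congrArg σ e
    have h1 := (k ha).1
    have h2 := (k hb).1
    simp only [tri, map_add, map_sub, map_mul, map_pow, map_one, map_ofNat, _root_.map_zero] at e'
    simp only [hf, tri, map_b₂, map_b₄, map_b₆, map_b₈]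
    field_simp
    linear_combination e'

variable [DecidableEq K] [W.IsElliptic] [NumberField K]

omit [W.IsElliptic] [NumberField K] in
theorem exists_some {P : W.toAffine.Point} (hP : ¬ IsOfFinAddOrder P) {n : ℤ} (hn : n ≠ 0) :
    ∃ x y h, n • P = some x y h := by
  rcases e : n • P with _ | ⟨x, y, h⟩
  · exact absurd (isOfFinAddOrder_iff_zsmul_eq_zero.2 ⟨n, hn, e⟩) hP
  · exact ⟨x, y, h, rfl⟩

omit [NumberField K] in
theorem fin_far {P : W.toAffine.Point} (hP : ¬ IsOfFinAddOrder P) {ι : Type} [Fintype ι]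
    (m : ι → K → ℝ) (hm : ∀ w ξ, ∃ L : ℝ, ∀ a b : K, L ≤ m w a → L ≤ m w b →
      tri W a 1 ξ 1 b 1 ≠ 0) {N : ℕ} (hN : 0 < N) :
    ∃ M : ℝ, ∀ J : ℕ, ∃ n : ℕ, J < n ∧ N ∣ n ∧ ∃ x y h, (n : ℤ) • P = some x y h ∧
      ∀ w, m w x ≤ M := by
  set r := Fintype.card ι
  choose L hL using fun (w : ι) (j : ℕ) => hm w ((((j * N : ℕ) : ℤ) • P).xRep 0)
  obtain ⟨M, hM⟩ := (Set.finite_range fun p : ι × Fin (r + 1) => L p.1 p.2).bddAbove
  refine ⟨M, fun J => ?_⟩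
  have hs : ∀ i : ℕ, ∃ x y h, ((((J + 1 + i) * N : ℕ) : ℤ)) • P = some x y h := fun i =>
    exists_some W hP (by positivity)
  choose x y h e using hs
  have : ∃ i : Fin (r + 1), ∀ w : ι, m w (x i) ≤ M := by
    by_contra hn
    push Not at hn
    choose w hw using hn
    have key : ∀ i j : Fin (r + 1), i < j → w i ≠ w j := by
      intro i j hij hw'
      have hij' : (i : ℕ) < j := hij
      obtain ⟨a, b, hab, e'⟩ := exists_some W hP (n := (((j - i : ℕ) * N : ℕ) : ℤ))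
        (by have : 0 < (j : ℕ) - i := Nat.sub_pos_of_lt hij'; positivity)
      have t := tri_add W (some _ _ (h i)) (some _ _ hab)
      have e2 : some _ _ (h i) + some _ _ hab = some _ _ (h j) := by
        rw [← e, ← e, ← e', ← add_smul, ← Nat.cast_add, ← add_mul]
        congr 3
        omega
      rw [e2] at t
      have hl : L (w i) (j - i : ℕ) ≤ M :=
        hM ⟨(w i, ⟨j - i, lt_of_le_of_lt (Nat.sub_le _ _) j.2⟩), rfl⟩
      exact hL (w i) (j - i : ℕ) (x i) (x j) (hl.trans (hw i).le) (hl.trans (hw' ▸ (hw j).le))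
        (by rw [e']; simpa using t)
    obtain ⟨i, j, hij, e⟩ := Fintype.exists_ne_map_eq_of_card_lt w (by simp [r])
    rcases lt_or_gt_of_ne hij with h | h
    exacts [key i j h e, key j i h e.symm]
  obtain ⟨i, hi⟩ := this
  exact ⟨(J + 1 + i) * N, by nlinarith, Dvd.intro_left _ rfl, x i, y i, h i, e i, hi⟩

/-- (FIN) -/
theorem fin_lower {P : W.toAffine.Point} (hP : ¬ IsOfFinAddOrder P) {q C : ℝ}
    (hq : ∀ n : ℤ, |logHeight (n • P).xRep - q * n ^ 2| ≤ C) {ι : Type} [Finite ι]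
    (m : ι → K → ℝ) (hm : ∀ w ξ, ∃ L : ℝ, ∀ a b : K, L ≤ m w a → L ≤ m w b →
      tri W a 1 ξ 1 b 1 ≠ 0) {N : ℕ} (hN : 0 < N) :
    ∃ C' M : ℝ, ∀ J : ℕ, ∃ n : ℕ, J < n ∧ N ∣ n ∧ ∃ x y h, (n : ℤ) • P = some x y h ∧
      q * n ^ 2 - C' ≤ ∑ᶠ v : FinitePlace K, log⁺ (v x) ∧ ∀ w, m w x ≤ M := by
  have := Fintype.ofFinite ι
  obtain ⟨M, hM⟩ := fin_far W hP (Sum.elim (fun (w : InfinitePlace K) a => ‖w.embedding a‖) m)
    (Sum.forall.2 ⟨fun w => arch_far W w.embedding, hm⟩) hN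
  refine ⟨C + ∑ w : InfinitePlace K, w.mult * log⁺ M, M, fun J => ?_⟩
  obtain ⟨n, h2, h3, x, y, h, e, hi⟩ := hM J
  refine ⟨n, h2, h3, x, y, h, e, ?_, fun w => hi (.inr w)⟩
  have h1 := (abs_le.1 (hq n)).1
  rw [e, xRep_some, ← logHeight₁_eq_logHeight, NumberField.logHeight₁_eq, Int.cast_natCast] at h1
  have : ∑ w : InfinitePlace K, w.mult * log⁺ (w x) ≤ ∑ w : InfinitePlace K, w.mult * log⁺ M :=
    Finset.sum_le_sum fun w _ => mul_le_mul_of_nonneg_left (posLog_le_posLog (apply_nonneg _ _)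
      ((InfinitePlace.norm_embedding_eq w x).symm.trans_le (hi (.inl w)))) (Nat.cast_nonneg _)
  linarith

end Pool.Agent.P.MP_ab3ecb_nt.R1.H
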