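import Mathlib

/-!
The addition-and-subtraction map on x-coordinates of an elliptic curve.
-/

namespace Pool.Agent.P.MP_ab3ecb_nt.R1.H

open WeierstrassCurve WeierstrassCurve.Affine WeierstrassCurve.Affine.Point

variable {L : Type} [Field L] [DecidableEq L] (W : WeierstrassCurve L)

omit [DecidableEq L] in
theorem asm_eval (v : Fin 3 → L) : (fun i => MvPolynomial.eval v (W.addSubMap i)) =
    ![v 0 ^ 2 - W.b₄ * v 0 * v 2 - W.b₆ * v 1 * v 2 - W.b₈ * v 2 ^ 2,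
      2 * v 1 * v 0 + W.b₂ * v 0 * v 2 + W.b₄ * v 1 * v 2 + W.b₆ * v 2 ^ 2,
      v 1 ^ 2 - 4 * v 0 * v 2] := by
  ext i
  fin_cases i <;> simp [WeierstrassCurve.addSubMap]

theorem asm_ne {x₁ y₁ x₂ y₂ : L} (h₁ : W.toAffine.Nonsingular x₁ y₁)
    (h₂ : W.toAffine.Nonsingular x₂ y₂) (hx : x₁ ≠ x₂) :
    (fun i => MvPolynomial.eval ((some _ _ h₁).sym2x (some _ _ h₂)) (W.addSubMap i)) =
      (x₁ - x₂) ^ 2 • (some _ _ h₁ + some _ _ h₂).sym2x (some _ _ h₁ - some _ _ h₂) := by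
  have e1 := (equation_iff _ _).1 h₁.1
  have e2 := (equation_iff _ _).1 h₂.1
  have hd : x₁ - x₂ ≠ 0 := sub_ne_zero.2 hx
  rw [sub_eq_add_neg (some _ _ h₁), neg_some, add_of_X_ne hx, add_of_X_ne hx, asm_eval]
  have hp : (x₁ - x₂) ^ 2 * W.toAffine.addX x₁ x₂ (W.toAffine.slope x₁ x₂ y₁ y₂) =
      x₁ ^ 3 + W.a₂ * x₁ ^ 2 + W.a₄ * x₁ + W.a₆ + (x₂ ^ 3 + W.a₂ * x₂ ^ 2 + W.a₄ * x₂ + W.a₆) -
        (W.a₂ + x₁ + x₂) * (x₁ - x₂) ^ 2 -
        (2 * y₁ * y₂ + (W.a₁ * x₂ + W.a₃) * y₁ + (W.a₁ * x₁ + W.a₃) * y₂) := by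
    rw [slope_of_X_ne hx, addX]
    field_simp
    linear_combination e1 + e2
  have hm : (x₁ - x₂) ^ 2 *
      W.toAffine.addX x₁ x₂ (W.toAffine.slope x₁ x₂ y₁ (W.toAffine.negY x₂ y₂)) =
      x₁ ^ 3 + W.a₂ * x₁ ^ 2 + W.a₄ * x₁ + W.a₆ + (x₂ ^ 3 + W.a₂ * x₂ ^ 2 + W.a₄ * x₂ + W.a₆) -
        (W.a₂ + x₁ + x₂) * (x₁ - x₂) ^ 2 + (W.a₁ * x₁ + W.a₃) * (W.a₁ * x₂ + W.a₃) +
        (2 * y₁ * y₂ + (W.a₁ * x₂ + W.a₃) * y₁ + (W.a₁ * x₁ + W.a₃) * y₂) := by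
    rw [slope_of_X_ne hx, addX, negY]
    field_simp
    linear_combination e1 + e2
  simp only [sym2x_some_some]
  generalize W.toAffine.addX x₁ x₂ (W.toAffine.slope x₁ x₂ y₁ y₂) = p at hp
  generalize W.toAffine.addX x₁ x₂ (W.toAffine.slope x₁ x₂ y₁ (W.toAffine.negY x₂ y₂)) = m at hm
  ext i
  fin_cases i
  · apply mul_left_cancel₀ (pow_ne_zero 2 hd)
    simp only [Fin.zero_eta, Matrix.cons_val_zero, Matrix.cons_val_one,
      Matrix.cons_val, Pi.smul_apply, smul_eq_mul, b₄, b₆, b₈]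
    have : (x₁ - x₂) ^ 2 * ((x₁ - x₂) ^ 2 * (p * m)) =
        ((x₁ - x₂) ^ 2 * p) * ((x₁ - x₂) ^ 2 * m) := by ring
    rw [this, hp, hm]
    linear_combination (4 * (y₂ ^ 2 + (W.a₁ * x₂ + W.a₃) * y₂) + (W.a₁ * x₂ + W.a₃) ^ 2) * e1 +
      (4 * (x₁ ^ 3 + W.a₂ * x₁ ^ 2 + W.a₄ * x₁ + W.a₆) + (W.a₁ * x₁ + W.a₃) ^ 2) * e2
  · simp only [Fin.mk_one, Matrix.cons_val_zero, Matrix.cons_val_one,
      Matrix.cons_val, Pi.smul_apply, smul_eq_mul, b₂, b₄, b₆]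
    linear_combination -hp - hm
  · simp only [Fin.reduceFinMk, Matrix.cons_val_zero, Matrix.cons_val_one,
      Matrix.cons_val, Pi.smul_apply, smul_eq_mul]
    ring

variable [W.IsElliptic]

theorem asm_self (P : W.toAffine.Point) : ∃ c : L, c ≠ 0 ∧
    (fun i => MvPolynomial.eval (P.sym2x P) (W.addSubMap i)) = c • (P + P).sym2x 0 := by
  rcases P with _ | ⟨x, y, h⟩
  · refine ⟨1, one_ne_zero, ?_⟩
    rw [← zero_def, asm_eval]
    simp
  have e := (equation_iff _ _).1 h.1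
  have hpsi : 2 * (x + x) * (x * x) + W.b₂ * (x * x) + W.b₄ * (x + x) + W.b₆ =
      (y - W.toAffine.negY x y) ^ 2 := by
    simp only [negY, b₂, b₄, b₆]
    linear_combination (-4) * e
  by_cases hy : y = W.toAffine.negY x y
  · have h0 := W.addSubMap_ne_zero (sym2x_ne_zero (some x y h) (some x y h))
    rw [add_self_of_Y_eq hy]
    rw [asm_eval] at h0 ⊢
    rw [sub_eq_zero.2 hy] at hpsi
    simp only [sym2x_some_some, Matrix.cons_val_zero, Matrix.cons_val_one, Matrix.cons_val,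
      mul_one, one_pow] at h0 ⊢
    rw [hpsi, show (x + x) ^ 2 - 4 * (x * x) = 0 by ring] at h0 ⊢
    refine ⟨(x * x) ^ 2 - W.b₄ * (x * x) - W.b₆ * (x + x) - W.b₈, fun hc => h0 ?_, ?_⟩
    · rw [hc]
      ext i
      fin_cases i <;> simp
    · ext i
      fin_cases i <;> simp
  · have hd : y - W.toAffine.negY x y ≠ 0 := sub_ne_zero.2 hy
    refine ⟨(y - W.toAffine.negY x y) ^ 2, pow_ne_zero 2 hd, ?_⟩
    rw [add_self_of_Y_ne hy, asm_eval]
    have hp : (y - W.toAffine.negY x y) ^ 2 * W.toAffine.addX x x (W.toAffine.slope x x y y) =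
        (x * x) ^ 2 - W.b₄ * (x * x) - W.b₆ * (x + x) - W.b₈ := by
      rw [slope_of_Y_ne rfl hy, addX]
      field_simp
      simp only [negY, b₄, b₆, b₈]
      linear_combination (-(W.a₁ ^ 2 + 4 * W.a₂ + 8 * x)) * e
    ext i
    fin_cases i
    · simpa using hp.symm
    · simpa using hpsi
    · simp
      ring

/-- `addSubMap` sends the symmetric square of `x(P), x(Q)` to that of `x(P+Q), x(P-Q)`. -/
theorem asm (P Q : W.toAffine.Point) : ∃ c : L, c ≠ 0 ∧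
    (fun i => MvPolynomial.eval (P.sym2x Q) (W.addSubMap i)) = c • (P + Q).sym2x (P - Q) := by
  rcases P with _ | ⟨x₁, y₁, h₁⟩
  · refine ⟨1, one_ne_zero, ?_⟩
    rw [← zero_def, zero_add, zero_sub, sym2x_neg_right, asm_eval]
    rcases Q with _ | ⟨x, y, h⟩
    · rw [← zero_def]
      simp
    · ext i
      fin_cases i <;> simp <;> ring
  rcases Q with _ | ⟨x₂, y₂, h₂⟩
  · refine ⟨1, one_ne_zero, ?_⟩
    rw [← zero_def, add_zero, sub_zero, asm_eval]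
    ext i
    fin_cases i <;> simp <;> ring
  by_cases hx : x₁ = x₂
  · rcases (X_eq_iff (h₁ := h₁) (h₂ := h₂)).1 hx with h | h
    · rw [← h, sub_self]
      exact asm_self W _
    · rw [h, sub_eq_add_neg, neg_add_cancel, ← neg_add, sym2x_neg_left, sym2x_neg_right,
        sym2x_comm 0]
      exact asm_self W _
  · exact ⟨_, pow_ne_zero 2 (sub_ne_zero.2 hx), asm_ne W h₁ h₂ hx⟩

end Pool.Agent.P.MP_ab3ecb_nt.R1.H
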