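import Pool.Agent.P.MP_ab3ecb_nt.R1.HAsm

/-!
The approximate parallelogram law and the growth of the height along multiples of a point.
-/

namespace Pool.Agent.P.MP_ab3ecb_nt.R1.H

open WeierstrassCurve WeierstrassCurve.Affine WeierstrassCurve.Affine.Point Height Filter Topology

/-- Tate's limit. -/
theorem canon {G : Type} [AddCommGroup G] (h : G → ℝ) (C : ℝ) (h0 : h 0 = 0)
    (hp : ∀ P Q, |h (P + Q) + h (P - Q) - 2 * (h P + h Q)| ≤ C) :
    ∃ g : G → ℝ, (∀ P, |h P - g P| ≤ C) ∧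
      (∀ P Q, g (P + Q) + g (P - Q) = 2 * (g P + g Q)) ∧
      ∀ (P : G) (n : ℤ), g (n • P) = n ^ 2 * g P := by
  have hC : 0 ≤ C := (abs_nonneg _).trans (hp 0 0)
  set s : G → ℕ → ℝ := fun P k => h ((2 ^ k : ℤ) • P) * (1 / 4) ^ k with hs
  have hd : ∀ P k, dist (s P k) (s P (k + 1)) ≤ C / 4 * (1 / 4) ^ k := by
    intro P k
    have h1 := hp ((2 ^ k : ℤ) • P) ((2 ^ k : ℤ) • P)
    rw [sub_self, h0, ← two_zsmul, smul_smul, ← pow_succ'] at h1
    have : s P k - s P (k + 1) = -(h ((2 ^ (k + 1) : ℤ) • P) + 0 -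
        2 * (h ((2 ^ k : ℤ) • P) + h ((2 ^ k : ℤ) • P))) / 4 * (1 / 4) ^ k := by
      simp only [hs, pow_succ]
      ring
    rw [Real.dist_eq, this, abs_mul, abs_div, abs_neg, abs_of_pos (by positivity : (0 : ℝ) < 4),
      abs_of_pos (by positivity : (0 : ℝ) < (1 / 4) ^ k)]
    gcongr
  have hr : (1 / 4 : ℝ) < 1 := by norm_num
  choose g hg using fun P => cauchySeq_tendsto_of_complete (cauchySeq_of_le_geometric _ _ hr (hd P))
  have hpar : ∀ P Q, g (P + Q) + g (P - Q) = 2 * (g P + g Q) := by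
    intro P Q
    have t1 := (((hg (P + Q)).add (hg (P - Q))).sub (((hg P).add (hg Q)).const_mul 2)).abs
    have t2 : Tendsto (fun k : ℕ => C * (1 / 4 : ℝ) ^ k) atTop (𝓝 (C * 0)) :=
      (tendsto_pow_atTop_nhds_zero_of_lt_one (by norm_num) hr).const_mul C
    have := le_of_tendsto_of_tendsto' t1 t2 fun k => by
      have h1 := hp ((2 ^ k : ℤ) • P) ((2 ^ k : ℤ) • Q)
      rw [← smul_add, ← smul_sub] at h1
      have : s (P + Q) k + s (P - Q) k - 2 * (s P k + s Q k) =
          (h ((2 ^ k : ℤ) • (P + Q)) + h ((2 ^ k : ℤ) • (P - Q)) -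
            2 * (h ((2 ^ k : ℤ) • P) + h ((2 ^ k : ℤ) • Q))) * (1 / 4) ^ k := by
        simp only [hs]
        ring
      rw [this, abs_mul, abs_of_pos (by positivity : (0 : ℝ) < (1 / 4) ^ k)]
      gcongr
    rw [mul_zero] at this
    exact sub_eq_zero.1 (abs_nonpos_iff.1 this)
  have hg0 : g 0 = 0 := by
    have := hpar 0 0
    rw [add_zero, sub_zero] at this
    linarith
  refine ⟨g, fun P => ?_, hpar, fun P n => ?_⟩
  · have := dist_le_of_le_geometric_of_tendsto₀ _ _ hr (hd P) (hg P)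
    simp only [hs, pow_zero, one_smul, mul_one, Real.dist_eq] at this
    norm_num at this
    linarith
  · have key : ∀ k : ℕ, g ((k : ℤ) • P) = (k : ℝ) ^ 2 * g P ∧
        g (((k : ℤ) + 1) • P) = ((k : ℝ) + 1) ^ 2 * g P := by
      intro k
      induction k with
      | zero => simp [hg0]
      | succ k ih =>
        refine ⟨by exact_mod_cast ih.2, ?_⟩
        have := hpar (((k : ℤ) + 1) • P) P
        rw [show ((k : ℤ) + 1) • P - P = (k : ℤ) • P by rw [add_smul, one_smul, add_sub_cancel_right],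
          show ((k : ℤ) + 1) • P + P = (((k + 1 : ℕ) : ℤ) + 1) • P by
            push_cast; rw [add_smul ((k : ℤ) + 1) 1 P, one_smul], ih.1, ih.2] at this
        push_cast
        push_cast at this
        linarith
    have hneg : ∀ Q, g (-Q) = g Q := fun Q => by
      have := hpar 0 Q
      rw [zero_add, zero_sub, hg0] at this
      linarith
    obtain ⟨k, rfl | rfl⟩ := n.eq_nat_or_neg
    · exact_mod_cast (key k).1
    · rw [neg_smul, hneg, (key k).1]
      push_cast
      ring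

variable {K : Type} [Field K] [DecidableEq K] (W : WeierstrassCurve K) [W.IsElliptic]

/-- The approximate parallelogram law. -/
theorem par [AdmissibleAbsValues K] : ∃ C : ℝ, ∀ P Q : W.toAffine.Point,
    |logHeight (P + Q).xRep + logHeight (P - Q).xRep -
      2 * (logHeight P.xRep + logHeight Q.xRep)| ≤ C := by
  obtain ⟨C₁, h₁⟩ := W.abs_logHeight_addSubMap_sub_two_mul_logHeight_le
  obtain ⟨C₂, h₂⟩ := abs_logHeight_sym2_sub_le K
  have h₃ : ∀ P Q : W.toAffine.Point,
      |logHeight (P.sym2x Q) - (logHeight P.xRep + logHeight Q.xRep)| ≤ C₂ := by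
    intro P Q
    have e : ∀ R : W.toAffine.Point, ![R.xRep 0, R.xRep 1] = R.xRep := fun R => by
      ext i
      fin_cases i <;> rfl
    have := h₂ (a := P.xRep 0) (b := P.xRep 1) (c := Q.xRep 0) (d := Q.xRep 1)
      (by rw [e]; exact P.xRep_ne_zero) (by rw [e]; exact Q.xRep_ne_zero)
    rwa [e, e] at this
  refine ⟨C₁ + 3 * C₂, fun P Q => ?_⟩
  obtain ⟨c, hc, e⟩ := asm W P Q
  have a1 := h₁ (P.sym2x Q)
  rw [e, logHeight_smul_eq_logHeight _ hc] at a1
  have a2 := h₃ P Q
  have a3 := h₃ (P + Q) (P - Q)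
  rw [abs_le] at a1 a2 a3 ⊢
  constructor <;> linarith [a1.1, a1.2, a2.1, a2.2, a3.1, a3.2]

omit [DecidableEq K] [W.IsElliptic] in
/-- Northcott's theorem for points of an elliptic curve. -/
theorem northcott [NumberField K] (B : ℝ) :
    {P : W.toAffine.Point | logHeight P.xRep ≤ B}.Finite := by
  have hf := NumberField.finite_setOfPred_logHeight₁_le K B
  refine Set.Finite.of_finite_fibers (fun P : W.toAffine.Point => P.xRep)
    (((hf.image fun x => ![x, 1]).insert ![1, 0]).subset ?_) ?_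
  · rintro _ ⟨P, hP, rfl⟩
    rcases P with _ | ⟨x, y, h⟩
    · exact Or.inl rfl
    · exact Or.inr ⟨x, by simpa [logHeight₁_eq_logHeight] using hP, rfl⟩
  · rintro _ ⟨P, -, rfl⟩
    refine (Set.toFinite {P, -P}).subset fun Q hQ => ?_
    exact eq_or_eq_neg_of_xRep_eq_xRep hQ.2

/-- The height of `n • P` is `q n ^ 2 + O(1)` with `q > 0` if `P` has infinite order. -/
theorem can [NumberField K] (P : W.toAffine.Point) (hP : ¬ IsOfFinAddOrder P) :
    ∃ q C : ℝ, 0 < q ∧ ∀ n : ℤ, |logHeight (n • P).xRep - q * n ^ 2| ≤ C := by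
  obtain ⟨C, hC⟩ := par W
  have h0 : logHeight (0 : W.toAffine.Point).xRep = 0 := by
    rw [xRep_zero, logHeight_swap, ← logHeight₁_eq_logHeight, logHeight₁_zero]
  obtain ⟨g, h1, -, h2⟩ := canon (fun Q : W.toAffine.Point => logHeight Q.xRep) C h0 hC
  refine ⟨g P, C, ?_, fun n => by simpa [h2, mul_comm] using h1 (n • P)⟩
  by_contra hq
  apply hP
  rw [← finite_zmultiples]
  refine (northcott W C).subset ?_
  rintro _ ⟨n, rfl⟩
  have := (abs_le.1 (h1 (n • P))).2
  rw [h2] at this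
  have : (n : ℝ) ^ 2 * g P ≤ 0 := mul_nonpos_of_nonneg_of_nonpos (sq_nonneg _) (not_lt.1 hq)
  simp only [Set.mem_ofPred_eq]
  linarith

end Pool.Agent.P.MP_ab3ecb_nt.R1.H
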