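import Pool.Agent.P.MP_ab3ecb_nt.R1.HAsm

/-!
Reduction of points of an elliptic curve with good reduction at a valuation ring is a group
homomorphism.
-/

namespace Pool.Agent.P.MP_ab3ecb_nt.R1.H

open WeierstrassCurve WeierstrassCurve.Affine WeierstrassCurve.Affine.Point

variable {F L : Type} [Field F] [Field L]

/-- A nonzero vector can be scaled to a unimodular vector of a valuation ring. -/
theorem unimod (O : ValuationSubring F) {ι : Type} [Finite ι] (u : ι → F) (hu : u ≠ 0) :
    ∃ c : F, c ≠ 0 ∧ ∃ v : ι → O, (∀ i, (v i : F) = c * u i) ∧ ∃ i, v i = 1 := by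
  obtain ⟨j, hj⟩ := Function.ne_iff.1 hu
  have : Nonempty ι := ⟨j⟩
  obtain ⟨i, hi⟩ := Finite.exists_max fun i => O.valuation (u i)
  have h0 : u i ≠ 0 := fun h => hj (by
    have := hi j
    rwa [h, _root_.map_zero, le_zero_iff, map_eq_zero] at this)
  refine ⟨(u i)⁻¹, inv_ne_zero h0, fun k => ⟨(u i)⁻¹ * u k, ?_⟩, fun _ => rfl, i,
    Subtype.ext (inv_mul_cancel₀ h0)⟩
  rw [← O.valuation_le_one_iff, map_mul, map_inv₀]
  exact inv_mul_le_one_of_le₀ (hi k) zero_le

theorem proj_nonsingular (W : WeierstrassCurve L) [W.IsElliptic] {P : Fin 3 → L}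
    (h : W.toProjective.Equation P) (h0 : P ≠ 0) : W.toProjective.Nonsingular P := by
  by_cases hz : P 2 = 0
  · have hx := Projective.X_eq_zero_of_Z_eq_zero h hz
    have hy : P 1 ≠ 0 := fun hy => h0 (by
      ext i
      fin_cases i
      exacts [hx, hy, hz])
    have : P = P 1 • ![0, 1, 0] := by
      ext i
      fin_cases i <;> simp [hx, hz]
    rw [this, Projective.nonsingular_smul _ hy.isUnit]
    exact Projective.nonsingular_zero
  · rw [Projective.nonsingular_of_Z_ne_zero hz]
    exact equation_iff_nonsingular.1 ((Projective.equation_of_Z_ne_zero hz).1 h)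

variable (O : ValuationSubring F) (φ : O →+* L)

open Classical in
/-- The reduction map on points. -/
noncomputable def evF (W₁ : WeierstrassCurve F) (W₂ : WeierstrassCurve L) :
    W₁.toAffine.Point → W₂.toAffine.Point
  | .zero => 0
  | .some x y _ => if h : x ∈ O ∧ y ∈ O then
      Projective.Point.toAffine W₂ ![φ ⟨x, h.1⟩, φ ⟨y, h.2⟩, 1] else 0

variable {O} (W : WeierstrassCurve O) [W.IsElliptic] [IsLocalHom φ]

theorem evF_rep {v : Fin 3 → O} (hv : W.toProjective.Equation v) (h0 : φ ∘ v ≠ 0) :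
    evF O φ (W.map O.subtype) (W.map φ)
      (Projective.Point.toAffine (W.map O.subtype) (O.subtype ∘ v)) =
      Projective.Point.toAffine (W.map φ) (φ ∘ v) := by
  have hv0 : O.subtype ∘ v ≠ 0 := fun h => h0 (by
    ext i
    have : v i = 0 := Subtype.ext (congrFun h i)
    simp [this])
  have hn := proj_nonsingular (W.map O.subtype) (hv.map O.subtype) hv0
  by_cases hz : (O.subtype ∘ v) 2 = 0
  · have : v 2 = 0 := Subtype.ext hz
    rw [Projective.Point.toAffine_of_Z_eq_zero hz,
      Projective.Point.toAffine_of_Z_eq_zero (by simp [this])]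
    rfl
  rw [Projective.Point.toAffine_of_Z_ne_zero hn hz, evF]
  have hz' : (v 2 : F) ≠ 0 := hz
  split_ifs with h
  · have e0 : v 0 = v 2 * ⟨_, h.1⟩ := Subtype.ext (by simp [mul_div_cancel₀ _ hz'])
    have e1 : v 1 = v 2 * ⟨_, h.2⟩ := Subtype.ext (by simp [mul_div_cancel₀ _ hz'])
    have e : φ ∘ v = φ (v 2) • ![φ ⟨_, h.1⟩, φ ⟨_, h.2⟩, 1] := by
      ext i
      fin_cases i
      · simpa using congrArg φ e0
      · simpa using congrArg φ e1
      · simp
    have hu : φ (v 2) ≠ 0 := fun hu => h0 (by rw [e, hu, zero_smul])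
    rw [e, Projective.Point.toAffine_smul _ hu.isUnit]
  · refine (Projective.Point.toAffine_of_Z_eq_zero ?_).symm
    by_contra hu
    obtain ⟨u, hu'⟩ := (isUnit_map_iff φ (v 2)).1 (Ne.isUnit hu)
    have hi : (v 2 : F)⁻¹ ∈ O := by
      have : (v 2 : F)⁻¹ = ((u⁻¹ : Oˣ) : O) := by
        rw [← hu']
        exact inv_eq_of_mul_eq_one_right (by exact_mod_cast u.mul_inv)
      rw [this]
      exact SetLike.coe_mem _
    exact h ⟨by rw [div_eq_mul_inv]; exact O.mul_mem _ _ (v 0).2 hi,
      by rw [div_eq_mul_inv]; exact O.mul_mem _ _ (v 1).2 hi⟩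

omit [W.IsElliptic] [IsLocalHom φ] in
theorem exists_rep (P : (W.map O.subtype).toAffine.Point) : ∃ v : Fin 3 → O,
    W.toProjective.Equation v ∧ φ ∘ v ≠ 0 ∧
      P = Projective.Point.toAffine (W.map O.subtype) (O.subtype ∘ v) := by
  rcases P with _ | ⟨x, y, h⟩
  · refine ⟨![0, 1, 0], Projective.equation_zero, fun h => ?_, ?_⟩
    · simpa using congrFun h 1
    · exact (Projective.Point.toAffine_of_Z_eq_zero (by simp)).symm
  · obtain ⟨c, hc, v, hv, i, hi⟩ := unimod O ![x, y, 1] fun h => by simpa using congrFun h 2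
    have e : O.subtype ∘ v = c • ![x, y, 1] := funext hv
    have hn : (W.map O.subtype).toProjective.Nonsingular ![x, y, 1] :=
      (Projective.nonsingular_some _ _).2 h
    refine ⟨v, ?_, fun h => by simpa [hi] using congrFun h i, ?_⟩
    · rw [← Projective.map_equation W.toProjective (f := O.subtype) Subtype.val_injective, e,
        Projective.equation_smul _ hc.isUnit]
      exact hn.1
    · rw [e, Projective.Point.toAffine_smul _ hc.isUnit, Projective.Point.toAffine_some hn]

variable [DecidableEq F] [DecidableEq L]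

theorem evF_add_of (P Q : (W.map O.subtype).toAffine.Point) (h : P = Q ∨ evF O φ (W.map O.subtype) (W.map φ) P ≠ evF O φ (W.map O.subtype) (W.map φ) Q) :
    evF O φ (W.map O.subtype) (W.map φ) (P + Q) = evF O φ (W.map O.subtype) (W.map φ) P + evF O φ (W.map O.subtype) (W.map φ) Q := by
  obtain ⟨p, hp, hp0, rfl⟩ := exists_rep φ W P
  obtain ⟨q, hq, hq0, hQ⟩ := exists_rep φ W Q
  have n0 : ∀ {v : Fin 3 → O}, φ ∘ v ≠ 0 → O.subtype ∘ v ≠ 0 := fun {v} h0 h => h0 (by
    ext i
    have : v i = 0 := Subtype.ext (congrFun h i)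
    simp [this])
  have np := proj_nonsingular (W.map O.subtype) (hp.map O.subtype) (n0 hp0)
  have nq := proj_nonsingular (W.map O.subtype) (hq.map O.subtype) (n0 hq0)
  have mp := proj_nonsingular (W.map φ) (hp.map φ) hp0
  have mq := proj_nonsingular (W.map φ) (hq.map φ) hq0
  have key : ∀ {a b w : Fin 3 → O}, W.toProjective.Equation a → φ ∘ a ≠ 0 →
      W.toProjective.Equation b → φ ∘ b ≠ 0 →
      (W.map O.subtype).toProjective.add (O.subtype ∘ a) (O.subtype ∘ b) = O.subtype ∘ w →
      (W.map φ).toProjective.add (φ ∘ a) (φ ∘ b) = φ ∘ w →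
      evF O φ (W.map O.subtype) (W.map φ) (Projective.Point.toAffine (W.map O.subtype) (O.subtype ∘ a) +
        Projective.Point.toAffine (W.map O.subtype) (O.subtype ∘ b)) =
      evF O φ (W.map O.subtype) (W.map φ) (Projective.Point.toAffine (W.map O.subtype) (O.subtype ∘ a)) +
        evF O φ (W.map O.subtype) (W.map φ) (Projective.Point.toAffine (W.map O.subtype) (O.subtype ∘ b)) := by
    intro a b w ha ha0 hb hb0 e1 e2
    have na := proj_nonsingular (W.map O.subtype) (ha.map O.subtype) (n0 ha0)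
    have nb := proj_nonsingular (W.map O.subtype) (hb.map O.subtype) (n0 hb0)
    have ma := proj_nonsingular (W.map φ) (ha.map φ) ha0
    have mb := proj_nonsingular (W.map φ) (hb.map φ) hb0
    have nw := Projective.nonsingular_add na nb
    have mw := Projective.nonsingular_add ma mb
    rw [e1] at nw
    rw [e2] at mw
    have hw0 : φ ∘ w ≠ 0 := fun h => by
      rw [h, Projective.nonsingular_iff] at mw
      simp at mw
    rw [← Projective.Point.toAffine_add na nb, e1, evF_rep φ W ha ha0, evF_rep φ W hb hb0,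
      ← Projective.Point.toAffine_add ma mb, e2]
    exact evF_rep φ W ((Projective.map_equation W.toProjective (f := O.subtype)
      Subtype.val_injective _).1 nw.1) hw0
  rcases h with h | h
  · rw [← h]
    exact key (w := W.toProjective.dblXYZ p) hp hp0 hp hp0
      (by rw [Projective.add_self]; exact Projective.map_dblXYZ ..)
      (by rw [Projective.add_self]; exact Projective.map_dblXYZ ..)
  · subst hQ
    refine key (w := W.toProjective.addXYZ p q) hp hp0 hq hq0 ?_ ?_
    · rw [Projective.add_of_not_equiv fun e => h (by rw [Projective.Point.toAffine_of_equiv e])]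
      exact Projective.map_addXYZ ..
    · rw [evF_rep φ W hp hp0, evF_rep φ W hq hq0] at h
      rw [Projective.add_of_not_equiv fun e => h (Projective.Point.toAffine_of_equiv e)]
      exact Projective.map_addXYZ ..

omit [DecidableEq F] [DecidableEq L] in
theorem evF_neg (P : (W.map O.subtype).toAffine.Point) : evF O φ (W.map O.subtype) (W.map φ) (-P) = -evF O φ (W.map O.subtype) (W.map φ) P := by
  obtain ⟨p, hp, hp0, rfl⟩ := exists_rep φ W P
  have n0 : O.subtype ∘ p ≠ 0 := fun h => hp0 (by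
    ext i
    have : p i = 0 := Subtype.ext (congrFun h i)
    simp [this])
  have np := proj_nonsingular (W.map O.subtype) (hp.map O.subtype) n0
  have mp := proj_nonsingular (W.map φ) (hp.map φ) hp0
  have nw := Projective.nonsingular_neg np
  have mw := Projective.nonsingular_neg mp
  rw [evF_rep φ W hp hp0, ← Projective.Point.toAffine_neg np, ← Projective.Point.toAffine_neg mp]
  have e1 : (W.map O.subtype).toProjective.neg (O.subtype ∘ p) =
    O.subtype ∘ W.toProjective.neg p := Projective.map_neg ..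
  have e2 : (W.map φ).toProjective.neg (φ ∘ p) = φ ∘ W.toProjective.neg p := Projective.map_neg ..
  rw [e1] at nw ⊢
  rw [e2] at mw ⊢
  refine evF_rep φ W ((Projective.map_equation W.toProjective (f := O.subtype)
    Subtype.val_injective _).1 nw.1) fun h => ?_
  rw [h, Projective.nonsingular_iff] at mw
  simp at mw

omit [DecidableEq F] [DecidableEq L] [IsLocalHom φ] in
theorem evF_some {x y : F} (h : (W.map O.subtype).toAffine.Nonsingular x y) (hx : x ∈ O)
    (hy : y ∈ O) : ∃ h', evF O φ (W.map O.subtype) (W.map φ) (some x y h) = some (φ ⟨x, hx⟩) (φ ⟨y, hy⟩) h' := by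
  have e : W.toAffine.Equation ⟨x, hx⟩ ⟨y, hy⟩ :=
    (map_equation W.toAffine (f := O.subtype) Subtype.val_injective _ _).1 h.1
  have n : (W.map φ).toAffine.Nonsingular (φ ⟨x, hx⟩) (φ ⟨y, hy⟩) :=
    equation_iff_nonsingular.1 (e.map φ)
  refine ⟨n, ?_⟩
  rw [evF, dif_pos ⟨hx, hy⟩, Projective.Point.toAffine_some ((Projective.nonsingular_some _ _).2 n)]

omit [DecidableEq F] [DecidableEq L] [IsLocalHom φ] [W.IsElliptic] in
theorem evF_ne_zero {P : (W.map O.subtype).toAffine.Point} (h : evF O φ (W.map O.subtype) (W.map φ) P ≠ 0) :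
    ∃ x y hxy, P = some x y hxy ∧ x ∈ O ∧ y ∈ O := by
  rcases P with _ | ⟨x, y, hxy⟩
  · exact absurd rfl h
  · refine ⟨x, y, hxy, rfl, ?_⟩
    by_contra hc
    exact h (by rw [evF, dif_neg hc])

theorem evF_add (P Q : (W.map O.subtype).toAffine.Point) : evF O φ (W.map O.subtype) (W.map φ) (P + Q) = evF O φ (W.map O.subtype) (W.map φ) P + evF O φ (W.map O.subtype) (W.map φ) Q := by
  by_cases h : evF O φ (W.map O.subtype) (W.map φ) P = evF O φ (W.map O.subtype) (W.map φ) Q
  swap
  · exact evF_add_of φ W P Q (Or.inr h)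
  by_cases h2 : evF O φ (W.map O.subtype) (W.map φ) P + evF O φ (W.map O.subtype) (W.map φ) P = 0
  swap
  · have a1 : evF O φ (W.map O.subtype) (W.map φ) (Q + -P) = 0 := by
      rw [evF_add_of φ W Q (-P) (Or.inr ?_), evF_neg, h, add_neg_cancel]
      rw [evF_neg, ← h]
      exact fun e => h2 (add_eq_zero_iff_eq_neg.2 e)
    have a2 := evF_add_of φ W P P (Or.inl rfl)
    have a3 := evF_add_of φ W (P + P) (Q + -P) (Or.inr (by rw [a1, a2]; exact h2))
    rw [show P + P + (Q + -P) = P + Q by abel, a1, a2, add_zero] at a3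
    rw [a3, h]
  rw [← h, h2]
  by_contra h3
  by_cases h4 : evF O φ (W.map O.subtype) (W.map φ) P = 0
  · have := evF_add_of φ W (P + Q) (-Q) (Or.inr (by rw [evF_neg, ← h, h4, _root_.neg_zero]; exact h3))
    rw [add_neg_cancel_right, evF_neg, ← h, h4, _root_.neg_zero, add_zero] at this
    exact h3 this.symm
  obtain ⟨r, s, hrs, e3, hr, -⟩ := evF_ne_zero φ W h3
  obtain ⟨x₁, y₁, h₁, rfl, hx₁, hy₁⟩ := evF_ne_zero φ W h4
  obtain ⟨x₂, y₂, h₂, rfl, hx₂, hy₂⟩ := evF_ne_zero φ W (h ▸ h4)
  obtain ⟨n₁, e₁⟩ := evF_some φ W h₁ hx₁ hy₁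
  obtain ⟨n₂, e₂⟩ := evF_some φ W h₂ hx₂ hy₂
  rw [e₁, e₂] at h
  injection h with hx hy
  obtain ⟨c, hc, a⟩ := asm (W.map O.subtype) (some _ _ h₁) (some _ _ h₂)
  obtain ⟨d, hd, b⟩ := asm (W.map φ) (some _ _ n₁) (some _ _ n₁)
  rw [e₁] at h2
  rw [h2, sub_self, asm_eval] at b
  rw [e3, asm_eval] at a
  have a0 := congrFun a 0
  have a1 := congrFun a 1
  have a2 := congrFun a 2
  have b0 := congrFun b 0
  have b1 := congrFun b 1
  simp [sym2x] at a0 a1 a2 b0 b1
  set X₁ : O := ⟨x₁, hx₁⟩
  set X₂ : O := ⟨x₂, hx₂⟩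
  set R : O := ⟨r, hr⟩
  have key : ((X₁ + X₂) ^ 2 - 4 * (X₁ * X₂)) * R ^ 2 - (2 * (X₁ + X₂) * (X₁ * X₂) +
      W.b₂ * (X₁ * X₂) + W.b₄ * (X₁ + X₂) + W.b₆) * R +
      ((X₁ * X₂) ^ 2 - W.b₄ * (X₁ * X₂) - W.b₆ * (X₁ + X₂) - W.b₈) = 0 := by
    apply (show Function.Injective O.subtype from Subtype.val_injective)
    simp only [map_add, map_sub, map_mul, map_pow, map_ofNat, _root_.map_zero]
    simp only [X₁, X₂, R, ValuationSubring.coe_subtype]
    linear_combination a0 - r * a1 + r ^ 2 * a2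
  have := congrArg φ key
  simp only [map_add, map_sub, map_mul, map_pow, map_ofNat, _root_.map_zero, ← hx] at this
  exact hd (by linear_combination this - b0 + φ R * b1)

/-- Reduction of points as a homomorphism, for any two curves that come from `W`. -/
theorem exists_ev (W₁ : WeierstrassCurve F) (W₂ : WeierstrassCurve L) (h₁ : W.map O.subtype = W₁)
    (h₂ : W.map φ = W₂) : ∃ f : W₁.toAffine.Point →+ W₂.toAffine.Point, ⇑f = evF O φ W₁ W₂ := by
  subst h₁ h₂
  exact ⟨AddMonoidHom.mk' _ (evF_add φ W), rfl⟩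

omit [DecidableEq F] [DecidableEq L] [IsLocalHom φ] [W.IsElliptic] in
theorem y_mem {x y : F} (h : (W.map O.subtype).toAffine.Equation x y) (hx : x ∈ O) : y ∈ O := by
  rcases O.mem_or_inv_mem y with hy | hy
  · exact hy
  by_cases h0 : y = 0
  · rw [h0]
    exact O.zero_mem
  rw [equation_iff] at h
  set X : O := ⟨x, hx⟩
  set Z : O := ⟨y⁻¹, hy⟩
  have : y = O.subtype (-(W.a₁ * X + W.a₃) + (X ^ 3 + W.a₂ * X ^ 2 + W.a₄ * X + W.a₆) * Z) := by
    simp only [map_add, map_mul, map_pow, _root_.map_neg]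
    simp only [X, Z, ValuationSubring.coe_subtype]
    simp only [toAffine, map_a₁, map_a₂, map_a₃, map_a₄, map_a₆,
      ValuationSubring.coe_subtype] at h
    field_simp
    linear_combination h
  rw [this]
  exact (-(W.a₁ * X + W.a₃) + (X ^ 3 + W.a₂ * X ^ 2 + W.a₄ * X + W.a₆) * Z).2

open scoped WeierstrassCurve.Affine in
/-- Evaluation of `F`-points of an elliptic curve over `K` at an `L`-valued place of `F / K`. -/
theorem exists_evK {K : Type} [Field K] [DecidableEq K] [Algebra K F] [Algebra K L]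
    (E : WeierstrassCurve K) [E.IsElliptic] (hm : ∀ c, algebraMap K F c ∈ O)
    (hc : ∀ c, φ ⟨algebraMap K F c, hm c⟩ = algebraMap K L c) :
    ∃ f : (E.toAffine⁄F).Point →+ (E.toAffine⁄L).Point, ⇑f = evF O φ _ _ ∧
      (∀ x y h (hx : x ∈ O), ∃ (hy : y ∈ O) (h' : _),
        f (some x y h) = some (φ ⟨x, hx⟩) (φ ⟨y, hy⟩) h') ∧
      (∀ x y h, x ∉ O → f (some x y h) = 0) ∧
      ∀ P : (E.toAffine⁄K).Point, f (Point.baseChange K F P) = Point.baseChange K L P := by
  let j : K →+* O := (algebraMap K F).codRestrict O.toSubring hm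
  have h₁ : (E.map j).map O.subtype = E.toAffine⁄F := by
    rw [WeierstrassCurve.map_map]
    rfl
  have h₂ : (E.map j).map φ = E.toAffine⁄L := by
    rw [WeierstrassCurve.map_map, show φ.comp j = algebraMap K L from RingHom.ext hc]
    rfl
  obtain ⟨f, hf⟩ := exists_ev φ (E.map j) _ _ h₁ h₂
  have a : ∀ x y h (hx : x ∈ O), ∃ (hy : y ∈ O) (h' : _),
      f (some x y h) = some (φ ⟨x, hx⟩) (φ ⟨y, hy⟩) h' := by
    rw [hf]
    clear hf f
    generalize E.toAffine⁄F = W₁ at h₁
    generalize E.toAffine⁄L = W₂ at h₂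
    subst h₁ h₂
    exact fun x y h hx => ⟨y_mem _ h.1 hx, evF_some φ _ h hx _⟩
  refine ⟨f, hf, a, fun x y h hx => by rw [hf, evF, dif_neg fun h => hx h.1], ?_⟩
  rintro (_ | ⟨x, y, h⟩)
  · rw [← zero_def, _root_.map_zero, _root_.map_zero, _root_.map_zero]
  · obtain ⟨hy, h', e⟩ := a (algebraMap K F x) (algebraMap K F y)
      ((baseChange_nonsingular E.toAffine (f := Algebra.ofId K F) (Algebra.ofId K F).injective
        x y).2 h) (hm x)
    refine e.trans ?_
    simp only [hc]
    rfl

end Pool.Agent.P.MP_ab3ecb_nt.R1.H
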