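import Pool.Agent.P.MP_ab3ecb_nt.R1.Iface
import Pool.Agent.P.MP_ab3ecb_nt.R1.HAsm
import Pool.Agent.P.MP_ab3ecb_nt.R1.HCan
import Pool.Agent.P.MP_ab3ecb_nt.R1.HFin
import Pool.Agent.P.MP_ab3ecb_nt.R1.HEv
import Pool.Agent.P.MP_ab3ecb_nt.R1.HNear

/-! Steps ASM HT FIN EV NEAR PROP LIMA LIM NC RES GK RELA. -/

set_option autoImplicit false
set_option linter.unusedSectionVars false
set_option linter.unusedVariables false
set_option linter.ambiguousOpen false

namespace Pool.Agent.P.MP_ab3ecb_nt.R1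

section ASM

open NumberField IsDedekindDomain WeierstrassCurve Inv OnePoint Finset Filter Topology
open WeierstrassCurve.Affine (Point)
open scoped Classical IntermediateField

theorem p_ASM :
    S_ASM := by
  intro L _ _ W _ P Q
  obtain ⟨c, h0, h1⟩ := H.asm W P Q
  exact ⟨c⁻¹, inv_ne_zero h0, by rw [← addSubMap_sym2x, h1, inv_smul_smul₀ h0]⟩

end ASM

section HT

open NumberField IsDedekindDomain WeierstrassCurve Inv OnePoint Finset Filter Topology
open WeierstrassCurve.Affine (Point)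
open scoped Classical IntermediateField

theorem p_HT :
    S_HT := by
  intro K _ _ W _ P0 h
  exact H.can (W.baseChange K) P0 fun h1 =>
    let ⟨n, h2, h3⟩ := isOfFinAddOrder_iff_zsmul_eq_zero.1 h1
    h2 (h n h3)

end HT

section FIN

open NumberField IsDedekindDomain WeierstrassCurve Inv OnePoint Finset Filter Topology
open WeierstrassCurve.Affine (Point)
open scoped Classical IntermediateField

lemma fin_small {K : Type} [Field K] [NumberField K] {S : Set (Pl K)} (hS : S.Finite) (M : ℝ) :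
    ∃ t : K, t ≠ 0 ∧ ∀ v ∈ S, nv v t * M ≤ 1 := by
  choose a ha h0 using fun v : Pl K => Submodule.exists_mem_ne_zero_of_ne_bot v.ne_bot
  have h1 : ∀ v ∈ S, ∀ᶠ k in atTop, nv v (algebraMap (𝓞 K) K (∏ u ∈ hS.toFinset, a u) ^ k) * M ≤ 1 :=
    fun v hv => by
      have h2 : nv v (algebraMap (𝓞 K) K (∏ u ∈ hS.toFinset, a u)) < 1 :=
        (FinitePlace.norm_lt_one_iff_mem K v _).2
          (Ideal.mem_of_dvd _ (dvd_prod_of_mem a (hS.mem_toFinset.2 hv)) (ha v))
      have h3 := (tendsto_pow_atTop_nhds_zero_of_lt_one (norm_nonneg _) h2).mul_const M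
      simp only [nv, map_pow, norm_pow]
      exact h3.eventually_le_const (by simp)
  obtain ⟨k, hk⟩ := ((eventually_all_finite hS).2 h1).exists
  exact ⟨_, pow_ne_zero k (RingOfIntegers.coe_ne_zero_iff.2 (prod_ne_zero_iff.2 fun u _ => h0 u)),
    hk⟩

theorem p_FIN :
    S_FIN := by
  intro K _ _ W _ P0 h S hS
  have h0 : ¬ IsOfFinAddOrder P0 := fun h1 =>
    let ⟨n, h2, h3⟩ := isOfFinAddOrder_iff_zsmul_eq_zero.1 h1
    h2 (h n h3)
  obtain ⟨q, C, h1, h2⟩ := H.can (W.baseChange K) P0 h0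
  refine ⟨q, h1, fun N hN => ?_⟩
  have := hS.to_subtype
  obtain ⟨C', M, h3⟩ := H.fin_lower (W.baseChange K) h0 h2 (fun v : ↥Sᶜ => nv v.1)
    (fun v => H.arch_far _ (algebraMap K (Kv v.1))) hN
  obtain ⟨t, ht, h4⟩ := fin_small hS (max 1 M)
  refine ⟨C', t, ht, fun J => ?_⟩
  obtain ⟨n, k1, k2, x, y, k3, k4, k5, k6⟩ := h3 J
  refine ⟨n, k1, k2, by rw [hf_eq, k4]; exact k5, fun v hv => le_trans ?_ (h4 v hv)⟩
  rw [k4]
  exact mul_le_mul_of_nonneg_left (max_le_max_left _ (k6 ⟨v, hv⟩)) (norm_nonneg _)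

end FIN

section EV

open NumberField IsDedekindDomain WeierstrassCurve Inv OnePoint Finset Filter Topology
open WeierstrassCurve.Affine (Point)
open scoped Classical IntermediateField

theorem p_EV (hASM : S_ASM) :
    S_EV := by
  intro K F L _ _ _ _ _ _ _ W _ z f g
  have := z.loc
  obtain ⟨e, -, h1, h2, -⟩ := H.exists_evK z.φ W z.mem z.comm
  have key : ∀ f, evl z f = e f := by
    rintro (_ | ⟨x, y, h⟩)
    · exact e.map_zero.symm
    by_cases hx : x ∈ z.O
    · obtain ⟨hy, h', h3⟩ := h1 x y h hx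
      rw [h3, evl_some_of_mem z h hx hy]
    · rw [h2 x y h hx, evl_some_of_notMem z h hx]
  rw [key, key, key, map_add]

end EV

section NEAR

open NumberField IsDedekindDomain WeierstrassCurve Inv OnePoint Finset Filter Topology
open WeierstrassCurve.Affine (Point)
open scoped Classical IntermediateField

theorem p_NEAR (hASM : S_ASM) :
    S_NEAR := by
  intro L _ _ _ W _
  obtain ⟨h1, h2, h4, h6, h8⟩ := cb_ge W
  refine ⟨fun r P Q hr hP hQ => H.Near.add h1 h2 h4 h6 h8 hr hP hQ, fun r T R hr hT => ?_⟩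
  have hn : ∀ s : Fin 2 → L, ‖s‖ = max ‖s 0‖ ‖s 1‖ := fun s => le_antisymm
    ((pi_norm_le_iff_of_nonneg (by positivity)).2 (Fin.forall_fin_two.2
      ⟨le_max_left _ _, le_max_right _ _⟩)) (max_le (norm_le_pi_norm s 0) (norm_le_pi_norm s 1))
  rcases R with _ | ⟨x, y, h⟩
  · have h3 : r * ‖T.xRep 1‖ ≤ ‖T.xRep‖ := hT.trans (norm_le_pi_norm _ 0)
    have h5 := norm_le_pi_norm T.xRep 1
    have h7 := norm_nonneg (T.xRep 1)
    simp only [Clo, ← Point.zero_def, sub_zero, Point.xRep_zero, hn ![1, 0]]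
    simp only [Matrix.cons_val_one, Matrix.cons_val_zero, mul_zero, mul_one, zero_sub, norm_neg,
      norm_one, norm_zero, zero_le_one, max_eq_left]
    nlinarith [mul_le_mul h3 h5 h7 (norm_nonneg _), sq_nonneg ‖T.xRep‖]
  · have := H.Near.close h1 h2 h4 h6 h8 hr hT ((Affine.nonsingular_neg x y).2 h)
    rw [← Point.neg_some h, ← sub_eq_add_neg, ← hn] at this
    simp only [Clo, Point.xRep_some, hn ![x, 1], Matrix.cons_val_one, Matrix.cons_val_zero,
      mul_one, norm_one, max_comm ‖x‖, mul_comm _ x, mul_pow]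
    linarith

end NEAR

section PROP

open NumberField IsDedekindDomain WeierstrassCurve Inv OnePoint Finset Filter Topology
open WeierstrassCurve.Affine (Point)
open scoped Classical IntermediateField

theorem prop_apx {K : Type} [Field K] [NumberField K] (v : Pl K) (x : Ov v) :
    ∃ a : 𝓞 K, Valued.v ((x - algebraMap (𝓞 K) (Ov v) a : Ov v) : Kv v) < 1 := by
  obtain ⟨d, hd⟩ := (v.denseRange_algebraMap K).exists_dist_lt (x : Kv v) one_pos
  rw [dist_eq_norm, Valued.toNormedField.norm_lt_one_iff] at hd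
  have h1 : Valued.v (algebraMap K (Kv v) d) ≤ 1 := by
    rw [← sub_sub_cancel (x : Kv v) (algebraMap K (Kv v) d)]
    exact Valuation.map_sub_le _ x.2 hd.le
  have e : ∀ y : K, Valued.v (algebraMap K (Kv v) y) = v.valuation K y :=
    v.valuedAdicCompletion_eq_valuation'
  obtain ⟨a, ha⟩ := v.exists_valuation_sub_lt_of_integer (e d ▸ h1) 1
  refine ⟨a, ?_⟩
  rw [← e, map_sub] at ha
  have : ((x - algebraMap (𝓞 K) (Ov v) a : Ov v) : Kv v) = (x - algebraMap K (Kv v) d) -
      (algebraMap K (Kv v) (algebraMap (𝓞 K) K a) - algebraMap K (Kv v) d) := by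
    rw [sub_sub_sub_cancel_right]
    rfl
  rw [this]
  exact Valuation.map_sub_lt _ hd ha

theorem prop_fin {K : Type} [Field K] [NumberField K] (v : Pl K) :
    Finite (IsLocalRing.ResidueField (Ov v)) := by
  have ev : ∀ a : 𝓞 K, Valued.v ((algebraMap (𝓞 K) (Ov v) a : Ov v) : Kv v) = v.intValuation a :=
    fun a => (v.valuedAdicCompletion_eq_valuation' _).trans (v.valuation_of_algebraMap a)
  have hm : ∀ z : Ov v, z ∈ IsLocalRing.maximalIdeal (Ov v) ↔ Valued.v (z : Kv v) < 1 := fun z => by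
    rw [IsLocalRing.mem_maximalIdeal, mem_nonunits_iff,
      HeightOneSpectrum.adicCompletionIntegers.isUnit_iff_valued_eq_one]
    exact ⟨fun h => lt_of_le_of_ne z.2 h, fun h => h.ne⟩
  let ρ : 𝓞 K →+* IsLocalRing.ResidueField (Ov v) :=
    (IsLocalRing.residue (Ov v)).comp (algebraMap (𝓞 K) (Ov v))
  have hρ : Function.Surjective ρ := fun y => by
    obtain ⟨x, rfl⟩ := IsLocalRing.residue_surjective y
    obtain ⟨a, ha⟩ := prop_apx v x
    refine ⟨a, (sub_eq_zero.1 ?_).symm⟩
    rw [RingHom.comp_apply, ← map_sub, IsLocalRing.residue_eq_zero_iff, hm]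
    exact ha
  have kρ : RingHom.ker ρ = v.asIdeal := by
    ext a
    rw [RingHom.mem_ker, RingHom.comp_apply, IsLocalRing.residue_eq_zero_iff, hm, ev,
      v.intValuation_lt_one_iff_mem]
  have h1 : Finite (𝓞 K ⧸ RingHom.ker ρ) :=
    kρ ▸ v.asIdeal.finiteQuotientOfFreeOfNeBot v.ne_bot
  exact Finite.of_equiv _ (RingHom.quotientKerEquivOfSurjective hρ).toEquiv

theorem p_PROP :
    S_PROP := by
  intro K _ _ v
  exact (Valued.integer.properSpace_iff_completeSpace_and_isDiscreteValuationRing_integer_and_finite_residueField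
    (K := Kv v)).2 ⟨inferInstance, inferInstanceAs (IsDiscreteValuationRing (Ov v)), prop_fin v⟩

end PROP

section LIMA

open NumberField IsDedekindDomain WeierstrassCurve Inv OnePoint Finset Filter Topology
open WeierstrassCurve.Affine (Point)
open scoped Classical IntermediateField

theorem p_LIMA :
    S_LIMA := by
  intro L _ _ _ W _ α l Q S h r
  rcases S with _ | ⟨a, b, hab⟩
  · have h1 := (continuous_fst.tendsto _).comp h
    have h2 : (((↑) : L → OnePoint L) '' Metric.closedBall 0 r)ᶜ ∈ 𝓝 (∞ : OnePoint L) :=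
      (isOpen_compl_image_coe.2 ⟨Metric.isClosed_closedBall, isCompact_closedBall 0 r⟩).mem_nhds
        (by simp)
    filter_upwards [h1 h2] with i hi
    rw [← Point.zero_def, zero_sub, near_neg]
    rcases hQ : Q i with _ | ⟨x, y, hxy⟩
    · exact near_zero r
    · refine (near_some hxy).2 (le_of_not_ge fun h3 => hi ⟨x, by simpa using h3, ?_⟩)
      simp [hQ, co]
  · have key : ∀ {t : α → OnePoint L} {c : L}, Tendsto t l (𝓝 (c : OnePoint L)) →
        Tendsto (fun i => (t i).elim 0 id) l (𝓝 c) ∧ ∀ᶠ i in l, t i ≠ ∞ := fun {t c} ht => by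
      have h1 : ∀ᶠ i in l, t i ≠ ∞ := ht (isOpen_ne.mem_nhds (coe_ne_infty c))
      refine ⟨isOpenEmbedding_coe.isInducing.tendsto_nhds_iff.2 (ht.congr' ?_), h1⟩
      filter_upwards [h1] with i hi
      obtain ⟨x, hx⟩ := ne_infty_iff_exists.1 hi
      simp [← hx]
    obtain ⟨h1, h2⟩ := key ((continuous_fst.tendsto _).comp h)
    obtain ⟨h3, -⟩ := key ((continuous_snd.tendsto _).comp h)
    filter_upwards [H.near_sub hab h1 h3 r, h2] with i hi h4
    rcases hQ : Q i with _ | ⟨x, y, hxy⟩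
    · exact absurd (by simp [hQ, co]) h4
    · simp only [Function.comp, hQ, co] at hi
      exact hi hxy

end LIMA

section LIM

open NumberField IsDedekindDomain WeierstrassCurve Inv OnePoint Finset Filter Topology
open WeierstrassCurve.Affine (Point)
open scoped Classical IntermediateField

theorem p_LIM (hPROP : S_PROP) (hLIMA : S_LIMA) :
    S_LIM := by
  intro K _ _ W _ Γ S a h
  have h1 := mem_closure_iff_clusterPt.1 h
  rw [Diag, ← Filter.map_principal, ClusterPt, ← Filter.push_pull', map_neBot_iff] at h1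
  have h2 := @Ultrafilter.of_le _ _ h1
  refine ⟨@Ultrafilter.of _ _ h1, le_principal_iff.1 (h2.trans inf_le_right), fun v r => ?_⟩
  have := hPROP K v.1
  refine hLIMA (Kv v.1) _ _ _ _ _ ?_ r
  simp only [co_bc]
  exact tendsto_pi_nhds.1 (tendsto_comap.mono_left (h2.trans inf_le_left)) v

end LIM

section NC

open NumberField IsDedekindDomain WeierstrassCurve Inv OnePoint Finset Filter Topology
open WeierstrassCurve.Affine (Point)
open scoped Classical IntermediateField

theorem p_NC :
    S_NC := by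
  intro K F _ _ _ _ _ W _ hK f hf
  rcases f with _ | ⟨x, y, h⟩
  · exact absurd (zero_mem _) hf
  refine ⟨x, y, h, rfl, fun hx => hf ?_⟩
  obtain ⟨a, rfl⟩ := hK x hx
  obtain ⟨b, rfl⟩ := hK y (IsIntegral.isAlgebraic ⟨Polynomial.X ^ 2 + (Polynomial.C
    (W.a₁ * a + W.a₃) * Polynomial.X - Polynomial.C (a ^ 3 + W.a₂ * a ^ 2 + W.a₄ * a + W.a₆)),
    by monicity!, by
      simp only [Polynomial.eval₂_add, Polynomial.eval₂_sub, Polynomial.eval₂_mul,
        Polynomial.eval₂_C, Polynomial.eval₂_X, Polynomial.eval₂_X_pow]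
      simp only [map_add, map_mul, map_pow]
      linear_combination equation_iff_alg.1 h.1⟩)
  exact ⟨.some a b ((W.baseChange_nonsingular (Algebra.ofId K F).injective a b).1 h), rfl⟩

end NC

section RES

open NumberField IsDedekindDomain WeierstrassCurve Inv OnePoint Finset Filter Topology
open WeierstrassCurve.Affine (Point)
open scoped Classical IntermediateField

theorem p_RES :
    S_RES := by
  rintro K F _ _ _ ⟨x, -, hx⟩ O hO hne
  have ff := (PL.ff_of_finite K F F x).1
  let _ : Algebra K O := ((algebraMap K F).codRestrict O hO).toAlgebra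
  have : IsScalarTower K O F := .of_algebraMap_eq fun _ => rfl
  have alg : Algebra.IsAlgebraic K (IsLocalRing.ResidueField O) := ⟨fun r => by
    obtain ⟨a, rfl⟩ := IsLocalRing.residue_surjective r
    by_contra ht
    have hu : ∀ p : Polynomial K, p ≠ 0 → IsUnit (Polynomial.aeval a p) := fun p hp =>
      (IsLocalRing.residue_ne_zero_iff_isUnit _).1 fun h => ht ⟨p, hp,
        (Polynomial.aeval_algebraMap_apply (IsLocalRing.ResidueField O) a p).trans h⟩
    have e : ∀ p : Polynomial K, Polynomial.aeval (a : F) p = (Polynomial.aeval a p : O) :=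
      fun p => Polynomial.aeval_algebraMap_apply F a p
    have := ff.fin (a : F) fun ⟨p, hp, h⟩ => (hu p hp).ne_zero (Subtype.ext ((e p).symm.trans h))
    have hs : ∀ z : K⟮(a : F)⟯, algebraMap _ F z ∈ O := by
      rintro ⟨z, hz⟩
      obtain ⟨r, s, rfl⟩ := (IntermediateField.mem_adjoin_simple_iff K z).1 hz
      show _ / _ ∈ O
      by_cases h0 : s = 0
      · simp [h0]
      · obtain ⟨u, h⟩ := (hu s h0).exists_right_inv
        have h1 : ((Polynomial.aeval a s : O) : F) * u = 1 := congrArg Subtype.val h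
        rw [e, e, div_eq_mul_inv, ← eq_inv_of_mul_eq_one_right h1]
        exact mul_mem (Subtype.prop _) u.2
    refine hne (eq_top_iff.2 fun z _ => ?_)
    have h2 : IsIntegral O z := IsIntegral.map_of_comp_eq ((algebraMap _ F).codRestrict O hs)
      (RingHom.id F) rfl (Algebra.IsIntegral.isIntegral (R := K⟮(a : F)⟯) z)
    obtain ⟨y, hy⟩ := IsIntegrallyClosed.isIntegral_iff.1 h2
    exact hy ▸ y.2⟩
  let ψ : IsLocalRing.ResidueField O →ₐ[K] AlgebraicClosure K := IsAlgClosed.lift
  exact ⟨⟨⟨O, ψ.toRingHom.comp (IsLocalRing.residue O), inferInstance⟩, hO,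
    fun c => ψ.commutes c⟩, rfl⟩

end RES

section GK

open NumberField IsDedekindDomain WeierstrassCurve Inv OnePoint Finset Filter Topology
open WeierstrassCurve.Affine (Point)
open scoped Classical IntermediateField

section

variable {K F : Type} [Field K] [Field F] [Algebra K F]

lemma gk_fin (T B : Submodule K F) (s : Finset F)
    (h : ∀ x ∈ s, ∃ e : ℕ, ∃ D ∈ T ^ e, D ≠ 0 ∧ D * x ∈ T ^ e * B) :
    ∃ e : ℕ, ∃ D ∈ T ^ e, D ≠ 0 ∧ ∀ x ∈ s, D * x ∈ T ^ e * B := by
  induction s using Finset.induction_on with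
  | empty => exact ⟨0, 1, by rw [pow_zero]; exact Submodule.one_le.1 le_rfl, one_ne_zero, by simp⟩
  | insert a s ha ih =>
    obtain ⟨e, D, h1, h2, h3⟩ := ih fun x hx => h x (mem_insert_of_mem hx)
    obtain ⟨e', D', h4, h5, h6⟩ := h a (mem_insert_self _ _)
    refine ⟨e + e', D * D', by rw [pow_add]; exact Submodule.mul_mem_mul h1 h4,
      mul_ne_zero h2 h5, fun x hx => ?_⟩
    rcases mem_insert.1 hx with rfl | hx
    · rw [pow_add, mul_assoc, mul_assoc]
      exact Submodule.mul_mem_mul h1 h6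
    · rw [add_comm, pow_add, mul_comm D, mul_assoc, mul_assoc]
      exact Submodule.mul_mem_mul h4 (h3 x hx)

lemma gk_pow (t : F) {a n : ℕ} (h : a ≤ n) : t ^ a ∈ Submodule.span K {1, t} ^ n := by
  have h1 : t ^ a = t ^ a * 1 ^ (n - a) := by simp
  rw [h1, ← Nat.add_sub_cancel' h, pow_add, Nat.add_sub_cancel_left]
  exact Submodule.mul_mem_mul (Submodule.pow_mem_pow _ (Submodule.subset_span (by simp)) _)
    (Submodule.pow_mem_pow _ (Submodule.subset_span (by simp)) _)

lemma gk_aeval (t : F) (p : Polynomial K) {n : ℕ} (h : p.natDegree ≤ n) :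
    Polynomial.aeval t p ∈ Submodule.span K {1, t} ^ n := by
  rw [Polynomial.aeval_eq_sum_range]
  exact Submodule.sum_mem _ fun a ha => Submodule.smul_mem _ _
    (gk_pow t ((Nat.lt_succ_iff.1 (mem_range.1 ha)).trans h))

lemma gk_le (t : F) (n : ℕ) : Submodule.span K {1, t} ^ n ≤
    Submodule.span K (Set.range fun a : Fin (n + 1) => t ^ (a : ℕ)) := by
  induction n with
  | zero =>
    rw [pow_zero, Submodule.one_le]
    exact Submodule.subset_span ⟨0, by simp⟩
  | succ n ih =>
    rw [pow_succ]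
    refine (mul_le_mul' ih le_rfl).trans ?_
    rw [Submodule.span_mul_span]
    refine Submodule.span_mono ?_
    rintro _ ⟨_, ⟨a, rfl⟩, y, hy, rfl⟩
    rcases hy with rfl | rfl
    · exact ⟨a.castSucc, by simp⟩
    · exact ⟨a.succ, by simp [pow_succ]⟩

end

theorem p_GK :
    S_GK := by
  rintro K F _ _ _ ⟨t, -, ht⟩ V hV
  let b := Module.finBasis K⟮t⟯ F
  set d := Module.finrank K⟮t⟯ F
  set T : Submodule K F := Submodule.span K {1, t}
  set B : Submodule K F := Submodule.span K (Set.range b) with hB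
  have good : ∀ x : F, ∃ e : ℕ, ∃ D ∈ T ^ e, D ≠ 0 ∧ D * x ∈ T ^ e * B := fun x => by
    obtain ⟨e, D, h1, h2, h3⟩ := gk_fin T B (univ.image fun i => b.repr x i • b i) (by
      intro y hy
      obtain ⟨i, -, rfl⟩ := mem_image.1 hy
      obtain ⟨p, q, h⟩ := (IntermediateField.mem_adjoin_simple_iff K _).1 (b.repr x i).2
      have h0 : b.repr x i • b i = (b.repr x i : F) * b i := rfl
      have hb : b i ∈ B := Submodule.subset_span ⟨i, rfl⟩
      by_cases hq : Polynomial.aeval t q = 0
      · exact ⟨0, 1, by rw [pow_zero]; exact Submodule.one_le.1 le_rfl, one_ne_zero, by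
          rw [h0, h, hq]; simp⟩
      · refine ⟨max p.natDegree q.natDegree, _, gk_aeval t q (le_max_right _ _), hq, ?_⟩
        rw [h0, h, ← mul_assoc, mul_div_cancel₀ _ hq]
        exact Submodule.mul_mem_mul (gk_aeval t p (le_max_left _ _)) hb)
    refine ⟨e, D, h1, h2, ?_⟩
    rw [← b.sum_repr x, mul_sum]
    exact Submodule.sum_mem _ fun i _ => h3 _ (mem_image_of_mem _ (mem_univ i))
  have hfg : (V * B ⊔ 1).FG :=
    (((Submodule.fg_iff_finiteDimensional V).2 hV).mul
      (Submodule.fg_span (Set.finite_range b))).sup (by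
        rw [Submodule.one_eq_span]; exact Submodule.fg_span_singleton _)
  obtain ⟨s, hs⟩ := hfg
  obtain ⟨e, D, -, h2, h3⟩ := gk_fin T B s fun x _ => good x
  have h4 : Submodule.span K {D} * (V * B ⊔ 1) ≤ T ^ e * B := by
    rw [← hs, Submodule.span_mul_span, Submodule.span_le]
    rintro _ ⟨_, rfl, y, hy, rfl⟩
    exact h3 y hy
  have h5 : ∀ n : ℕ, Submodule.span K {D} ^ (n + 1) * V ^ n ≤ T ^ (e * (n + 1)) * B := by
    intro n
    induction n with
    | zero => simpa using (mul_le_mul' le_rfl le_sup_right).trans h4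
    | succ n ih =>
      calc Submodule.span K {D} ^ (n + 1 + 1) * V ^ (n + 1)
          = Submodule.span K {D} ^ (n + 1) * V ^ n * (Submodule.span K {D} * V) := by ring
        _ ≤ T ^ (e * (n + 1)) * B * (Submodule.span K {D} * V) := mul_le_mul' ih le_rfl
        _ = T ^ (e * (n + 1)) * (Submodule.span K {D} * (V * B)) := by ring
        _ ≤ T ^ (e * (n + 1)) * (T ^ e * B) := mul_le_mul' le_rfl
            ((mul_le_mul' le_rfl le_sup_left).trans h4)
        _ = T ^ (e * (n + 1 + 1)) * B := by ring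
  refine ⟨(e + 1) * d, fun n => ?_⟩
  let M : Submodule K F := Submodule.span K (Set.range
    fun x : Fin (e * (n + 1) + 1) × Fin d => t ^ (x.1 : ℕ) * b x.2)
  have h6 : T ^ (e * (n + 1)) * B ≤ M := by
    refine (mul_le_mul' (gk_le t _) le_rfl).trans ?_
    rw [hB, Submodule.span_mul_span]
    refine Submodule.span_mono ?_
    rintro _ ⟨_, ⟨a, rfl⟩, _, ⟨i, rfl⟩, rfl⟩
    exact ⟨(a, i), rfl⟩
  have : FiniteDimensional K M := FiniteDimensional.span_of_finite K (Set.finite_range _)
  let f : ↥(V ^ n) →ₗ[K] M := (LinearMap.mulLeft K (D ^ (n + 1))).restrict fun x hx =>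
    h6 (h5 n (Submodule.mul_mem_mul
      (Submodule.pow_mem_pow _ (Submodule.mem_span_singleton_self D) _) hx))
  have hf : Function.Injective f := fun x y h =>
    Subtype.ext (mul_left_cancel₀ (pow_ne_zero (n + 1) h2) (congrArg Subtype.val h))
  refine ⟨Module.Finite.of_injective f hf, (LinearMap.finrank_le_finrank_of_injective hf).trans
    ((finrank_range_le_card _).trans ?_)⟩
  simp only [Fintype.card_prod, Fintype.card_fin]
  nlinarith [Nat.zero_le (n * d)]

end GK

section RELA

open NumberField IsDedekindDomain WeierstrassCurve Inv OnePoint Finset Filter Topology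
open WeierstrassCurve.Affine (Point)
open scoped Classical IntermediateField

lemma rela_mem {K F : Type} [Field K] [Field F] [Algebra K F] {V : Submodule K F} {N d i : ℕ}
    {p : Fin 2 → F} (h : ∀ i, p i ∈ V ^ N) (hi : i ≤ d) :
    p 0 ^ i * p 1 ^ (d - i) ∈ V ^ (N * d) := by
  have := Submodule.mul_mem_mul (Submodule.pow_mem_pow _ (h 0) i)
    (Submodule.pow_mem_pow _ (h 1) (d - i))
  rwa [← pow_add, Nat.add_sub_cancel' hi, ← pow_mul] at this

theorem p_RELA :
    S_RELA := by
  intro K F _ _ _ V C hV N N' p q hN hN' ⟨s, hs, hp⟩ ⟨t, ht, hq⟩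
  set d := 3 * C * N' with hd
  set e := 3 * C * N with he
  obtain ⟨hf, hr⟩ := hV (N * d + N' * e)
  let w : Fin (d + 1) × Fin (e + 1) → ↥(V ^ (N * d + N' * e)) := fun a =>
    ⟨((s • p) 0 ^ a.1.1 * (s • p) 1 ^ (d - a.1.1)) * ((t • q) 0 ^ a.2.1 * (t • q) 1 ^ (e - a.2.1)),
      by
        rw [pow_add]
        exact Submodule.mul_mem_mul (rela_mem (p := s • p) hp (Nat.lt_succ_iff.1 a.1.2))
          (rela_mem (p := t • q) hq (Nat.lt_succ_iff.1 a.2.2))⟩
  have hw : ¬ LinearIndependent K w := fun h => by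
    have h1 := h.fintype_card_le_finrank.trans hr
    simp only [Fintype.card_prod, Fintype.card_fin, hd, he] at h1
    have h2 : C ≤ C * N := Nat.le_mul_of_pos_right C hN
    nlinarith [Nat.zero_le (C * C * N * N'), Nat.zero_le (C * N')]
  obtain ⟨g, hg, a, ha⟩ := Fintype.not_linearIndependent_iff.1 hw
  refine ⟨fun i j => if h : i < d + 1 ∧ j < e + 1 then g (⟨i, h.1⟩, ⟨j, h.2⟩) else 0,
    ⟨a.1, Nat.lt_succ_iff.1 a.1.2, a.2, Nat.lt_succ_iff.1 a.2.2, by simpa [a.1.2, a.2.2] using ha⟩, ?_⟩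
  refine (mul_eq_zero.1 ((bh_smul p q _ d e _ s t).symm.trans ?_)).resolve_left
    (mul_ne_zero (pow_ne_zero _ hs) (pow_ne_zero _ ht))
  have h3 := congrArg Subtype.val hg
  rw [Submodule.coe_sum, Fintype.sum_prod_type] at h3
  refine Eq.trans ?_ h3
  simp only [bh, Finset.sum_range]
  refine sum_congr rfl fun i _ => sum_congr rfl fun j _ => ?_
  rw [dif_pos ⟨i.2, j.2⟩, Submodule.coe_smul, Algebra.smul_def (g _), mul_assoc]

end RELA

end Pool.Agent.P.MP_ab3ecb_nt.R1
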