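import Pool.Agent.P.MP_ab3ecb_nt.R1.Iface

/-! Steps LAD RELB REL PF ROOT. -/

set_option autoImplicit false
set_option linter.unusedSectionVars false
set_option linter.unusedVariables false
set_option linter.ambiguousOpen false

namespace Pool.Agent.P.MP_ab3ecb_nt.R1

section LAD

open NumberField IsDedekindDomain WeierstrassCurve Inv OnePoint Finset Filter Topology
open WeierstrassCurve.Affine (Point)
open scoped Classical IntermediateField

section

variable {K F : Type} [Field K] [Field F] [Algebra K F] {V : Submodule K F}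

lemma lad_mono (h : (1 : F) ∈ V) {n m : ℕ} (hnm : n ≤ m) : V ^ n ≤ V ^ m := by
  induction m, hnm using Nat.le_induction with
  | base => exact le_rfl
  | succ m _ ih =>
    intro x hx
    rw [pow_succ, ← mul_one x]
    exact Submodule.mul_mem_mul (ih hx) h

lemma lad_four {N : ℕ} {x y z w : F} (hx : x ∈ V ^ N) (hy : y ∈ V ^ N) (hz : z ∈ V ^ N)
    (hw : w ∈ V ^ N) (c : K) : algebraMap K F c * (x * y * z * w) ∈ V ^ (4 * N) := by
  rw [← Algebra.smul_def, show 4 * N = N + N + N + N by ring, pow_add, pow_add, pow_add]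
  exact Submodule.smul_mem _ _
    (Submodule.mul_mem_mul (Submodule.mul_mem_mul (Submodule.mul_mem_mul hx hy) hz) hw)

lemma lad_forms (W : Affine K) {N : ℕ} {p q : Fin 2 → F} {s t : F} (hp : ∀ i, s * p i ∈ V ^ N)
    (hq : ∀ i, t * q i ∈ V ^ N) :
    s ^ 2 * t ^ 2 * a0 (W.baseChange F) p q ∈ V ^ (4 * N) ∧
      s ^ 2 * t ^ 2 * a1 (W.baseChange F) p q ∈ V ^ (4 * N) ∧
      s ^ 2 * t ^ 2 * a2 p q ∈ V ^ (4 * N) := by
  have m := fun (i j k l : Fin 2) (c : K) => lad_four (hp i) (hp j) (hq k) (hq l) c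
  have e2 : (W.baseChange F).b₂ = algebraMap K F W.b₂ := WeierstrassCurve.map_b₂ _ _
  have e4 : (W.baseChange F).b₄ = algebraMap K F W.b₄ := WeierstrassCurve.map_b₄ _ _
  have e6 : (W.baseChange F).b₆ = algebraMap K F W.b₆ := WeierstrassCurve.map_b₆ _ _
  have e8 : (W.baseChange F).b₈ = algebraMap K F W.b₈ := WeierstrassCurve.map_b₈ _ _
  refine ⟨?_, ?_, ?_⟩
  · convert sub_mem (sub_mem (sub_mem (sub_mem (m 0 0 0 0 1) (m 0 1 0 1 W.b₄)) (m 0 1 1 1 W.b₆))
      (m 1 1 0 1 W.b₆)) (m 1 1 1 1 W.b₈) using 1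
    rw [a0, e4, e6, e8, map_one]
    ring
  · convert add_mem (add_mem (add_mem (add_mem (add_mem (m 0 0 0 1 2) (m 0 1 0 0 2))
      (m 0 1 0 1 W.b₂)) (m 0 1 1 1 W.b₄)) (m 1 1 0 1 W.b₄)) (m 1 1 1 1 W.b₆) using 1
    rw [a1, e2, e4, e6, map_ofNat]
    ring
  · convert add_mem (sub_mem (m 0 0 1 1 1) (m 0 1 0 1 2)) (m 1 1 0 0 1) using 1
    rw [a2, map_one, map_ofNat]
    ring

lemma lad_step (hASM : S_ASM) [DecidableEq F] (W : Affine K) [W.IsElliptic] {N : ℕ}
    {P Q : EP W F} (hP : HR V N P.xRep) (hQ : HR V N Q.xRep) (hD : HR V 1 (P - Q).xRep) :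
    HR V (4 * N + 1) (P + Q).xRep := by
  obtain ⟨s, hs, hp⟩ := hP
  obtain ⟨t, ht, hq⟩ := hQ
  obtain ⟨e, he, hd⟩ := hD
  obtain ⟨c, hc, h0, h1, h2⟩ := hASM.eqs P Q
  obtain ⟨m0, m1, m2⟩ := lad_forms W hp hq
  have mm : ∀ {x : F}, x ∈ V ^ (4 * N) → ∀ i, x * (e * (P - Q).xRep i) ∈ V ^ (4 * N + 1) :=
    fun hx i => by
      rw [pow_add]
      exact Submodule.mul_mem_mul hx (hd i)
  have hne : (P - Q).xRep 0 ≠ 0 ∨ (P - Q).xRep 1 ≠ 0 := by
    rcases (P - Q) with _ | ⟨x, y, h⟩
    · left; simp [← Point.zero_def]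
    · right; simp
  generalize (P - Q).xRep = d at *
  generalize (P + Q).xRep = r at *
  rcases hne with hd0 | hd1
  · refine ⟨s ^ 2 * t ^ 2 * e * d 0 ^ 2 / c, by positivity, Fin.forall_fin_two.2 ⟨?_, ?_⟩⟩
    · convert mm m0 0 using 1
      field_simp
      linear_combination h0
    · convert sub_mem (mm m1 0) (mm m0 1) using 1
      field_simp
      linear_combination d 0 * h1 - d 1 * h0
  · refine ⟨s ^ 2 * t ^ 2 * e * d 1 ^ 2 / c, by positivity, Fin.forall_fin_two.2 ⟨?_, ?_⟩⟩
    · convert sub_mem (mm m1 1) (mm m2 0) using 1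
      field_simp
      linear_combination d 1 * h1 - d 0 * h2
    · convert mm m2 1 using 1
      field_simp
      linear_combination h2

end

theorem p_LAD (hASM : S_ASM) :
    S_LAD := by
  intro K F _ _ _ _ W _ φ V h1 hb
  have key : ∀ k : ℕ, ∃ N, N + 1 ≤ 2 * 4 ^ k ∧
      ∀ u : Fin 3 → ℤ, (∀ i, |u i| ≤ 2 ^ k) → HR V N (Phi φ u).xRep := by
    intro k
    induction k with
    | zero => exact ⟨1, by norm_num, fun u hu => hb u (by simpa using hu)⟩
    | succ k ih =>
      obtain ⟨N, hN, ih⟩ := ih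
      refine ⟨4 * N + 1, by rw [pow_succ]; omega, fun u hu => ?_⟩
      have hu' : ∀ i, -(2 * 2 ^ k) ≤ u i ∧ u i ≤ 2 * 2 ^ k := fun i => by
        have := abs_le.1 (hu i)
        rwa [pow_succ'] at this
      have e1 : Phi φ u = Phi φ (fun i => (u i + 1) / 2) + Phi φ (fun i => u i / 2) := by
        have : ∀ i, u i = (u i + 1) / 2 + u i / 2 := fun i => by omega
        unfold Phi
        conv_lhs => rw [this 0, this 1, this 2]
        simp only [add_smul]
        abel
      have e2 : Phi φ (fun i => (u i + 1) / 2) - Phi φ (fun i => u i / 2) =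
          Phi φ (fun i => (u i + 1) / 2 - u i / 2) := by
        unfold Phi
        simp only [sub_smul]
        abel
      rw [e1]
      refine lad_step hASM W (ih _ fun i => ?_) (ih _ fun i => ?_) (e2 ▸ hb _ fun i => ?_)
      · have := hu' i
        generalize (2 : ℤ) ^ k = M at *
        rw [abs_le]
        omega
      · have := hu' i
        generalize (2 : ℤ) ^ k = M at *
        rw [abs_le]
        omega
      · rw [abs_le]
        omega
  intro k u hu
  obtain ⟨N, hN, h⟩ := key k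
  obtain ⟨c, hc, h2⟩ := h u hu
  exact ⟨c, hc, fun i => lad_mono h1 (by omega) (h2 i)⟩

end LAD

section RELB

section

open Polynomial Polynomial.Bivariate Finset OnePoint

variable {K F : Type} [Field K] [Field F] [Algebra K F] {f g : F} {d e : ℕ} {H : K[X][Y]}

lemma relb_swap (p : K[X][Y]) (i j : ℕ) : ((swap p).coeff i).coeff j = (p.coeff j).coeff i := by
  induction p using Polynomial.induction_on' with
  | add p q hp hq => simp only [map_add, coeff_add, hp, hq]
  | monomial n a =>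
    induction a using Polynomial.induction_on' with
    | add p q hp hq => simp only [map_add, coeff_add, hp, hq]
    | monomial m r =>
      rw [swap_monomial_monomial]
      simp only [coeff_monomial]
      split_ifs <;> simp_all [coeff_monomial]

lemma relb_deg (h : (swap H).natDegree ≤ d) (j : ℕ) : (H.coeff j).natDegree ≤ d :=
  natDegree_le_iff_coeff_eq_zero.2 fun i hi => by
    rw [← relb_swap, coeff_eq_zero_of_natDegree_lt (h.trans_lt hi), coeff_zero]

lemma relb_ev {A : Type} [CommRing A] [Algebra K A] (x y : A) (p : K[X][Y]) :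
    aevalAeval x y p = p.eval₂ (aeval x : K[X] →ₐ[K] A).toRingHom y := by
  induction p using Polynomial.induction_on' with
  | add p q hp hq => rw [map_add, eval₂_add, hp, hq]
  | monomial n a =>
    rw [eval₂_monomial, ← C_mul_X_pow_eq_monomial, map_mul, map_pow, aevalAeval_C, aevalAeval_Y]
    rfl

lemma relb_bh {A : Type} [CommRing A] [Algebra K A] (x y : A) (h1 : H.natDegree ≤ e)
    (h2 : (swap H).natDegree ≤ d) :
    bh (fun i j => (H.coeff j).coeff i) d e (algebraMap K A) ![x, 1] ![y, 1] =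
      aevalAeval x y H := by
  rw [relb_ev, eval₂_eq_sum_range' _ (Nat.lt_succ_of_le h1), bh, sum_comm]
  refine sum_congr rfl fun j _ => ?_
  change _ = aeval x (H.coeff j) * y ^ j
  rw [aeval_eq_sum_range' (Nat.lt_succ_of_le (relb_deg h2 j)), sum_mul]
  simp [Algebra.smul_def]

lemma relb_ker (hf : Transcendental K f) (hH : Irreducible H) (h0 : aevalAeval f g H = 0)
    {R : K[X][Y]} (hR : aevalAeval f g R = 0) : H ∣ R := by
  have inj : Function.Injective (aeval f : K[X] →ₐ[K] F).toRingHom :=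
    transcendental_iff_injective.1 hf
  have hd : H.natDegree ≠ 0 := fun h => by
    rw [eq_C_of_natDegree_eq_zero h, aevalAeval_C] at h0
    exact hH.ne_zero ((eq_C_of_natDegree_eq_zero h).trans
      (by rw [inj (h0.trans (map_zero _).symm), map_zero]))
  have hp := hH.isPrimitive hd
  let φ : FractionRing K[X] →+* F := IsFractionRing.lift inj
  have key : ∀ p : K[X][Y], eval₂RingHom φ g (p.map (algebraMap K[X] (FractionRing K[X]))) =
      aevalAeval f g p := fun p => by
    rw [coe_eval₂RingHom, eval₂_map, relb_ev]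
    congr 1
    exact RingHom.ext fun a => IsFractionRing.lift_algebraMap inj a
  refine hp.dvd_of_fraction_map_dvd_fraction_map (K := FractionRing K[X]) (by_contra fun h => ?_)
  obtain ⟨a, b, hab⟩ :=
    (hp.irreducible_iff_irreducible_map_fraction_map.1 hH).coprime_iff_not_dvd.2 h
  have := congrArg (eval₂RingHom φ g) hab
  rw [map_add, map_mul, map_mul, key, key, h0, hR, map_one] at this
  simp at this

lemma relb_val {L : Type} [Field L] [Algebra K L] (y : CP K F L) {t : F} {a : K}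
    (h : t - algebraMap K F a ∈ y.O.nonunits) : val y t = (algebraMap K L a : L) := by
  obtain ⟨h1, h2⟩ := y.O.mem_nonunits_iff_exists_mem_maximalIdeal.1 h
  have h3 : t ∈ y.O := by simpa using y.O.add_mem _ _ h1 (y.mem a)
  refine val_eq_coe.2 ⟨h3, ?_⟩
  rw [← y.comm, ← sub_eq_zero, ← map_sub]
  exact (phi_eq_zero y _).2 h2

lemma relb_pt (hRES : S_RES) (hF : HF K F) (hf : Transcendental K f) {ξ η : K}
    (h : ∀ R : K[X][Y], aevalAeval f g R = 0 → aevalAeval ξ η R = 0) :
    ∃ y : CP K F (AlgebraicClosure K),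
      val y f = (algebraMap K (AlgebraicClosure K) ξ : AlgebraicClosure K) ∧
      val y g = (algebraMap K (AlgebraicClosure K) η : AlgebraicClosure K) := by
  let ev : K[X][Y] →+* F := (aevalAeval f g).toRingHom
  let m : Ideal K[X][Y] := RingHom.ker (aevalAeval ξ η).toRingHom
  have hI : m.map ev.rangeRestrict ≠ ⊤ := fun e => by
    have h1 := Ideal.comap_map_of_surjective ev.rangeRestrict ev.rangeRestrict_surjective m
    rw [e, Ideal.comap_top, sup_eq_left.2] at h1
    · exact RingHom.ker_ne_top _ h1.symm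
    · exact fun R hR => h R (congrArg Subtype.val (Ideal.mem_bot.1 hR))
  obtain ⟨O, h1, h2⟩ := Ideal.image_subset_nonunits_valuationSubring _ hI
  have h3 : ∀ R : K[X][Y], aevalAeval ξ η R = 0 → aevalAeval f g R ∈ O.nonunits := fun R hR =>
    h2 ⟨_, Ideal.mem_map_of_mem ev.rangeRestrict hR, rfl⟩
  have h4 : f - algebraMap K F ξ ∈ O.nonunits := by
    have := h3 (C X - C (C ξ)) (by simp)
    rwa [_root_.map_sub, aevalAeval_X, aevalAeval_C, aeval_C] at this
  have h5 : g - algebraMap K F η ∈ O.nonunits := by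
    have := h3 (Y - C (C η)) (by simp)
    rwa [_root_.map_sub, aevalAeval_Y, aevalAeval_C, aeval_C] at this
  obtain ⟨y, rfl⟩ := hRES K F hF O (fun c => h1 ⟨C (C c), by simp [ev]⟩) fun e => by
    rcases O.mem_nonunits_iff_or.1 h4 with h6 | h6
    · exact hf (sub_eq_zero.1 h6 ▸ isAlgebraic_algebraMap ξ)
    · exact h6 (e ▸ ValuationSubring.mem_top _)
  exact ⟨y, relb_val y h4, relb_val y h5⟩

lemma relb_ne (hg : Transcendental K g) (hH : Irreducible H) (h0 : aevalAeval f g H = 0)
    (h1 : H.natDegree ≤ e) (h2 : (swap H).natDegree ≤ d) (η : K) :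
    ∃ i ≤ d, ∑ j ∈ range (e + 1), (H.coeff j).coeff i * η ^ j ≠ 0 := by
  by_contra! h
  have h3 : H.IsRoot (C η) := by
    ext i
    rw [eval_eq_sum_range' (Nat.lt_succ_of_le h1), finsetSum_coeff]
    simp only [← map_pow, coeff_mul_C, coeff_zero]
    rcases le_or_gt i d with hi | hi
    · exact h i hi
    · exact sum_eq_zero fun j _ => by
        rw [coeff_eq_zero_of_natDegree_lt ((relb_deg h2 j).trans_lt hi), zero_mul]
  obtain ⟨u, hu⟩ := dvd_iff_isRoot.2 h3
  rw [hu, map_mul, mul_eq_zero] at h0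
  refine h0.elim (fun h4 => hg ?_)
    (((hH.isUnit_or_isUnit hu).resolve_left (not_isUnit_X_sub_C _)).map _).ne_zero
  have : g = algebraMap K F η := by simpa [sub_eq_zero] using h4
  exact this ▸ isAlgebraic_algebraMap η

lemma relb_G (c : ℕ → ℕ → K) (d e : ℕ) : ∃ G : K[X][Y], G.natDegree ≤ e ∧
    (swap G).natDegree ≤ d ∧ ∀ i ≤ d, ∀ j ≤ e, (G.coeff j).coeff i = c i j := by
  refine ⟨∑ i ∈ range (d + 1), ∑ j ∈ range (e + 1), monomial j (monomial i (c i j)),
    natDegree_sum_le_of_forall_le _ _ fun i _ => natDegree_sum_le_of_forall_le _ _ fun j hj =>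
      (natDegree_monomial_le _).trans (Nat.lt_succ_iff.1 (mem_range.1 hj)), ?_,
    fun i hi j hj => ?_⟩
  · simp only [map_sum, swap_monomial_monomial]
    exact natDegree_sum_le_of_forall_le _ _ fun i hi => natDegree_sum_le_of_forall_le _ _
      fun j _ => (natDegree_monomial_le _).trans (Nat.lt_succ_iff.1 (mem_range.1 hi))
  · simp [coeff_monomial, hi, hj]

theorem relb_main (hRES : S_RES) : S_RELB := by
  rintro K F _ _ _ hF f g hf hg c d e ⟨i, hi, j, hj, hc⟩ h0
  obtain ⟨G, g1, g2, g3⟩ := relb_G c d e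
  have g0 : G ≠ 0 := fun h => hc (by rw [← g3 i hi j hj, h, coeff_zero, coeff_zero])
  have g4 : aevalAeval f g G = 0 := by
    rw [← relb_bh f g g1 g2, ← h0]
    exact sum_congr rfl fun i hi => sum_congr rfl fun j hj => by
      simp only [g3 i (Nat.lt_succ_iff.1 (mem_range.1 hi)) j (Nat.lt_succ_iff.1 (mem_range.1 hj))]
  obtain ⟨H, h1, h2⟩ := (RingHom.ker_isPrime (aevalAeval f g).toRingHom).exists_mem_prime_of_ne_bot
    fun h => g0 (Ideal.mem_bot.1 (h ▸ g4))
  have h3 : aevalAeval f g H = 0 := h1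
  have h4 := relb_ker hf h2.irreducible h3 g4
  have h5 := (natDegree_le_of_dvd h4 g0).trans g1
  have h6 := (natDegree_le_of_dvd (map_dvd swap h4) (by simpa using g0)).trans g2
  refine ⟨fun i j => (H.coeff j).coeff i, (relb_bh f g h5 h6).trans h3,
    fun ξ η h => relb_pt hRES hF hf fun R hR => ?_, relb_ne hg h2.irreducible h3 h5 h6⟩
  obtain ⟨u, rfl⟩ := relb_ker hf h2.irreducible h3 hR
  rw [map_mul, ← relb_bh ξ η h5 h6]
  exact mul_eq_zero_of_left h _

end

open NumberField IsDedekindDomain WeierstrassCurve Inv OnePoint Finset Filter Topology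
open WeierstrassCurve.Affine (Point)
open scoped Classical IntermediateField

theorem p_RELB (hRES : S_RES) :
    S_RELB := relb_main hRES

end RELB

section REL

open NumberField IsDedekindDomain WeierstrassCurve Inv OnePoint Finset Filter Topology
open WeierstrassCurve.Affine (Point)
open scoped Classical IntermediateField

section

variable {K F L : Type} [Field K] [Field F] [Field L] [Algebra K F] [Algebra K L]
  {W : Affine K} [W.IsElliptic]

lemma rel_lift (z : CP K F L) {x y : F} (h : (W.baseChange F).Nonsingular x y) :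
    ∃ (s : F) (p : Fin 2 → z.O), z.O.subtype ∘ p = s • ![x, 1] ∧
      z.φ ∘ p = (evl z (.some x y h)).xRep := by
  by_cases hx : x ∈ z.O
  · refine ⟨1, ![⟨x, hx⟩, 1], ?_, ?_⟩
    · ext i; fin_cases i <;> simp
    · rw [evl_some_of_mem z h hx ((mem_iff_mem z.mem h.1).1 hx)]
      ext i; fin_cases i <;> simp
  · obtain ⟨h1, h2⟩ := val_eq_coe.1 (val_inv_of_notMem z hx)
    have h0 : x ≠ 0 := fun h0 => hx (h0 ▸ z.O.zero_mem)
    refine ⟨x⁻¹, ![1, ⟨x⁻¹, h1⟩], ?_, ?_⟩
    · ext i; fin_cases i <;> simp [h0]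
    · rw [evl_some_of_notMem z h hx]
      ext i; fin_cases i <;> simp [h2]

lemma rel_van (z : CP K F L) {x y x' y' : F} (h : (W.baseChange F).Nonsingular x y)
    (h' : (W.baseChange F).Nonsingular x' y') (c : ℕ → ℕ → K) (d e : ℕ)
    (hc : bh c d e (algebraMap K F) ![x, 1] ![x', 1] = 0) :
    bh c d e (algebraMap K L) (evl z (.some x y h)).xRep (evl z (.some x' y' h')).xRep = 0 := by
  obtain ⟨s, p, h1, h2⟩ := rel_lift z h
  obtain ⟨s', p', h3, h4⟩ := rel_lift z h'
  let ψ : K → z.O := fun a => ⟨algebraMap K F a, z.mem a⟩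
  have h5 : bh c d e ψ p p' = 0 := by
    refine z.O.subtype_injective ?_
    rw [map_bh, h1, h3, bh_smul, map_zero]
    exact mul_eq_zero_of_right _ hc
  have h6 := map_bh p p' c d e ψ z.φ
  rw [h5, map_zero, h2, h4] at h6
  rw [h6]
  congr 1
  exact funext fun a => (z.comm a).symm

end

theorem p_REL (hGK : S_GK) (hLAD : S_LAD) (hRELA : S_RELA) (hRELB : S_RELB) (hNC : S_NC) :
    S_REL := by
  intro K F _ _ _ _ W _ P0 φ hx
  have hfin : {u : Fin 3 → ℤ | ∀ i, |u i| ≤ 1}.Finite :=
    Set.Finite.subset (Set.finite_Icc (fun _ => -1) fun _ => 1) fun u hu =>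
      ⟨fun i => (abs_le.1 (hu i)).1, fun i => (abs_le.1 (hu i)).2⟩
  let V : Submodule K F := Submodule.span K
    (insert 1 (⋃ i, (fun u => (Phi φ u).xRep i) '' {u : Fin 3 → ℤ | ∀ i, |u i| ≤ 1}))
  have hV : FiniteDimensional K V := FiniteDimensional.span_of_finite K
    ((Set.finite_iUnion fun i => hfin.image _).insert 1)
  obtain ⟨C, hC⟩ := hGK K F hx.hF V hV
  have hL := hLAD K F W φ V (Submodule.subset_span (Set.mem_insert _ _)) fun u hu =>
    ⟨1, one_ne_zero, fun i => by
      rw [one_mul, pow_one]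
      exact Submodule.subset_span (Set.mem_insert_of_mem _ (Set.mem_iUnion.2 ⟨i, u, hu, rfl⟩))⟩
  have hN : ∀ u : Fin 3 → ℤ, ¬ (u 0 = 0 ∧ u 1 = 0) →
      ∃ x y h, Phi φ u = .some x y h ∧ Transcendental K x := fun u hu =>
    hNC K F W hx.hK _ fun h => hu (hx.ind _ _ (by
      have h1 : u 2 • φ 2 ∈ (bc W F).range := zsmul_mem (hx.two ▸ ⟨P0, rfl⟩) _
      simpa [Phi] using sub_mem h h1))
  refine ⟨6 * C, fun k k' u u' hu hu' h0 h0' => ?_⟩
  obtain ⟨c, hc, hc0⟩ := hRELA K F V C hC (2 * 4 ^ k) (2 * 4 ^ k') _ _ (by positivity)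
    (by positivity) (hL k u hu) (hL k' u' hu')
  obtain ⟨x, y, h, h1, h2⟩ := hN u h0
  obtain ⟨x', y', h', h1', h2'⟩ := hN u' h0'
  rw [show 3 * C * (2 * 4 ^ k) = 6 * C * 4 ^ k by ring,
    show 3 * C * (2 * 4 ^ k') = 6 * C * 4 ^ k' by ring] at hc hc0
  rw [h1, h1'] at hc0 ⊢
  obtain ⟨c', h3, h4, h5⟩ := hRELB K F hx.hF x x' h2 h2' c _ _ hc hc0
  refine ⟨c', fun L _ _ z => rel_van z h h' c' _ _ h3, fun ξ η h6 => ?_, h5⟩
  obtain ⟨z, h7, h8⟩ := h4 ξ η h6
  exact ⟨z, (xRep_evl_iff z h _).2 h7, (xRep_evl_iff z h' _).2 h8⟩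

end REL

section PF

open NumberField IsDedekindDomain WeierstrassCurve Inv OnePoint Finset Filter Topology
open WeierstrassCurve.Affine (Point)
open scoped Classical IntermediateField

lemma pf_log {K : Type} (s : List K) (f : K → ℝ) (hf : ∀ a, 0 ≤ f a) :
    0 < (s.map fun a => max 1 (f a)).prod ∧
      Real.log (s.map fun a => max 1 (f a)).prod = (s.map fun a => Real.posLog (f a)).sum := by
  induction s with
  | nil => simp
  | cons a s ih =>
    have h1 : 0 < max 1 (f a) := one_pos.trans_le (le_max_left _ _)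
    simp only [List.map_cons, List.prod_cons, List.sum_cons]
    exact ⟨mul_pos h1 ih.1, by
      rw [Real.log_mul h1.ne' ih.1.ne', ih.2, Real.posLog_eq_log_max_one (hf a)]⟩

lemma pf_loc {K : Type} (s : List K) (f : K → ℝ) (hf : ∀ a, 0 ≤ f a) {g η : K} {N : ℝ}
    (hg : 0 < f g) (hN : 1 ≤ N) (h : f g * max 1 (f η) ≤ N * (s.map fun a => max 1 (f a)).prod) :
    Real.log (f g) + Real.posLog (f η) ≤
      Real.log N + (s.map fun a => Real.posLog (f a)).sum := by
  have h1 : 0 < max 1 (f η) := one_pos.trans_le (le_max_left _ _)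
  have h2 := Real.log_le_log (mul_pos hg h1) h
  rwa [Real.log_mul hg.ne' h1.ne', Real.log_mul (one_pos.trans_le hN).ne' (pf_log s f hf).1.ne',
    (pf_log s f hf).2, ← Real.posLog_eq_log_max_one (hf η)] at h2

section

variable {K : Type} [Field K] [NumberField K]

lemma pf_fin (a : K) : (fun v : FinitePlace K => Real.posLog (v a)).HasFiniteSupport := by
  by_cases h : a = 0
  · simp [h, Function.HasFiniteSupport]
  · exact (FinitePlace.hasFiniteMulSupport h).subset fun v hv h1 => hv (by simp [show v a = 1 from h1])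

lemma pf_sum (s : List K) :
    (fun v : FinitePlace K => (s.map fun a => Real.posLog (v a)).sum).HasFiniteSupport ∧
      ∑ᶠ v : FinitePlace K, (s.map fun a => Real.posLog (v a)).sum = (s.map hf).sum ∧
      ∑ w : InfinitePlace K, w.mult * (s.map fun a => Real.posLog (w a)).sum = (s.map hi).sum ∧
      (s.map Height.logHeight₁).sum = (s.map hi).sum + (s.map hf).sum := by
  induction s with
  | nil => simp [Function.HasFiniteSupport]
  | cons a s ih =>
    simp only [List.map_cons, List.sum_cons, mul_add, sum_add_distrib]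
    refine ⟨(pf_fin a).add ih.1, ?_, by rw [ih.2.2.1, hi], ?_⟩
    · rw [finsum_add_distrib (pf_fin a) ih.1, ih.2.1, hf_eq]
    · rw [ih.2.2.2, logHeight₁_eq_hi_add_hf]
      ring

lemma pf_prod {g : K} (hg : g ≠ 0) :
    ∑ w : InfinitePlace K, w.mult * Real.log (w g) + ∑ᶠ v : FinitePlace K, Real.log (v g) = 0 := by
  have h1 := congrArg Real.log (prod_abs_eq_one hg)
  have h2 : ∀ w : InfinitePlace K, w g ^ w.mult ≠ 0 := fun w =>
    pow_ne_zero _ (InfinitePlace.pos_iff.2 hg).ne'
  have h3 : ∀ v : FinitePlace K, 0 < v g := fun v => FinitePlace.pos_iff.2 hg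
  rw [Real.log_mul (prod_ne_zero_iff.2 fun w _ => h2 w) (right_ne_zero_of_mul_eq_one
    (prod_abs_eq_one hg)), Real.log_prod fun w _ => h2 w, Real.log_finprod h3, Real.log_one] at h1
  simpa using h1

end

theorem p_PF :
    S_PF := by
  intro K _ _ g η η' s N hg hN h1 h2
  have f0 : (fun v : FinitePlace K => Real.log (v g)).HasFiniteSupport :=
    (FinitePlace.hasFiniteMulSupport hg).subset fun v hv h1 => hv (by simp [show v g = 1 from h1])
  have f1 := finsum_le_finsum' (f0.add (pf_fin η)) (pf_sum s).1 fun v => by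
    have := pf_loc s v (apply_nonneg v) (FinitePlace.pos_iff.2 hg) le_rfl (η := η) (by
      simpa only [nv_eq, FinitePlace.mk_maximalIdeal, one_mul] using h1 v.maximalIdeal)
    simpa using this
  have f2 := sum_le_sum fun (w : InfinitePlace K) (_ : w ∈ univ) => mul_le_mul_of_nonneg_left
    (pf_loc s w (apply_nonneg w) (InfinitePlace.pos_iff.2 hg) hN (h2 w)) (Nat.cast_nonneg w.mult)
  simp only [mul_add, sum_add_distrib, ← sum_mul, ← Nat.cast_sum, InfinitePlace.sum_mult_eq,
    (pf_sum s).2.2.1] at f2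
  have f3 := finsum_add_distrib f0 (pf_fin η)
  have f4 := (pf_sum s).2.1
  rw [(pf_sum s).2.2.2, hf_eq, hi]
  simp only [Pi.add_apply] at f1
  linarith [pf_prod hg]

end PF

section ROOT

open NumberField IsDedekindDomain WeierstrassCurve Inv OnePoint Finset Filter Topology
open WeierstrassCurve.Affine (Point)
open scoped Classical IntermediateField

lemma root_prod {K : Type} (f : K → ℝ) (l : List K) :
    1 ≤ (l.map fun a => max 1 (f a)).prod ∧ ∀ x ∈ l, f x ≤ (l.map fun a => max 1 (f a)).prod := by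
  induction l with
  | nil => simp
  | cons a l ih =>
    have h1 := le_max_left 1 (f a)
    have h2 := le_max_right 1 (f a)
    simp only [List.map_cons, List.prod_cons, List.mem_cons, forall_eq_or_imp]
    refine ⟨by nlinarith [ih.1], by nlinarith [ih.1], fun x hx => ?_⟩
    nlinarith [ih.1, ih.2 x hx]

/-- Sums of at most `n` terms grow at most by the factor `t`. -/
def root_SB {K : Type} [Field K] (v : AbsoluteValue K ℝ) (n : ℕ) (t : ℝ) : Prop :=
  ∀ m ≤ n, ∀ (f : ℕ → K) (M : ℝ), 0 ≤ M → (∀ i < m, v (f i) ≤ M) → v (∑ i ∈ range m, f i) ≤ t * M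

lemma root_arch {K : Type} [Field K] (v : AbsoluteValue K ℝ) (n : ℕ) : root_SB v n n := by
  intro m hm f M hM h
  refine (v.sum_le _ _).trans ((sum_le_card_nsmul _ _ M fun i hi => h i (mem_range.1 hi)).trans ?_)
  rw [card_range, nsmul_eq_mul]
  gcongr

lemma root_non {K : Type} [Field K] [NumberField K] (v : Pl K) (n : ℕ) :
    root_SB (FinitePlace.mk v).1 n 1 := by
  intro m _ f M hM h
  rw [one_mul]
  change ‖algebraMap K (Kv v) _‖ ≤ M
  rw [map_sum]
  exact IsUltrametricDist.norm_sum_le_of_forall_le_of_nonneg hM fun i hi => h i (mem_range.1 hi)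

lemma root_loc {K : Type} [Field K] (v : AbsoluteValue K ℝ) (c : ℕ → ℕ → K) (d e m : ℕ)
    (ξ η : K) (l : List K) (hl : ∀ i ≤ d, ∀ j ≤ e, c i j ∈ l) (t u : ℝ) (ht : 1 ≤ t) (hu : 1 ≤ u)
    (h1 : root_SB v (d + 1) t) (h2 : root_SB v (e + 1) u) (hm : m ≤ d)
    (h0 : ∑ i ∈ range (m + 1), (∑ j ∈ range (e + 1), c i j * η ^ j) * ξ ^ i = 0) :
    v (∑ j ∈ range (e + 1), c m j * η ^ j) * max 1 (v ξ) ≤
      t * u * ((l ++ List.replicate e η).map fun a => max 1 (v a)).prod := by
  obtain ⟨hB, hc⟩ := root_prod v l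
  simp only [List.map_append, List.prod_append, List.map_replicate, List.prod_replicate]
  set B := (l.map fun a => max 1 (v a)).prod
  set M := u * (B * max 1 (v η) ^ e) with hM
  have hA : ∀ i ≤ d, v (∑ j ∈ range (e + 1), c i j * η ^ j) ≤ M := fun i hi => by
    refine h2 _ le_rfl _ _ (by positivity) fun j hj => ?_
    rw [map_mul, map_pow]
    refine mul_le_mul (hc _ (hl i hi j (by omega))) ?_ (by positivity) (by positivity)
    exact (pow_le_pow_left₀ (v.nonneg _) (le_max_right 1 _) j).trans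
      (pow_le_pow_right₀ (le_max_left 1 _) (by omega))
  have hM0 : 0 ≤ M := by positivity
  rw [mul_assoc t, ← hM]
  rcases le_total (v ξ) 1 with h | h
  · rw [max_eq_left h, mul_one]
    exact (hA m hm).trans (le_mul_of_one_le_left hM0 ht)
  rw [max_eq_right h]
  rcases m with _ | m
  · simp only [zero_add, range_one, sum_singleton, pow_zero, mul_one] at h0
    rw [h0, map_zero, zero_mul]
    positivity
  rw [sum_range_succ, add_eq_zero_iff_eq_neg] at h0
  have h3 := h1 (m + 1) (by omega) (fun i => (∑ j ∈ range (e + 1), c i j * η ^ j) * ξ ^ i)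
    (M * v ξ ^ m) (by positivity) fun i hi => by
      rw [map_mul, map_pow]
      exact mul_le_mul (hA i (by omega)) (pow_le_pow_right₀ h (by omega)) (by positivity) hM0
  rw [h0, v.map_neg, map_mul, map_pow, pow_succ', ← mul_assoc, ← mul_assoc] at h3
  exact le_of_mul_le_mul_right h3 (by positivity)

theorem p_ROOT (hPF : S_PF) :
    S_ROOT := by
  intro K _ _ c d e
  let l : List K := (List.range (d + 1)).flatMap fun i => (List.range (e + 1)).map (c i)
  have hl : ∀ i ≤ d, ∀ j ≤ e, c i j ∈ l := fun i hi j hj =>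
    List.mem_flatMap.2 ⟨i, List.mem_range.2 (by omega),
      List.mem_map.2 ⟨j, List.mem_range.2 (by omega), rfl⟩⟩
  refine ⟨(l.map Height.logHeight₁).sum +
    Module.finrank ℚ K * Real.log (((d + 1 : ℕ) : ℝ) * ((e + 1 : ℕ) : ℝ)), fun ξ η hex hb => ?_⟩
  obtain ⟨i0, hi0, hne⟩ := hex
  let p : ℕ → Prop := fun i => ∑ j ∈ range (e + 1), c i j * η ^ j ≠ 0
  have hm : Nat.findGreatest p d ≤ d := Nat.findGreatest_le d
  have hp : p (Nat.findGreatest p d) := Nat.findGreatest_spec hi0 hne
  have h0 : ∑ i ∈ range (Nat.findGreatest p d + 1),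
      (∑ j ∈ range (e + 1), c i j * η ^ j) * ξ ^ i = 0 := by
    refine Eq.trans ?_ hb
    rw [bh, sum_subset (range_subset_range.2 (Nat.succ_le_succ hm))]
    · refine sum_congr rfl fun i _ => ?_
      rw [sum_mul]
      exact sum_congr rfl fun j _ => by simp; ring
    · intro i hi hi'
      have := Nat.findGreatest_is_greatest (P := p) (n := d) (k := i)
        (by simpa using hi') (by simpa [Nat.lt_succ_iff] using hi)
      rw [not_not.1 this, zero_mul]
  have hd : (1 : ℝ) ≤ ((d + 1 : ℕ) : ℝ) := by exact_mod_cast Nat.succ_le_succ (Nat.zero_le d)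
  have he : (1 : ℝ) ≤ ((e + 1 : ℕ) : ℝ) := by exact_mod_cast Nat.succ_le_succ (Nat.zero_le e)
  have key := hPF K _ ξ ξ (l ++ List.replicate e η) (((d + 1 : ℕ) : ℝ) * ((e + 1 : ℕ) : ℝ)) hp
    (one_le_mul_of_one_le_of_one_le hd he)
    (fun v => (root_loc (FinitePlace.mk v).1 c d e _ ξ η l hl 1 1 le_rfl le_rfl (root_non v _)
      (root_non v _) hm h0).trans_eq (by rw [one_mul, one_mul]; rfl))
    (fun w => root_loc w.1 c d e _ ξ η l hl _ _ hd he (root_arch _ _) (root_arch _ _) hm h0)
  rw [logHeight₁_eq_hi_add_hf ξ]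
  simp only [List.map_append, List.sum_append, List.map_replicate, List.sum_replicate,
    nsmul_eq_mul] at key
  linarith

end ROOT

end Pool.Agent.P.MP_ab3ecb_nt.R1
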