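import Pool.Agent.P.MP_ab3ecb_nt.R1.Iface

/-! Steps LOC LIOU DIR DM. -/

set_option autoImplicit false
set_option linter.unusedSectionVars false
set_option linter.unusedVariables false
set_option linter.ambiguousOpen false

namespace Pool.Agent.P.MP_ab3ecb_nt.R1

section LOC

open NumberField IsDedekindDomain WeierstrassCurve Inv OnePoint Finset Filter Topology
open WeierstrassCurve.Affine (Point)
open scoped Classical IntermediateField

/-- `a` and `b` have norm at most `M` and are at distance at most `δ M`. -/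
def loc_R {L : Type} [NormedField L] (δ M : ℝ) (a b : L) : Prop :=
  ‖a‖ ≤ M ∧ ‖b‖ ≤ M ∧ ‖a - b‖ ≤ δ * M

section

variable {L : Type} [NormedField L] [IsUltrametricDist L] {δ M M' : ℝ} {a b a' b' : L}

lemma loc_mul (hδ : 0 ≤ δ) (h : loc_R δ M a b) (h' : loc_R δ M' a' b') :
    loc_R δ (M * M') (a * a') (b * b') := by
  obtain ⟨h1, h2, h3⟩ := h
  obtain ⟨h4, h5, h6⟩ := h'
  have hM : 0 ≤ M := (norm_nonneg _).trans h1
  have hM' : 0 ≤ M' := (norm_nonneg _).trans h4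
  refine ⟨by rw [norm_mul]; gcongr, by rw [norm_mul]; gcongr, ?_⟩
  rw [show a * a' - b * b' = a * (a' - b') + (a - b) * b' by ring]
  refine (IsUltrametricDist.norm_add_le_max _ _).trans (max_le ?_ ?_)
  · rw [norm_mul, show δ * (M * M') = M * (δ * M') by ring]
    gcongr
  · rw [norm_mul, show δ * (M * M') = (δ * M) * M' by ring]
    gcongr

lemma loc_pow (hδ : 0 ≤ δ) (h : loc_R δ M a b) (n : ℕ) : loc_R δ (M ^ n) (a ^ n) (b ^ n) := by
  induction n with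
  | zero => simp [loc_R, hδ]
  | succ n ih => simpa only [pow_succ] using loc_mul hδ ih h

lemma loc_pt (hδ : 0 ≤ δ) (s p : Fin 2 → L) (hs : s ≠ 0)
    (h : ‖s 0 * p 1 - s 1 * p 0‖ ≤ δ * (‖s‖ * ‖p‖)) :
    ∃ μ : L, ∀ k, loc_R δ ‖p‖ (p k) ((μ • s) k) := by
  obtain ⟨i, hi⟩ : ∃ i, ‖s‖ ≤ ‖s i‖ := by
    rcases le_total ‖s 0‖ ‖s 1‖ with h1 | h1
    · exact ⟨1, (pi_norm_le_iff_of_nonneg (norm_nonneg _)).2 fun k => by fin_cases k <;> simp [h1]⟩
    · exact ⟨0, (pi_norm_le_iff_of_nonneg (norm_nonneg _)).2 fun k => by fin_cases k <;> simp [h1]⟩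
  have h0 : 0 < ‖s i‖ := (norm_pos_iff.2 hs).trans_le hi
  have h1 : s i ≠ 0 := norm_pos_iff.1 h0
  refine ⟨p i / s i, fun k => ⟨norm_le_pi_norm p k, ?_, ?_⟩⟩
  · rw [Pi.smul_apply, smul_eq_mul, norm_mul, norm_div, div_mul_eq_mul_div, div_le_iff₀ h0]
    exact mul_le_mul (norm_le_pi_norm p i) ((norm_le_pi_norm s k).trans hi) (norm_nonneg _)
      (norm_nonneg _)
  · have h2 : p k - ((p i / s i) • s) k = (s i * p k - s k * p i) / s i := by
      rw [Pi.smul_apply, smul_eq_mul]; field_simp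
    have h3 : ‖s i * p k - s k * p i‖ ≤ δ * (‖s‖ * ‖p‖) := by
      have h4 : 0 ≤ δ * (‖s‖ * ‖p‖) := by positivity
      fin_cases i <;> fin_cases k
      · simpa using h4
      · exact h
      · rw [← norm_neg, neg_sub]; exact h
      · simpa using h4
    rw [h2, norm_div, div_le_iff₀ h0]
    refine h3.trans ?_
    rw [mul_assoc, mul_comm ‖s‖]
    gcongr

end

theorem p_LOC :
    S_LOC := by
  intro L _ _ c d e B δ s s' p p' hc hδ hs hs' h h' h0
  obtain ⟨μ, hμ⟩ := loc_pt hδ s p hs h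
  obtain ⟨μ', hμ'⟩ := loc_pt hδ s' p' hs' h'
  have hB : 0 ≤ B := (norm_nonneg _).trans (hc 0 (Nat.zero_le _) 0 (Nat.zero_le _))
  have h1 : bh c d e id (μ • s) (μ' • s') = 0 := by rw [bh_smul, h0, mul_zero]
  rw [← sub_zero (bh c d e id p p'), ← h1]
  simp only [bh, ← sum_sub_distrib]
  have h2 : 0 ≤ δ * B * ‖p‖ ^ d * ‖p'‖ ^ e := by positivity
  refine IsUltrametricDist.norm_sum_le_of_forall_le_of_nonneg h2 fun i hi => ?_
  refine IsUltrametricDist.norm_sum_le_of_forall_le_of_nonneg h2 fun j hj => ?_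
  have hi' : i ≤ d := Nat.lt_succ_iff.1 (mem_range.1 hi)
  have hj' : j ≤ e := Nat.lt_succ_iff.1 (mem_range.1 hj)
  have h3 : loc_R δ B (c i j) (c i j) := ⟨hc i hi' j hj', hc i hi' j hj', by simp; positivity⟩
  have h4 := (loc_mul hδ (loc_mul hδ h3 (loc_mul hδ (loc_pow hδ (hμ 0) i)
    (loc_pow hδ (hμ 1) (d - i)))) (loc_mul hδ (loc_pow hδ (hμ' 0) j)
    (loc_pow hδ (hμ' 1) (e - j)))).2.2
  rw [← pow_add, ← pow_add, Nat.add_sub_cancel' hi', Nat.add_sub_cancel' hj'] at h4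
  exact h4.trans (le_of_eq (by ring))

end LOC

section LIOU

open NumberField IsDedekindDomain WeierstrassCurve Inv OnePoint Finset Filter Topology
open WeierstrassCurve.Affine (Point)
open scoped Classical IntermediateField

lemma liou_prod {K : Type} (m : K → ℝ) (l : List K) :
    1 ≤ (l.map fun a => max 1 (m a)).prod ∧ ∀ a ∈ l, m a ≤ (l.map fun a => max 1 (m a)).prod := by
  induction l with
  | nil => simp
  | cons b l ih =>
    simp only [List.map_cons, List.prod_cons, List.mem_cons, forall_eq_or_imp]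
    have h1 := le_max_left 1 (m b)
    have h2 := le_max_right 1 (m b)
    refine ⟨by nlinarith [ih.1], by nlinarith [ih.1], fun a ha => ?_⟩
    nlinarith [ih.1, ih.2 a ha]

lemma liou_norm {L : Type} [NormedField L] (a : L) : ‖(![a, 1] : Fin 2 → L)‖ ≤ max 1 ‖a‖ := by
  refine (pi_norm_le_iff_of_nonneg (zero_le_one.trans (le_max_left _ _))).2 fun i => ?_
  fin_cases i <;> simp

lemma liou_mono {L : Type} [NormedField L] (p : Fin 2 → L) {i d : ℕ} (h : i ≤ d) :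
    ‖p 0 ^ i * p 1 ^ (d - i)‖ ≤ ‖p‖ ^ d := by
  rw [norm_mul, norm_pow, norm_pow, ← Nat.add_sub_cancel' h, pow_add, Nat.add_sub_cancel' h]
  gcongr <;> exact norm_le_pi_norm p _

lemma liou_term {L : Type} [NormedField L] {x : L} {B : ℝ} (hx : ‖x‖ ≤ B) (p q : Fin 2 → L)
    {i d j e : ℕ} (hi : i ∈ range (d + 1)) (hj : j ∈ range (e + 1)) :
    ‖x * (p 0 ^ i * p 1 ^ (d - i)) * (q 0 ^ j * q 1 ^ (e - j))‖ ≤ B * ‖p‖ ^ d * ‖q‖ ^ e := by
  have h0 := (norm_nonneg x).trans hx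
  rw [norm_mul, norm_mul x]
  gcongr
  · exact liou_mono p (Nat.lt_succ_iff.1 (mem_range.1 hi))
  · exact liou_mono q (Nat.lt_succ_iff.1 (mem_range.1 hj))

lemma liou_map {K L : Type} [Field K] [Field L] (ψ : K →+* L) (c : ℕ → ℕ → K) (d e : ℕ)
    (ξ ξ' : K) : ψ (bh c d e id ![ξ, 1] ![ξ', 1]) =
      bh (fun i j => ψ (c i j)) d e id ![ψ ξ, 1] ![ψ ξ', 1] := by
  simp [bh, map_sum]

lemma liou_clo {L : Type} [NormedField L] {c r : ℝ} {s p : Fin 2 → L} (hc : 0 ≤ c) (hr : 0 < r)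
    (h : Clo c r s p) : ‖s 0 * p 1 - s 1 * p 0‖ ≤ √(c / r) * (‖s‖ * ‖p‖) := by
  refine le_of_pow_le_pow_left₀ two_ne_zero (by positivity) ?_
  rw [mul_pow, Real.sq_sqrt (by positivity), div_mul_eq_mul_div, le_div_iff₀ hr]
  exact h

lemma liou_fin (hLOC : S_LOC) {L : Type} [NormedField L] [IsUltrametricDist L] (c : ℕ → ℕ → L)
    (d e : ℕ) {B κ r : ℝ} (hB : ∀ i ≤ d, ∀ j ≤ e, ‖c i j‖ ≤ B) (hκ : 1 ≤ κ) (ξ ξ' : L)
    (h : κ < r → ∃ s s' : Fin 2 → L, s ≠ 0 ∧ s' ≠ 0 ∧ bh c d e id s s' = 0 ∧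
      Clo κ r s ![ξ, 1] ∧ Clo κ r s' ![ξ', 1]) :
    ‖bh c d e id ![ξ, 1] ![ξ', 1]‖ ^ 2 * max 1 r ≤
      κ * (B * max 1 ‖ξ‖ ^ d * max 1 ‖ξ'‖ ^ e) ^ 2 := by
  have hB0 : 0 ≤ B := (norm_nonneg _).trans (hB 0 d.zero_le 0 e.zero_le)
  have hH : B * ‖(![ξ, 1] : Fin 2 → L)‖ ^ d * ‖(![ξ', 1] : Fin 2 → L)‖ ^ e ≤
      B * max 1 ‖ξ‖ ^ d * max 1 ‖ξ'‖ ^ e := by
    gcongr <;> exact liou_norm _
  by_cases hr : κ < r
  · obtain ⟨s, s', h1, h2, h3, h4, h5⟩ := h hr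
    have r0 : 0 < r := by linarith
    have k0 : 0 ≤ κ := by linarith
    have h6 := hLOC L c d e B _ s s' _ _ hB (Real.sqrt_nonneg _) h1 h2 (liou_clo k0 r0 h4)
      (liou_clo k0 r0 h5) h3
    rw [mul_assoc, mul_assoc, ← mul_assoc B] at h6
    have h7 := pow_le_pow_left₀ (norm_nonneg _)
      (h6.trans (mul_le_mul_of_nonneg_left hH (Real.sqrt_nonneg _))) 2
    rw [mul_pow, Real.sq_sqrt (by positivity), div_mul_eq_mul_div, le_div_iff₀ r0] at h7
    rwa [max_eq_right (by linarith)]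
  · rw [mul_comm]
    refine mul_le_mul (max_le hκ (not_lt.1 hr)) (pow_le_pow_left₀ (norm_nonneg _)
      (le_trans ?_ hH) 2) (by positivity) (by linarith)
    refine IsUltrametricDist.norm_sum_le_of_forall_le_of_nonneg (by positivity) fun i hi =>
      IsUltrametricDist.norm_sum_le_of_forall_le_of_nonneg (by positivity) fun j hj => ?_
    exact liou_term (hB i (Nat.lt_succ_iff.1 (mem_range.1 hi)) j
      (Nat.lt_succ_iff.1 (mem_range.1 hj))) _ _ hi hj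

lemma liou_inf {L : Type} [NormedField L] (c : ℕ → ℕ → L) (d e : ℕ) {B : ℝ}
    (hB : ∀ i ≤ d, ∀ j ≤ e, ‖c i j‖ ≤ B) (ξ ξ' : L) :
    ‖bh c d e id ![ξ, 1] ![ξ', 1]‖ ≤
      ((d + 1) * (e + 1) : ℝ) * (B * max 1 ‖ξ‖ ^ d * max 1 ‖ξ'‖ ^ e) := by
  have hB0 : 0 ≤ B := (norm_nonneg _).trans (hB 0 d.zero_le 0 e.zero_le)
  have hH : B * ‖(![ξ, 1] : Fin 2 → L)‖ ^ d * ‖(![ξ', 1] : Fin 2 → L)‖ ^ e ≤
      B * max 1 ‖ξ‖ ^ d * max 1 ‖ξ'‖ ^ e := by
    gcongr <;> exact liou_norm _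
  refine (norm_sum_le_of_le _ fun i hi => norm_sum_le_of_le _ fun j hj =>
    (liou_term (hB i (Nat.lt_succ_iff.1 (mem_range.1 hi)) j
      (Nat.lt_succ_iff.1 (mem_range.1 hj))) _ _ hi hj).trans hH).trans_eq ?_
  simp only [sum_const, card_range, nsmul_eq_mul]
  push_cast
  ring

theorem p_LIOU (hLOC : S_LOC) (hPF : S_PF) :
    S_LIOU := by
  intro K _ _ W c d e
  obtain ⟨l, hl⟩ : ∃ l : List K, ∀ i ≤ d, ∀ j ≤ e, c i j ∈ l :=
    ⟨(range (d + 1) ×ˢ range (e + 1)).toList.map fun p => c p.1 p.2, fun i hi j hj =>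
      List.mem_map.2 ⟨(i, j), by simp; omega, rfl⟩⟩
  refine ⟨([W.b₂, W.b₄, W.b₆, W.b₈].map Height.logHeight₁).sum + 2 * (l.map Height.logHeight₁).sum
    + Module.finrank ℚ K * Real.log (((d + 1) * (e + 1) : ℝ) ^ 2), fun ξ ξ' η t ht hg h => ?_⟩
  have hN : (1 : ℝ) ≤ (d + 1) * (e + 1) := by
    nlinarith [Nat.cast_nonneg (α := ℝ) d, Nat.cast_nonneg (α := ℝ) e]
  have hp : ∀ m : K → ℝ, (([t] ++ ([W.b₂, W.b₄, W.b₆, W.b₈] ++ l ++ l ++
      List.replicate (2 * d) ξ ++ List.replicate (2 * e) ξ')).map fun a => max 1 (m a)).prod =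
      max 1 (m t) * ((([W.b₂, W.b₄, W.b₆, W.b₈].map fun a => max 1 (m a)).prod) *
        ((l.map fun a => max 1 (m a)).prod * max 1 (m ξ) ^ d * max 1 (m ξ') ^ e) ^ 2) :=
    fun m => by
      simp only [List.map_append, List.prod_append, List.map_replicate, List.prod_replicate,
        List.map_singleton, List.prod_singleton]
      ring
  have key := hPF K (t * bh c d e id ![ξ, 1] ![ξ', 1] ^ 2) η 0 ([t] ++ ([W.b₂, W.b₄, W.b₆, W.b₈] ++
    l ++ l ++ List.replicate (2 * d) ξ ++ List.replicate (2 * e) ξ'))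
    (((d + 1) * (e + 1) : ℝ) ^ 2) (mul_ne_zero ht (pow_ne_zero 2 hg)) (one_le_pow₀ hN)
    (fun v => ?_) fun w => ?_
  · have h0 : hi (0 : K) = 0 := by simp [hi]
    simp only [List.map_append, List.sum_append, List.map_replicate, List.sum_replicate,
      nsmul_eq_mul, h0, List.map_singleton, List.sum_singleton] at key
    push_cast at key
    linarith
  · have h1 := fun r => liou_fin hLOC (fun i j => algebraMap K (Kv v) (c i j)) d e (r := r)
      (fun i hi j hj => (liou_prod (nv v) l).2 _ (hl i hi j hj))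
      (cb_ge (W.baseChange (Kv v))).1 (algebraMap K (Kv v) ξ) (algebraMap K (Kv v) ξ')
    have b0 : cb (W.baseChange (Kv v)) =
        ([W.b₂, W.b₄, W.b₆, W.b₈].map fun a => max 1 (nv v a)).prod := by
      have b2 : b₂ (W.baseChange (Kv v)) = _ := map_b₂ W (algebraMap K (Kv v))
      have b4 : b₄ (W.baseChange (Kv v)) = _ := map_b₄ W (algebraMap K (Kv v))
      have b6 : b₆ (W.baseChange (Kv v)) = _ := map_b₆ W (algebraMap K (Kv v))
      have b8 : b₈ (W.baseChange (Kv v)) = _ := map_b₈ W (algebraMap K (Kv v))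
      simp [cb, nv, mul_assoc, b2, b4, b6, b8]
    rw [hp, nv, map_mul, norm_mul, map_pow, norm_pow, liou_map, ← b0]
    by_cases h2 : 1 < nv v t * max 1 (nv v η)
    · rw [mul_assoc]
      exact mul_le_mul (le_max_right _ _) (h1 _ (h v h2)) (by positivity) (by positivity)
    · have h3 := h1 0 fun h3 => absurd (cb_ge (W.baseChange (Kv v))).1 (by linarith)
      rw [max_eq_left zero_le_one, mul_one] at h3
      rw [mul_right_comm]
      exact mul_le_mul ((not_lt.1 h2).trans (le_max_left _ _)) h3 (by positivity) (by positivity)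
  · have h1 := liou_inf (fun i j => w.embedding (c i j)) d e (B := (l.map fun a => max 1 (w a)).prod)
      (fun i hi j hj => by
        rw [InfinitePlace.norm_embedding_eq]; exact (liou_prod w l).2 _ (hl i hi j hj))
      (w.embedding ξ) (w.embedding ξ')
    rw [← liou_map, InfinitePlace.norm_embedding_eq, InfinitePlace.norm_embedding_eq,
      InfinitePlace.norm_embedding_eq] at h1
    have h2 := pow_le_pow_left₀ (apply_nonneg w _) h1 2
    rw [hp, map_zero, max_eq_left zero_le_one, mul_one, map_mul, map_pow, mul_left_comm]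
    refine mul_le_mul (le_max_right _ _) (h2.trans ?_) (by positivity) (by positivity)
    rw [mul_pow]
    exact mul_le_mul_of_nonneg_left (le_mul_of_one_le_left (sq_nonneg _) (liou_prod w _).1)
      (sq_nonneg _)

end LIOU

section DIR

open NumberField IsDedekindDomain WeierstrassCurve Inv OnePoint Finset Filter Topology
open WeierstrassCurve.Affine (Point)
open scoped Classical IntermediateField

theorem dir_box {X : Type} (S : Finset X) (v : X → ℤ) {n k N : ℤ} (hn : 0 < n) (hk : 0 ≤ k)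
    (h : ∀ x ∈ S, 0 ≤ v x ∧ v x * k < N * n) (hN : 0 ≤ N) (hc : N < S.card) :
    ∃ x ∈ S, ∃ y ∈ S, x ≠ y ∧ |v x - v y| * k ≤ n := by
  obtain ⟨x, hx, y, hy, hne, e⟩ := Finset.exists_ne_map_eq_of_card_lt_of_maps_to
    (s := S) (t := Finset.Ico 0 N) (f := fun x => v x * k / n) (by simp; omega) fun x hx =>
      Finset.mem_coe.2 (Finset.mem_Ico.2 ⟨Int.ediv_nonneg (mul_nonneg (h x hx).1 hk) hn.le,
        Int.ediv_lt_of_lt_mul hn (h x hx).2⟩)
  refine ⟨x, hx, y, hy, hne, ?_⟩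
  have h1 := Int.emod_add_mul_ediv (v x * k) n
  have h2 := Int.emod_add_mul_ediv (v y * k) n
  have h3 := Int.emod_nonneg (v x * k) hn.ne'
  have h4 := Int.emod_nonneg (v y * k) hn.ne'
  have h5 := Int.emod_lt_of_pos (v x * k) hn
  have h6 := Int.emod_lt_of_pos (v y * k) hn
  rw [← abs_of_nonneg hk, ← abs_mul, sub_mul, abs_le]
  rw [show v x * k / n = v y * k / n from e] at h1
  constructor <;> linarith

theorem dir_two {A n k N : ℤ} (hA : 0 < A) (v : ℤ × ℤ → ℤ) (hn : 0 < n) (hk : 0 ≤ k)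
    (h : ∀ x : ℤ × ℤ, 0 ≤ x.1 → x.1 ≤ A → 0 ≤ x.2 → x.2 ≤ A → 0 ≤ v x ∧ v x * k < N * n)
    (hN : 0 ≤ N) (hc : N < (A + 1) ^ 2) : ∃ x y : ℤ × ℤ, ¬ (x.1 - y.1 = 0 ∧ x.2 - y.2 = 0) ∧
      |x.1 - y.1| ≤ A ∧ |x.2 - y.2| ≤ A ∧ |v x - v y| * k ≤ n := by
  obtain ⟨x, hx, y, hy, hne, e⟩ := dir_box (Finset.Icc 0 A ×ˢ Finset.Icc 0 A) v hn hk
    (fun x hx => by
      simp only [Finset.mem_product, Finset.mem_Icc] at hx
      exact h x hx.1.1 hx.1.2 hx.2.1 hx.2.2) hN (by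
      simp only [Finset.card_product, Int.card_Icc, sub_zero, Nat.cast_mul]
      rwa [Int.toNat_of_nonneg (by omega), ← sq])
  simp only [Finset.mem_product, Finset.mem_Icc] at hx hy
  exact ⟨x, y, fun h => hne (Prod.ext (by omega) (by omega)), abs_le.2 (by omega),
    abs_le.2 (by omega), e⟩

theorem p_DIR :
    S_DIR := by
  refine ⟨fun n A r s hn hA => ?_, fun n A r hn hA => ?_, fun T r s hT => ?_⟩
  · obtain ⟨x, y, h1, h2, h3, h4⟩ := dir_two (N := A ^ 2) hA (fun x => (x.1 * r + x.2 * s) % n) hn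
      (sq_nonneg A) (fun x _ _ _ _ => ⟨Int.emod_nonneg _ hn.ne', by
        rw [mul_comm (A ^ 2)]
        exact mul_lt_mul_of_pos_right (Int.emod_lt_of_pos _ hn) (by positivity)⟩) (sq_nonneg A)
      (by nlinarith)
    refine ⟨_, _, _, h1, h2, h3, by rwa [abs_sub_comm] at h4, ?_⟩
    rw [Int.emod_def, Int.emod_def]
    exact ⟨(x.1 * r + x.2 * s) / n - (y.1 * r + y.2 * s) / n, by ring⟩
  · obtain ⟨x, hx, y, hy, hne, e⟩ := dir_box (N := A) (Finset.Icc 0 A) (fun x => x * r % n) hn hA.le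
      (fun x _ => ⟨Int.emod_nonneg _ hn.ne', by
        rw [mul_comm A]
        exact mul_lt_mul_of_pos_right (Int.emod_lt_of_pos _ hn) hA⟩) hA.le (by simp)
    rw [Finset.mem_Icc] at hx hy
    refine ⟨x - y, _, sub_ne_zero.2 hne, abs_le.2 (by omega), by rwa [abs_sub_comm] at e, ?_⟩
    rw [Int.emod_def, Int.emod_def]
    exact ⟨x * r / n - y * r / n, by ring⟩
  · rcases (le_max_of_le_left (abs_nonneg r) : 0 ≤ max |r| |s|).eq_or_lt with h0 | h0
    · have hr : r = 0 := abs_nonpos_iff.1 (h0 ▸ le_max_left _ _)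
      exact ⟨1, 0, by simp, by simp; omega, by simp; omega, by simp [hr]⟩
    have hr := abs_le.1 (le_max_left |r| |s|)
    have hs := abs_le.1 (le_max_right |r| |s|)
    generalize max |r| |s| = M at *
    obtain ⟨x, y, h1, h2, h3, h4⟩ := dir_two (N := T ^ 2 + 1) (n := 2 * M) hT
      (fun x => x.1 * r + x.2 * s - T * (min r 0 + min s 0)) (by omega) hT.le
      (fun x a b c d => by
        have e : ∀ u t : ℤ, 0 ≤ u → u ≤ T → -M ≤ t → t ≤ M →
            0 ≤ u * t - T * min t 0 ∧ u * t - T * min t 0 ≤ T * M := fun u t _ _ _ _ => by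
          rcases le_total t 0 with h | h
          · rw [min_eq_left h]
            constructor <;> nlinarith
          · rw [min_eq_right h]
            constructor <;> nlinarith
        have e1 := e _ r a b hr.1 hr.2
        have e2 := e _ s c d hs.1 hs.2
        constructor <;> nlinarith) (by positivity) (by nlinarith)
    exact ⟨_, _, h1, h2, h3, le_of_eq_of_le (by congr 2; ring) h4⟩

end DIR

section DM

open NumberField IsDedekindDomain WeierstrassCurve Inv OnePoint Finset Filter Topology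
open WeierstrassCurve.Affine (Point)
open scoped Classical IntermediateField

lemma dm_num {q C0 B1 e T x m z h1 h3 : ℝ} (hq : 0 < q) (he : 0 ≤ e) (hT : T = 16 * e + 1)
    (hx : 1 ≤ x) (hm : 0 ≤ m) (hz : 0 ≤ z) (h1' : m * T ≤ 2 * x) (h2 : z ≤ m + 1)
    (ha : q * x ^ 2 - C0 ≤ h1) (hb : h3 ≤ q * z ^ 2 + C0) (hc : h1 ≤ e * h3 + B1) :
    x ≤ 2 * (C0 + 2 * e * q + e * C0 + B1) / q := by
  have hT1 : 1 ≤ T := by linarith
  have a1 : z ^ 2 ≤ 2 * m ^ 2 + 2 := by nlinarith [sq_nonneg (m - 1)]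
  have a2 : (m * T) ^ 2 ≤ (2 * x) ^ 2 := pow_le_pow_left₀ (by positivity) h1' 2
  have a3 : 16 * e ≤ T ^ 2 := by nlinarith
  have a4 : 16 * e * m ^ 2 ≤ 4 * x ^ 2 := by
    have := mul_le_mul_of_nonneg_right a3 (sq_nonneg m)
    nlinarith
  have a5 : e * z ^ 2 ≤ x ^ 2 / 2 + 2 * e := by
    have := mul_le_mul_of_nonneg_left a1 he
    nlinarith
  have a6 : e * h3 ≤ e * (q * z ^ 2 + C0) := mul_le_mul_of_nonneg_left hb he
  have a7 : q * (e * z ^ 2) ≤ q * (x ^ 2 / 2 + 2 * e) := mul_le_mul_of_nonneg_left a5 hq.le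
  have a8 : q * x ≤ q * x ^ 2 := mul_le_mul_of_nonneg_left (by nlinarith) hq.le
  rw [le_div_iff₀ hq]
  nlinarith

lemma dm_pow (n : ℕ) : ∃ k : ℕ, (n : ℤ) ≤ 2 ^ k :=
  ⟨n, by exact_mod_cast (Nat.lt_two_pow_self (n := n)).le⟩

section

variable {K F : Type} [Field K] [NumberField K] [Field F] [Algebra K F]
  {W : Affine K} [W.IsElliptic] {P0 : EP W K} {φ : Fin 3 → EP W F}

lemma dm_sign {R : EP W (AlgebraicClosure K)} {w : ℤ}
    (h : R.xRep = (bc W (AlgebraicClosure K) (w • P0)).xRep) :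
    ∃ w1 : ℤ, |w1| = |w| ∧ R = w1 • bc W (AlgebraicClosure K) P0 := by
  rcases Point.eq_or_eq_neg_of_xRep_eq_xRep h with h1 | h1
  · exact ⟨w, rfl, by rw [h1, map_zsmul]⟩
  · exact ⟨-w, abs_neg w, by rw [h1, map_zsmul, neg_smul]⟩

lemma dm_rel (hROOT : S_ROOT) (hP : NT P0) {c : ℕ → ℕ → K} {d e : ℕ} {f g : EP W F}
    (h : RelP c d e f g) : ∃ R : ℝ, ∀ (y : CP K F (AlgebraicClosure K)) (a b : ℤ), a ≠ 0 → b ≠ 0 →
      evl y f = a • bc W (AlgebraicClosure K) P0 → evl y g = b • bc W (AlgebraicClosure K) P0 →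
        ht (a • P0) ≤ e * ht (b • P0) + R := by
  obtain ⟨R, hR⟩ := hROOT K c d e
  refine ⟨R, fun y a b ha hb h1 h2 => ?_⟩
  have h3 := h.van (AlgebraicClosure K) y
  rw [h1, h2, ← map_zsmul, ← map_zsmul, xRep_bc, xRep_bc] at h3
  have h4 := map_bh (a • P0).xRep (b • P0).xRep c d e id (algebraMap K (AlgebraicClosure K))
  rw [Function.comp_id, h3, map_eq_zero_iff _ (algebraMap K (AlgebraicClosure K)).injective,
    hP.xRep ha, hP.xRep hb] at h4
  rw [ht_of_xRep (hP.xRep ha), ht_of_xRep (hP.xRep hb)]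
  exact hR _ _ (h.ne _) h4

lemma dm_one (hHT : S_HT) (hEV : S_EV) (hREL : S_REL) (hROOT : S_ROOT) (hDIR : S_DIR)
    (hc : Ctx P0 φ) (u u' : Fin 3 → ℤ) (hd : u 0 * u' 1 - u 1 * u' 0 ≠ 0) :
    ∃ B : ℝ, ∀ w w' : ℤ, Geo P0 (Phi φ u) (Phi φ u') w w' → |w'| ≤ |w| → ((|w| : ℤ) : ℝ) ≤ B := by
  obtain ⟨q, C0, hq, hH⟩ := hHT K W P0 hc.nt
  obtain ⟨C, hC⟩ := hREL K F W P0 φ hc
  obtain ⟨k, hk⟩ := dm_pow (∑ i, ((u i).natAbs + (u' i).natAbs))
  have hk1 : ∀ i, |u i| ≤ 2 ^ k ∧ |u' i| ≤ 2 ^ k := fun i => by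
    have h1 : (u i).natAbs + (u' i).natAbs ≤ ∑ i, ((u i).natAbs + (u' i).natAbs) :=
      single_le_sum (f := fun i => (u i).natAbs + (u' i).natAbs) (fun _ _ => Nat.zero_le _)
        (mem_univ i)
    have h2 : (((u i).natAbs + (u' i).natAbs : ℕ) : ℤ) ≤ 2 ^ k := (Int.ofNat_le.2 h1).trans hk
    push_cast at h2
    exact ⟨by linarith [abs_nonneg (u' i)], by linarith [abs_nonneg (u i)]⟩
  set e : ℕ := C * 4 ^ k with he
  obtain ⟨k2, hk2⟩ := dm_pow (2 * (16 * e + 1) * 2 ^ k + 1)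
  have hu : ¬ (u 0 = 0 ∧ u 1 = 0) := fun h => hd (by rw [h.1, h.2]; ring)
  have H : ∀ v : Fin 3 → ℤ, ∃ R : ℝ, (∀ i, |v i| ≤ 2 ^ k2) → ¬ (v 0 = 0 ∧ v 1 = 0) →
      ∀ (y : CP K F (AlgebraicClosure K)) (a b : ℤ), a ≠ 0 → b ≠ 0 →
      evl y (Phi φ u) = a • bc W (AlgebraicClosure K) P0 →
      evl y (Phi φ v) = b • bc W (AlgebraicClosure K) P0 →
        ht (a • P0) ≤ e * ht (b • P0) + R := fun v => by
    by_cases h : (∀ i, |v i| ≤ 2 ^ k2) ∧ ¬ (v 0 = 0 ∧ v 1 = 0)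
    · obtain ⟨c, hcr⟩ := hC k k2 u v (fun i => (hk1 i).1) h.1 hu h.2
      obtain ⟨R, hR⟩ := dm_rel hROOT hc.nt hcr
      exact ⟨R, fun _ _ => hR⟩
    · exact ⟨0, fun h1 h2 => absurd ⟨h1, h2⟩ h⟩
  choose R hR using H
  obtain ⟨B1, hB1⟩ := ((Set.finite_Icc (fun _ : Fin 3 => -(2 : ℤ) ^ k2)
    (fun _ => 2 ^ k2)).image R).bddAbove
  refine ⟨max 0 (2 * (C0 + 2 * e * q + e * C0 + B1) / q), ?_⟩
  rintro w w' ⟨y, h1, h2⟩ hw
  obtain ⟨w1, e1, h1⟩ := dm_sign h1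
  obtain ⟨w2, e2, h2⟩ := dm_sign h2
  rw [← e1, ← e2] at hw
  rw [← e1]
  by_cases h0 : w1 = 0
  · simp [h0]
  refine le_max_of_le_right ?_
  obtain ⟨a, b, hab, ha, hb, hm⟩ := hDIR.2.2 (16 * e + 1) w1 w2 (by positivity)
  rw [max_eq_left hw] at hm
  obtain ⟨ε, hε, hε0⟩ : ∃ ε : ℤ, |ε| ≤ 1 ∧ a * w1 + b * w2 + ε ≠ 0 := by
    by_cases h : a * w1 + b * w2 = 0
    · exact ⟨1, by simp, by simp [h]⟩
    · exact ⟨0, by simp, by simpa using h⟩
  set v : Fin 3 → ℤ := ![a * u 0 + b * u' 0, a * u 1 + b * u' 1, a * u 2 + b * u' 2 + ε] with hv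
  have hb1 : ∀ i, |a * u i + b * u' i| ≤ 2 * (16 * e + 1) * 2 ^ k := fun i => by
    have g1 : |a| * |u i| ≤ (16 * e + 1) * 2 ^ k :=
      mul_le_mul ha (hk1 i).1 (abs_nonneg _) (by positivity)
    have g2 : |b| * |u' i| ≤ (16 * e + 1) * 2 ^ k :=
      mul_le_mul hb (hk1 i).2 (abs_nonneg _) (by positivity)
    have g3 := abs_add_le (a * u i) (b * u' i)
    rw [abs_mul, abs_mul] at g3
    linarith
  push_cast at hk2
  have hv1 : ∀ i, |v i| ≤ 2 ^ k2 := fun i => by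
    fin_cases i
    · have := hb1 0
      simp only [hv, Fin.zero_eta, Matrix.cons_val_zero]
      linarith
    · have := hb1 1
      simp only [hv, Fin.mk_one, Matrix.cons_val_one, Matrix.cons_val_zero]
      linarith
    · have := hb1 2
      have g := abs_add_le (a * u 2 + b * u' 2) ε
      simp only [hv, Fin.reduceFinMk, Matrix.cons_val]
      linarith
  have hv2 : ¬ (v 0 = 0 ∧ v 1 = 0) := by
    rintro ⟨g1, g2⟩
    simp only [hv, Matrix.cons_val_zero, Matrix.cons_val_one] at g1 g2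
    refine hab ⟨mul_right_cancel₀ hd ?_, mul_right_cancel₀ hd ?_⟩
    · linear_combination u' 1 * g1 - u' 0 * g2
    · linear_combination u 0 * g2 - u 1 * g1
  have h3 : evl y (Phi φ v) = (a * w1 + b * w2 + ε) • bc W (AlgebraicClosure K) P0 := by
    have g : evl y (φ 2) = bc W (AlgebraicClosure K) P0 := by rw [hc.two, evl_bc]
    rw [hEV.phi, g] at h1 h2 ⊢
    simp only [hv, Matrix.cons_val_zero, Matrix.cons_val_one, Matrix.cons_val]
    rw [add_smul (a * w1 + b * w2), add_smul (a * w1), mul_smul a w1, mul_smul b w2, ← h1, ← h2]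
    module
  have h4 := hR v hv1 hv2 y w1 _ h0 hε0 h1 h3
  have h5 : R v ≤ B1 := hB1 ⟨v, ⟨fun i => (abs_le.1 (hv1 i)).1, fun i => (abs_le.1 (hv1 i)).2⟩, rfl⟩
  have h6 := (abs_le.1 (hH w1)).1
  have h7 := (abs_le.1 (hH (a * w1 + b * w2 + ε))).2
  have h8 : |a * w1 + b * w2 + ε| ≤ |a * w1 + b * w2| + 1 :=
    (abs_add_le _ _).trans (by linarith)
  refine dm_num (m := ((|a * w1 + b * w2| : ℤ) : ℝ)) (z := ((|a * w1 + b * w2 + ε| : ℤ) : ℝ))
    (h1 := ht (w1 • P0)) (h3 := ht ((a * w1 + b * w2 + ε) • P0)) hq (Nat.cast_nonneg e) rfl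
    (by exact_mod_cast Int.one_le_abs h0) (by exact_mod_cast abs_nonneg _)
    (by exact_mod_cast abs_nonneg _) (by exact_mod_cast hm) (by exact_mod_cast h8) ?_ ?_
    (by linarith)
  · rw [Int.cast_abs, sq_abs]; linarith
  · rw [Int.cast_abs, sq_abs]; linarith

end

theorem p_DM (hHT : S_HT) (hEV : S_EV) (hREL : S_REL) (hROOT : S_ROOT) (hDIR : S_DIR) :
    S_DM := by
  intro K F _ _ _ _ W _ P0 φ hc u u' hd
  obtain ⟨B, hB⟩ := dm_one hHT hEV hREL hROOT hDIR hc u u' hd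
  obtain ⟨B', hB'⟩ := dm_one hHT hEV hREL hROOT hDIR hc u' u fun h => hd (by linear_combination -h)
  obtain ⟨N, hN⟩ := exists_int_gt (max B B')
  refine (Set.finite_Icc ((-N, -N) : ℤ × ℤ) (N, N)).subset ?_
  rintro ⟨w, w'⟩ h
  have key : |w| ≤ N ∧ |w'| ≤ N := by
    rcases le_total |w'| |w| with h1 | h1
    · have h2 : |w| ≤ N := by
        exact_mod_cast ((hB w w' h h1).trans (le_max_left B B')).trans hN.le
      exact ⟨h2, h1.trans h2⟩
    · obtain ⟨y, g1, g2⟩ := h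
      have h2 : |w'| ≤ N := by
        exact_mod_cast ((hB' w' w ⟨y, g2, g1⟩ h1).trans (le_max_right B B')).trans hN.le
      exact ⟨h1.trans h2, h2⟩
  exact ⟨⟨(abs_le.1 key.1).1, (abs_le.1 key.2).1⟩, (abs_le.1 key.1).2, (abs_le.1 key.2).2⟩

end DM

end Pool.Agent.P.MP_ab3ecb_nt.R1
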