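import Pool.Agent.P.MP_ab3ecb_nt.R1.Iface

/-! Steps KEYA KEY AML TOPA TOPF. -/

set_option autoImplicit false
set_option linter.unusedSectionVars false
set_option linter.unusedVariables false
set_option linter.ambiguousOpen false

namespace Pool.Agent.P.MP_ab3ecb_nt.R1

section KEYA

open NumberField IsDedekindDomain WeierstrassCurve Inv OnePoint Finset Filter Topology
open WeierstrassCurve.Affine (Point)
open scoped Classical IntermediateField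

lemma keya_xRep {K L : Type} [Field K] [Field L] [Algebra K L] [DecidableEq K] [DecidableEq L]
    {W : Affine K} {Q : EP W K} {ξ : K} (h : Q.xRep = ![ξ, 1]) :
    (bc W L Q).xRep = ![algebraMap K L ξ, 1] := by
  rw [xRep_bc, h]
  ext i
  fin_cases i <;> simp

lemma keya_clo (hNEAR : S_NEAR) {K L : Type} [Field K] [NormedField L]
    [IsUltrametricDist L] [Algebra K L] {W : Affine K} [W.IsElliptic]
    {P0 : EP W K} (u : Fin 3 → ℤ) (a b : EP W L)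
    {n r s w : ℤ} {ρ : ℝ} (hρ : cb (W.baseChange L) < ρ) (hn : Near ρ (bc W L (n • P0)))
    (h0 : Near ρ (a - bc W L (r • P0))) (h1 : Near ρ (b - bc W L (s • P0)))
    (hd : n ∣ u 0 * r + u 1 * s + u 2 + w) :
    Clo (cb (W.baseChange L)) ρ (u 0 • a + u 1 • b + u 2 • bc W L P0).xRep
      (bc W L (w • P0)).xRep := by
  obtain ⟨m, hm⟩ := hd
  have e : u 0 • a + u 1 • b + u 2 • bc W L P0 + bc W L (w • P0) = u 0 • (a - bc W L (r • P0)) +
      u 1 • (b - bc W L (s • P0)) + m • bc W L (n • P0) := by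
    simp only [map_zsmul]
    have e1 : m • n • bc W L P0 = (u 0 * r + u 1 * s + u 2 + w) • bc W L P0 := by
      rw [hm, ← mul_zsmul, mul_comm]
    rw [e1]
    module
  have hT : Near ρ (u 0 • a + u 1 • b + u 2 • bc W L P0 + bc W L (w • P0)) := by
    rw [e]
    exact (hNEAR.grp _ hρ).add_mem ((hNEAR.grp _ hρ).add_mem
      ((hNEAR.grp _ hρ).zsmul_mem h0 _) ((hNEAR.grp _ hρ).zsmul_mem h1 _))
      ((hNEAR.grp _ hρ).zsmul_mem hn _)
  have := (hNEAR L (W.baseChange L)).2 ρ _ (bc W L (w • P0)) ((cb_ge _).1.trans hρ.le) hT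
  rwa [add_sub_cancel_right] at this

lemma keya_van (hEV : S_EV) {K F L : Type} [Field K] [Field F] [Field L] [Algebra K F]
    [Algebra K L] {W : Affine K} [W.IsElliptic] {P0 : EP W K} {φ : Fin 3 → EP W F}
    (h2 : φ 2 = bc W F P0) {u u' : Fin 3 → ℤ} {c : ℕ → ℕ → K} {d e : ℕ}
    (hR : RelP c d e (Phi φ u) (Phi φ u')) {a b : EP W L} (h : On (φ 0) (φ 1) a b) :
    bh c d e (algebraMap K L) (u 0 • a + u 1 • b + u 2 • bc W L P0).xRep
      (u' 0 • a + u' 1 • b + u' 2 • bc W L P0).xRep = 0 := by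
  obtain ⟨M, _, _, j, y, k0, k1⟩ := h
  have k : ∀ u : Fin 3 → ℤ, (evl y (Phi φ u)).xRep =
      j ∘ (u 0 • a + u 1 • b + u 2 • bc W L P0).xRep := fun u => by
    rw [hEV.phi, h2, evl_bc, k0, k1, ← xRep_map, map_add, map_add, map_zsmul, map_zsmul,
      map_zsmul, Point.map_baseChange]
  have h3 := hR.van M y
  rw [k, k, ← funext j.commutes] at h3
  exact (map_eq_zero j.toRingHom).1 ((map_bh _ _ c d e _ j.toRingHom).trans h3)

theorem p_KEYA (hEV : S_EV) (hNEAR : S_NEAR) (hLIOU : S_LIOU) :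
    S_KEYA := by
  intro K F _ _ _ _ W _ P0 φ hc u u' c d e hR
  obtain ⟨C, hC⟩ := hLIOU K W c d e
  refine ⟨C, fun S n t a b r s w w' hn ht hw hw' hS hx h0 h1 hd hd' => ?_⟩
  have k := hc.nt.xRep hw
  have k' := hc.nt.xRep hw'
  have kn := hc.nt.xRep (n := (n : ℤ)) (Int.natCast_ne_zero.2 hn.ne')
  by_cases hb : bh c d e id ![(w • P0).xRep 0, 1] ![(w' • P0).xRep 0, 1] = 0
  · obtain ⟨y, hy, hy'⟩ := hR.pt _ _ hb
    exact Or.inr ⟨y, hy.trans (keya_xRep k).symm, hy'.trans (keya_xRep k').symm⟩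
  refine Or.inl ?_
  rw [ht_of_xRep k, ht_of_xRep k']
  refine hC _ _ _ t ht hb fun v hv0 hv => ?_
  have hm : v ∈ S := by_contra fun h => (hS v h).not_gt hv0
  refine ⟨_, _, Point.xRep_ne_zero _, Point.xRep_ne_zero _,
    keya_van hEV hc.two hR (hx ⟨v, hm⟩), ?_, ?_⟩
  all_goals
    have hN : Near (nv v (((n : ℤ) • P0).xRep 0)) (bc W (Kv v) ((n : ℤ) • P0)) := by
      unfold Near
      rw [keya_xRep kn]
      simp [nv]
  · rw [← keya_xRep k]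
    exact keya_clo hNEAR u _ _ hv hN (h0 ⟨v, hm⟩ hv) (h1 ⟨v, hm⟩ hv) hd
  · rw [← keya_xRep k']
    exact keya_clo hNEAR u' _ _ hv hN (h0 ⟨v, hm⟩ hv) (h1 ⟨v, hm⟩ hv) hd'

end KEYA

section KEY

open NumberField IsDedekindDomain WeierstrassCurve Inv OnePoint Finset Filter Topology
open WeierstrassCurve.Affine (Point)
open scoped Classical IntermediateField

lemma key_w (w0 : ℤ) : ∃ t w : ℤ, |t| ≤ 1 ∧ w ≠ 0 ∧ t + w = w0 ∧ w ^ 2 ≤ w0 ^ 2 + 1 := by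
  by_cases h : w0 = 0
  · exact ⟨-1, 1, by simp, one_ne_zero, by simp [h], by simp [h]⟩
  · exact ⟨0, w0, by simp, h, by simp, by simp⟩

lemma key_box (A : ℤ) : {u : Fin 3 → ℤ | ∀ i, |u i| ≤ A}.Finite :=
  (Set.Finite.pi' fun _ => Set.finite_Icc (-A) A).subset fun _ h i => abs_le.1 (h i)

lemma key_real {c q C C0 C' B x n a a' b b' h h' : ℝ} (hc : 0 < c) (hq : 0 < q) (hC : 0 ≤ C)
    (hx : 0 < x) (hm : 8 * C * q ≤ c * x) (h1 : a ^ 2 * x ^ 4 ≤ n ^ 2)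
    (h2 : a' ^ 2 * x ^ 3 ≤ n ^ 2) (h3 : b ^ 2 ≤ a ^ 2 + 1) (h4 : b' ^ 2 ≤ a' ^ 2 + 1)
    (h5 : h ≤ q * b ^ 2 + C0) (h6 : h' ≤ q * b' ^ 2 + C0) (hn : 1 ≤ n)
    (hJ : C' + B + 2 * (C * x ^ 3 + C * x ^ 2) * (q + C0) < c / 2 * n)
    (h7 : c * n ^ 2 - C' ≤ 2 * (C * x ^ 3) * h + 2 * (C * x ^ 2) * h' + B) : False := by
  have e1 : 2 * (C * x ^ 3) * h ≤ 2 * (C * x ^ 3) * (q * a ^ 2 + (q + C0)) :=
    mul_le_mul_of_nonneg_left (by nlinarith) (by positivity)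
  have e2 : 2 * (C * x ^ 2) * h' ≤ 2 * (C * x ^ 2) * (q * a' ^ 2 + (q + C0)) :=
    mul_le_mul_of_nonneg_left (by nlinarith) (by positivity)
  have e3 : 2 * (C * x ^ 3) * (q * a ^ 2) ≤ c / 4 * n ^ 2 := by
    have : 8 * C * q * (a ^ 2 * x ^ 3) ≤ c * x * (a ^ 2 * x ^ 3) :=
      mul_le_mul_of_nonneg_right hm (by positivity)
    nlinarith
  have e4 : 2 * (C * x ^ 2) * (q * a' ^ 2) ≤ c / 4 * n ^ 2 := by
    have : 8 * C * q * (a' ^ 2 * x ^ 2) ≤ c * x * (a' ^ 2 * x ^ 2) :=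
      mul_le_mul_of_nonneg_right hm (by positivity)
    nlinarith
  have e5 : c / 2 * n ≤ c / 2 * n ^ 2 := mul_le_mul_of_nonneg_left (by nlinarith) (by positivity)
  nlinarith

lemma key_sq {w A n : ℤ} (hA : 0 < A) (h : |w| * A ≤ n) : (w : ℝ) ^ 2 * (A : ℝ) ^ 2 ≤ (n : ℝ) ^ 2 := by
  have h1 : (|w| * A) ^ 2 ≤ n ^ 2 := pow_le_pow_left₀ (by positivity) h 2
  rw [mul_pow, sq_abs] at h1
  exact_mod_cast h1

lemma key_dir (hDIR : S_DIR) {n A A' : ℤ} (hn : 0 < n) (hA : 0 < A) (hA' : 0 < A') (r s : ℤ) :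
    ∃ (u u' : Fin 3 → ℤ) (w w' w0 w0' : ℤ), (∀ i, |u i| ≤ A) ∧ (∀ i, |u' i| ≤ A') ∧
      u 0 * u' 1 - u 1 * u' 0 ≠ 0 ∧ w ≠ 0 ∧ w' ≠ 0 ∧ w ^ 2 ≤ w0 ^ 2 + 1 ∧ w' ^ 2 ≤ w0' ^ 2 + 1 ∧
      |w0| * A ^ 2 ≤ n ∧ |w0'| * A' ≤ n ∧ n ∣ u 0 * r + u 1 * s + u 2 + w ∧
      n ∣ u' 0 * r + u' 1 * s + u' 2 + w' := by
  obtain ⟨a, b, w0, h0, ha, hb, hw, hd⟩ := hDIR.1 n A r s hn hA
  obtain ⟨t, w, ht, hw0, htw, hw2⟩ := key_w w0
  have hu : ∀ i, |(![a, b, t] : Fin 3 → ℤ) i| ≤ A := fun i => by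
    fin_cases i
    exacts [ha, hb, ht.trans hA]
  have hd1 : n ∣ a * r + b * s + t + w := by rwa [add_assoc, htw]
  by_cases h : b = 0
  · obtain ⟨a', w0', h0', ha', hw', hd'⟩ := hDIR.2.1 n A' s hn hA'
    obtain ⟨t', w', ht', hw0', htw', hw2'⟩ := key_w w0'
    refine ⟨![a, b, t], ![0, a', t'], w, w', w0, w0', hu, fun i => ?_, ?_, hw0, hw0', hw2, hw2',
      hw, hw', hd1, ?_⟩
    · fin_cases i
      exacts [abs_zero.trans_le hA'.le, ha', ht'.trans hA']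
    · change a * a' - b * 0 ≠ 0
      rw [mul_zero, sub_zero]
      exact mul_ne_zero (fun h1 => h0 ⟨h1, h⟩) h0'
    · change n ∣ 0 * r + a' * s + t' + w'
      rwa [zero_mul, zero_add, add_assoc, htw']
  · obtain ⟨a', w0', h0', ha', hw', hd'⟩ := hDIR.2.1 n A' r hn hA'
    obtain ⟨t', w', ht', hw0', htw', hw2'⟩ := key_w w0'
    refine ⟨![a, b, t], ![a', 0, t'], w, w', w0, w0', hu, fun i => ?_, ?_, hw0, hw0', hw2, hw2',
      hw, hw', hd1, ?_⟩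
    · fin_cases i
      exacts [ha', abs_zero.trans_le hA'.le, ht'.trans hA']
    · change a * 0 - b * a' ≠ 0
      rw [mul_zero, zero_sub, neg_ne_zero]
      exact mul_ne_zero h h0'
    · change n ∣ a' * r + 0 * s + t' + w'
      rwa [zero_mul, add_zero, add_assoc, htw']

theorem p_KEY (hHT : S_HT) (hFIN : S_FIN) (hREL : S_REL) (hDIR : S_DIR) (hDM : S_DM) (hKEYA : S_KEYA) :
    S_KEY := by
  intro K F _ _ _ _ W _ P0 φ hc S hS
  obtain ⟨q, C0, hq, hH⟩ := hHT K W P0 hc.nt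
  obtain ⟨c, hc0, hF⟩ := hFIN K W P0 hc.nt S hS
  obtain ⟨C, hR⟩ := hREL K F W P0 φ hc
  obtain ⟨m, hm⟩ := pow_unbounded_of_one_lt (8 * C * q / c) (by norm_num : (1 : ℝ) < 4)
  rw [div_lt_iff₀ hc0] at hm
  set U : Set ((Fin 3 → ℤ) × (Fin 3 → ℤ)) := {t | (∀ i, |t.1 i| ≤ 2 ^ (2 * m)) ∧
    (∀ i, |t.2 i| ≤ 2 ^ (3 * m)) ∧ t.1 0 * t.2 1 - t.1 1 * t.2 0 ≠ 0} with hU
  have hUf : U.Finite := ((key_box _).prod (key_box _)).subset fun t h => ⟨h.1, h.2.1⟩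
  have h1 : ∀ t ∈ U, ∃ cc : ℕ → ℕ → K,
      RelP cc (C * 4 ^ (3 * m)) (C * 4 ^ (2 * m)) (Phi φ t.1) (Phi φ t.2) := fun t h =>
    hR _ _ _ _ h.1 h.2.1 (fun h0 => h.2.2 (by simp [h0.1, h0.2]))
      fun h0 => h.2.2 (by simp [h0.1, h0.2])
  choose! cc hcc using h1
  choose! C1 hC1 using fun t (h : t ∈ U) => hKEYA K F W P0 φ hc t.1 t.2 _ _ _ (hcc t h)
  obtain ⟨B, hB⟩ := (hUf.image C1).bddAbove
  refine ⟨⋃ t ∈ U, (fun w : ℤ × ℤ => ((![t.1 0, t.1 1, t.1 2 + w.1], ![t.2 0, t.2 1, t.2 2 + w.2]) :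
      (Fin 3 → ℤ) × (Fin 3 → ℤ))) '' {w : ℤ × ℤ | Geo P0 (Phi φ t.1) (Phi φ t.2) w.1 w.2},
    hUf.biUnion fun t h => (hDM K F W P0 φ hc t.1 t.2 h.2.2).image _, ?_, fun N hN => ?_⟩
  · intro t ht
    obtain ⟨t', h', w, -, rfl⟩ := Set.mem_iUnion₂.1 ht
    exact h'.2.2
  obtain ⟨C', t0, ht0, hF'⟩ := hF N hN
  obtain ⟨J, hJ⟩ := exists_nat_gt
    ((C' + (B + Height.logHeight₁ t0) + 2 * (C * (4 ^ m) ^ 3 + C * (4 ^ m) ^ 2) * (q + C0)) / (c / 2))
  rw [div_lt_iff₀ (half_pos hc0)] at hJ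
  obtain ⟨n, hn, hNn, hn1, hn2⟩ := hF' J
  have hn0 : 0 < n := (Nat.zero_le J).trans_lt hn
  refine ⟨n, hn0, hNn, fun x y r s hx hr hs => ?_⟩
  obtain ⟨u, u', w, w', w0, w0', hu, hu', hdet, hw, hw', hw2, hw2', hb, hb', hd, hd'⟩ :=
    key_dir hDIR (A := 2 ^ (2 * m)) (A' := 2 ^ (3 * m)) (Int.natCast_pos.2 hn0) (by positivity)
      (by positivity) r s
  have hmem : (u, u') ∈ U := ⟨hu, hu', hdet⟩
  rcases hC1 (u, u') hmem S n t0 x y r s w w' hn0 ht0 hw hw' hn2 hx hr hs hd hd' with h | h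
  · exfalso
    have e1 : ((2 : ℝ) ^ (2 * m)) = 4 ^ m := by rw [pow_mul]; norm_num
    have e2 : ((2 : ℝ) ^ (3 * m)) ^ 2 = (4 ^ m) ^ 3 := by
      rw [← e1, ← pow_mul, ← pow_mul]; congr 1; ring
    have k1 := key_sq (by positivity) hb
    have k2 := key_sq (by positivity) hb'
    push_cast at k1 k2 h
    rw [e1, ← pow_mul] at k1
    rw [e2] at k2
    have hJn : (J : ℝ) < n := by exact_mod_cast hn
    refine key_real (C := C) (C0 := C0) (C' := C') (B := B + Height.logHeight₁ t0) (x := 4 ^ m)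
      (n := n) (a := w0)
      (a' := w0') (b := w) (b' := w') (h := ht (w • P0)) (h' := ht (w' • P0)) hc0 hq
      (Nat.cast_nonneg C) (by positivity) (by linarith) k1 k2 (by exact_mod_cast hw2)
      (by exact_mod_cast hw2') (by linarith [(abs_le.1 (hH w)).2])
      (by linarith [(abs_le.1 (hH w')).2]) (by exact_mod_cast hn0) (by nlinarith) ?_
    rw [mul_comm 3 m, mul_comm 2 m, pow_mul, pow_mul] at h
    linarith [hB (Set.mem_image_of_mem C1 hmem)]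
  · refine ⟨_, Set.mem_iUnion₂.2 ⟨(u, u'), hmem, (w, w'), h, rfl⟩, ?_, ?_⟩
    · change _ ∣ u 0 * r + u 1 * s + (u 2 + w)
      rwa [← add_assoc]
    · change _ ∣ u' 0 * r + u' 1 * s + (u' 2 + w')
      rwa [← add_assoc]

end KEY

section AML

open NumberField IsDedekindDomain WeierstrassCurve Inv OnePoint Finset Filter Topology
open WeierstrassCurve.Affine (Point)
open scoped Classical IntermediateField

lemma aml_res (U : Ultrafilter ℤ) {n : ℕ} (hn : 0 < n) :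
    ∃ r : ℤ, ∀ᶠ m in (U : Filter ℤ), (n : ℤ) ∣ m - r := by
  have h : ∀ᶠ m in (U : Filter ℤ), ∃ r ∈ Set.Ico (0 : ℤ) n, (n : ℤ) ∣ m - r :=
    Eventually.of_forall fun m => ⟨m % n, ⟨Int.emod_nonneg _ (by omega),
      Int.emod_lt_of_pos _ (by omega)⟩, Int.dvd_self_sub_emod⟩
  obtain ⟨r, -, hr⟩ := (Ultrafilter.eventually_exists_mem_iff (Set.finite_Ico _ _)).1 h
  exact ⟨r, hr⟩

lemma aml_cng (hNEAR : S_NEAR) {K : Type} [Field K] [NumberField K] {W : Affine K} [W.IsElliptic]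
    {P0 : EP W K} (hP : NT P0) {S0 : Set (Pl K)} {S : ∀ v : S0, EP W (Kv v.1)}
    {U : Ultrafilter ℤ}
    (hU : App P0 S U) {n : ℕ} (hn : 0 < n) {r : ℤ}
    (hr : ∀ᶠ m in (U : Filter ℤ), (n : ℤ) ∣ m - r) : Cng P0 n S r := by
  intro v hv
  obtain ⟨m, h1, k, h2⟩ := ((hU v (nv v.1 (((n : ℤ) • P0).xRep 0))).and hr).exists
  have h3 : bc W (Kv v.1) ((n : ℤ) • P0) ∈ hNEAR.grp (W.baseChange (Kv v.1)) hv := by
    change Near _ _
    have h4 := congrFun (hP.xRep (n := n) (by omega)) 1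
    simp only [Matrix.cons_val_one, Matrix.cons_val_zero] at h4
    rw [Near, xRep_bc, Function.comp_apply, Function.comp_apply, h4, map_one, norm_one, mul_one]
    exact le_rfl
  have h5 : S v - bc W (Kv v.1) (r • P0) =
      S v - bc W (Kv v.1) (m • P0) + k • bc W (Kv v.1) ((n : ℤ) • P0) := by
    rw [← map_zsmul, smul_smul, mul_comm k, ← h2, sub_smul, map_sub]
    abel
  rw [h5]
  exact (hNEAR.grp (W.baseChange (Kv v.1)) hv).add_mem h1 (AddSubgroup.zsmul_mem _ h3 k)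

lemma aml_one {α : Type} {S : Set α} (hS : S.Finite) (Rel : α → ℕ → Prop)
    (hm : ∀ t N N', N ∣ N' → Rel t N' → Rel t N) (h : ∀ N, 0 < N → ∃ t ∈ S, Rel t N) :
    ∃ t ∈ S, ∀ N, 0 < N → Rel t N := by
  by_contra h1
  push Not at h1
  choose! f hf1 hf2 using h1
  obtain ⟨t, ht, h2⟩ := h (∏ t ∈ hS.toFinset, f t)
    (prod_pos fun t ht => hf1 t (hS.mem_toFinset.1 ht))
  exact hf2 t ht (hm t _ _ (dvd_prod_of_mem f (hS.mem_toFinset.2 ht)) h2)

lemma aml_lim {U : Ultrafilter ℤ} {D a : ℤ} (hD : D ≠ 0)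
    (h : ∀ N : ℕ, 0 < N → ∀ᶠ m in (U : Filter ℤ), (N : ℤ) ∣ D * m + a) :
    ∃ b : ℤ, ∀ N : ℤ, N ≠ 0 → ∀ᶠ m in (U : Filter ℤ), N ∣ m - b := by
  obtain ⟨m, hm⟩ := (h D.natAbs (Int.natAbs_pos.2 hD)).exists
  obtain ⟨c, rfl⟩ := (dvd_add_right (dvd_mul_right D m)).1 (Int.natAbs_dvd.1 hm)
  refine ⟨-c, fun N hN => (h (D * N).natAbs (Int.natAbs_pos.2 (mul_ne_zero hD hN))).mono
    fun m hm => ?_⟩
  rw [Int.natAbs_dvd, ← mul_add, mul_dvd_mul_iff_left hD] at hm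
  rwa [sub_neg_eq_add]

lemma aml_grp {A : Type} [AddCommGroup A] (G : AddSubgroup A) {U : Ultrafilter ℤ} {s p : A}
    {b : ℤ} (hb : ∀ N : ℤ, N ≠ 0 → ∀ᶠ m in (U : Filter ℤ), N ∣ m - b)
    (h : ∀ᶠ m in (U : Filter ℤ), s - m • p ∈ G) : s - b • p ∈ G := by
  obtain ⟨m1, h1⟩ := h.exists
  by_cases h0 : m1 = b
  · exact h0 ▸ h1
  have h2 : m1 - b ≠ 0 := sub_ne_zero.2 h0
  obtain ⟨m2, h3, h4⟩ := (h.and (hb (2 * (m1 - b)) (mul_ne_zero two_ne_zero h2))).exists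
  have h5 : m1 - m2 ≠ 0 := fun h5 => by
    rw [← sub_eq_zero.1 h5] at h4
    have h6 : (2 : ℤ) ∣ 1 := (mul_dvd_mul_iff_right h2).1 (by rwa [one_mul])
    omega
  obtain ⟨m3, h6, k, h7⟩ := (h.and (hb _ h5)).exists
  have h8 : s - b • p = s - m3 • p + k • (s - m2 • p - (s - m1 • p)) := by
    have : s - m2 • p - (s - m1 • p) = (m1 - m2) • p := by rw [sub_smul]; abel
    rw [this, smul_smul, mul_comm k, ← h7, sub_smul]
    abel
  rw [h8]
  exact G.add_mem h6 (G.zsmul_mem (G.sub_mem h3 h1) k)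

theorem p_AML (hNEAR : S_NEAR) (hKEY : S_KEY) :
    S_AML := by
  intro K F _ _ _ _ W _ P0 φ hC S0 hS0 x y U U' hx hU hU'
  obtain ⟨S, hS, hD, hK⟩ := hKEY K F W P0 φ hC S0 hS0
  obtain ⟨t, ht, h1⟩ := aml_one hS (fun t N => ∀ᶠ m in (U : Filter ℤ),
      (N : ℤ) ∣ (t.1 0 * t.2 1 - t.1 1 * t.2 0) * m + (t.2 1 * t.1 2 - t.1 1 * t.2 2))
    (fun t N N' h2 h3 => h3.mono fun m hm => (Int.natCast_dvd_natCast.2 h2).trans hm)
    fun N hN => by
      obtain ⟨n, hn, h2, h3⟩ := hK N hN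
      obtain ⟨r, hr⟩ := aml_res U hn
      obtain ⟨s, hs⟩ := aml_res U' hn
      obtain ⟨t, ht, h4, h5⟩ := h3 x y r s hx (aml_cng hNEAR hC.nt hU hn hr)
        (aml_cng hNEAR hC.nt hU' hn hs)
      refine ⟨t, ht, hr.mono fun m hm => (Int.natCast_dvd_natCast.2 h2).trans ?_⟩
      have h6 := ((h4.mul_left (t.2 1)).sub (h5.mul_left (t.1 1))).add
        (hm.mul_left (t.1 0 * t.2 1 - t.1 1 * t.2 0))
      convert h6 using 1
      ring
  obtain ⟨b, hb⟩ := aml_lim (hD t ht) h1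
  refine ⟨b, fun v => sub_eq_zero.1 (eq_zero_of_near (r0 := cb (W.baseChange (Kv v.1)))
    fun R hR => ?_)⟩
  have h2 := aml_grp (hNEAR.grp (W.baseChange (Kv v.1)) hR) (s := x v)
    (p := bc W (Kv v.1) P0) hb ((hU v R).mono fun m hm => by rw [← map_zsmul]; exact hm)
  rw [← map_zsmul] at h2
  exact h2

end AML

section TOPA

open NumberField IsDedekindDomain WeierstrassCurve Inv OnePoint Finset Filter Topology
open WeierstrassCurve.Affine (Point)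
open scoped Classical IntermediateField

lemma Cov.fin {K : Type} [Field K] [NumberField K] {W : Affine K} {Γ : AddSubgroup (EP W K)}
    {P : EP W K} {R : Set (EP W K)} (h : Cov Γ P R) (ht : ¬ NT P) : (Γ : Set (EP W K)).Finite := by
  obtain ⟨n, h1, h2⟩ := by simpa only [NT, not_forall] using ht
  refine (h.2.1.image2 (· + ·) (finite_zmultiples.2
    (isOfFinAddOrder_iff_zsmul_eq_zero.2 ⟨n, h2, h1⟩))).subset fun Q hQ => ?_
  obtain ⟨r, hr, m, rfl⟩ := h.2.2.2 Q hQ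
  exact Set.mem_image2_of_mem hr ⟨m, rfl⟩

lemma On.sub (hEV : S_EV) {K F L : Type} [Field K] [Field F] [Field L] [Algebra K F] [Algebra K L]
    {W : Affine K} [W.IsElliptic] {f g : EP W F} {a b : EP W L} (h : On f g a b) (R R' : EP W K) :
    On (f - bc W F R) (g - bc W F R') (a - bc W L R) (b - bc W L R') := by
  obtain ⟨M, _, _, j, y, h1, h2⟩ := h
  refine ⟨M, _, _, j, y, ?_, ?_⟩ <;>
    rw [← hEV.hom_apply, map_sub, map_sub, hEV.hom_apply, hEV.hom_apply, evl_bc,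
      Point.map_baseChange]
  exacts [congrArg (· - _) h1, congrArg (· - _) h2]

lemma Ind.sub {K F : Type} [Field K] [Field F] [Algebra K F] {W : Affine K} {f g : EP W F}
    (hi : Ind f g) (R R' : EP W K) : Ind (f - bc W F R) (g - bc W F R') :=
  fun m n ⟨Q, hQ⟩ => hi m n ⟨Q + (m • R + n • R'), by
    simp only [map_add, map_zsmul, hQ, smul_sub]
    abel⟩

theorem p_TOPA (hLIM : S_LIM) (hEV : S_EV) (hAML : S_AML) :
    S_TOPA := by
  intro K F _ _ _ _ W _ hF hK Γ P R0 hP S hS f g hi a b hx hf hg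
  by_cases ht : NT P
  swap
  · obtain ⟨Q, h1, h2⟩ := ((hP.fin ht).image _).isClosed.closure_subset hf
    exact ⟨Q, h1, fun v => co_injective ((congrFun h2 v).symm.trans (co_bc Q).symm)⟩
  have key : ∀ a : ∀ v : S, EP W (Kv v.1),
      (fun v => co (fun t : Kv v.1 => (t : OnePoint (Kv v.1))) (a v)) ∈
        closure (Diag (W := W) Γ S) →
      ∃ R ∈ R0, ∃ U : Ultrafilter ℤ, App P (fun v => a v - bc W (Kv v.1) R) U := by
    intro a hf
    obtain ⟨U, hΓ, hU⟩ := hLIM K W Γ S a hf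
    obtain ⟨R, hR, h1⟩ := (Ultrafilter.eventually_exists_mem_iff hP.2.1).1
      (mem_of_superset hΓ hP.2.2.2)
    obtain ⟨m, hm⟩ := h1.choice
    refine ⟨R, hR, U.map m, fun v r => ?_⟩
    rw [Ultrafilter.coe_map, eventually_map]
    filter_upwards [hm, hU v r] with Q h2 h3
    rwa [sub_sub, ← map_add, ← h2]
  obtain ⟨R, hR, U, h1⟩ := key a hf
  obtain ⟨R', -, U', h2⟩ := key b hg
  obtain ⟨m, hm⟩ := hAML K F W P ![f - bc W F R, g - bc W F R', bc W F P]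
    ⟨hF, hK, ht, hi.sub R R', rfl⟩ S hS _ _ U U' (fun v => (hx v).sub hEV R R') h1 h2
  exact ⟨m • P + R, add_mem (zsmul_mem hP.1 m) (hP.2.2.1 hR), fun v => by
    rw [map_add, ← hm v, sub_add_cancel]⟩

end TOPA

section TOPF

open NumberField IsDedekindDomain WeierstrassCurve Inv OnePoint Finset Filter Topology
open WeierstrassCurve.Affine (Point)
open scoped Classical IntermediateField

section

variable {K F L L' : Type} [Field K] [Field F] [Field L] [Field L'] {ρ : K →+* L} {ρ' : K →+* L'}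

lemma rat_nu {ι : K →+* F} (z : KPt ι ρ) {f : F} (hf : f ∈ z.O) {a : K}
    (h : z.φ ⟨f, hf⟩ = ρ a) : ¬ IsUnit (⟨f, hf⟩ - ⟨ι a, z.mem a⟩ : z.O) :=
  (phi_eq_zero z _).1 (by rw [map_sub, h, z.comm, sub_self])

lemma rat_tr {ι : K →+* F} (z : KPt ι ρ) (y : KPt ι ρ') (h : y.O = z.O) (f : F) (o : OnePoint K)
    (hz : val z f = o.map ρ) : val y f = o.map ρ' := by
  induction o using OnePoint.rec with
  | infty => exact val_eq_infty.2 (h ▸ val_eq_infty.1 hz)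
  | coe a =>
    obtain ⟨hf, h1⟩ := val_eq_coe.1 hz
    have h2 := rat_nu z hf h1
    obtain ⟨⟨O, φ, l⟩, m, c⟩ := y
    obtain rfl : O = z.O := h
    refine val_eq_coe.2 ⟨hf, ?_⟩
    have h3 := (phi_eq_zero (⟨⟨z.O, φ, l⟩, m, c⟩ : KPt ι ρ') _).2 h2
    rw [map_sub, sub_eq_zero] at h3
    exact h3.trans (c a)

end

lemma cov_of {G : Type} [AddCommGroup G] (Γ : AddSubgroup G) {P : Γ}
    (h : (AddSubgroup.zmultiples P).FiniteIndex) : ∃ R, Cov Γ P R := by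
  refine ⟨Set.range fun c : Γ ⧸ AddSubgroup.zmultiples P => (c.out : G), P.2, Set.finite_range _,
    Set.range_subset_iff.2 fun c => c.out.2, fun Q hQ => ?_⟩
  obtain ⟨m, hm⟩ := QuotientAddGroup.eq.1 (QuotientAddGroup.out_eq'
    (((⟨Q, hQ⟩ : Γ)) : Γ ⧸ AddSubgroup.zmultiples P))
  exact ⟨_, ⟨_, rfl⟩, m, neg_add_eq_iff_eq_add.1 (congrArg Subtype.val hm).symm⟩

section

variable {K F L : Type} [Field K] [Field F] [Field L] [Algebra K F] [Algebra K L] {W : Affine K}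
  [W.IsElliptic]

lemma im_pt {M : Type} [Field M] [Algebra K M] (j : L →ₐ[K] M) {a : OnePoint L × OnePoint L}
    {s : EP W M} (h : co (fun t : M => (t : OnePoint M)) s = a.map (.map j) (.map j)) :
    ∃ s' : EP W L, co (fun t : L => (t : OnePoint L)) s' = a ∧ s = Point.map j s' := by
  obtain ⟨a1, a2⟩ := a
  rcases s with _ | ⟨x, y, h1⟩ <;> induction a1 using OnePoint.rec <;>
    induction a2 using OnePoint.rec <;> simp only [co, Prod.map, map_infty, map_some,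
      Prod.mk.injEq, infty_ne_coe, coe_ne_infty, and_false, false_and, coe_eq_coe] at h
  · exact ⟨0, rfl, rfl⟩
  · obtain ⟨rfl, rfl⟩ := h
    exact ⟨.some _ _ ((W.baseChange_nonsingular j.injective ..).1 h1), rfl, rfl⟩

lemma im_on {f g : EP W F} {a b : OnePoint L × OnePoint L} (h : Im f g a b) :
    ∃ s : EP W L × EP W L, co (fun t : L => (t : OnePoint L)) s.1 = a ∧
      co (fun t : L => (t : OnePoint L)) s.2 = b ∧ On f g s.1 s.2 := by
  obtain ⟨y, h1, h2⟩ := h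
  let j := IsScalarTower.toAlgHom K L (AlgebraicClosure L)
  obtain ⟨s, k1, k2⟩ := im_pt j ((co_evl y f).trans h1)
  obtain ⟨s', k3, k4⟩ := im_pt j ((co_evl y g).trans h2)
  exact ⟨(s, s'), k1, k3, _, _, _, j, y, k2, k4⟩

lemma on_bar (hRES : S_RES) (hNC : S_NC) (hF : HF K F) (hK : HK K F) {f g : EP W F}
    (hi : Ind f g) {Q Q' : EP W K} (h : On f g (bc W L Q) (bc W L Q')) :
    ∃ y : CP K F (AlgebraicClosure K), evl y f = bc W _ Q ∧ evl y g = bc W _ Q' := by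
  obtain ⟨M, _, _, j, z, h1, h2⟩ := h
  rw [Point.map_baseChange, ← co_val_eq_iff] at h1 h2
  have tr : ∀ y : CP K F (AlgebraicClosure K), y.O = z.O → ∀ (f : EP W F) (Q : EP W K),
      co (val z) f = co (fun a => ((algebraMap K M a : M) : OnePoint M)) Q →
      evl y f = bc W _ Q := fun y hy f Q h => by
    refine (co_val_eq_iff _ _ _).1 ?_
    rcases f with _ | ⟨X, Y, hX⟩ <;> rcases Q with _ | ⟨a, b, ha⟩
    · rfl
    · exact absurd (congrArg Prod.fst h) (infty_ne_coe _)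
    · exact Prod.ext (rat_tr _ y hy X ∞ (congrArg Prod.fst h))
        (rat_tr _ y hy Y ∞ (congrArg Prod.snd h))
    · exact Prod.ext (rat_tr _ y hy X a (congrArg Prod.fst h))
        (rat_tr _ y hy Y b (congrArg Prod.snd h))
  obtain ⟨X, Y, hX, rfl, hT⟩ := hNC K F W hK f fun h =>
    one_ne_zero (hi 1 0 (by simpa using h)).1
  obtain ⟨y, hy⟩ := hRES K F hF z.O z.mem fun h => by
    have hm : ∀ f, f ∈ z.O := fun f => h ▸ ValuationSubring.mem_top f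
    have h1 := congrArg Prod.fst h1
    rcases Q with _ | ⟨a, b, ha⟩
    · exact val_eq_infty.1 h1 (hm X)
    · obtain ⟨hf, h2⟩ := val_eq_coe.1 h1
      have h0 : X - algebraMap K F a ≠ 0 := fun h0 =>
        hT (sub_eq_zero.1 h0 ▸ isAlgebraic_algebraMap a)
      exact rat_nu _ hf h2 (IsUnit.of_mul_eq_one ⟨_, hm (X - algebraMap K F a)⁻¹⟩
        (Subtype.ext (mul_inv_cancel₀ h0)))
  exact ⟨y, tr y hy _ Q h1, tr y hy _ Q' h2⟩

end

theorem p_TOPF (hTOPA : S_TOPA) (hDM : S_DM) (hEV : S_EV) (hRES : S_RES) (hNC : S_NC)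
    (K F : Type) [Field K] [NumberField K] [Field F] [Algebra K F] (W : Affine K) [W.IsElliptic]
    (hF : HF K F) (hK : HK K F) (Γ : AddSubgroup (EP W K))
    (hr : ∃ P : Γ, (AddSubgroup.zmultiples P).FiniteIndex) (S : Set (Pl K)) (hS : Sᶜ.Finite)
    (f g : EP W F) (hi : Ind f g) : ∃ T ⊆ Diag (W := W) Γ S, T.Finite ∧
      ∀ a ∈ closure (Diag (W := W) Γ S), ∀ b ∈ closure (Diag (W := W) Γ S),
        (∀ v, Im f g (a v) (b v)) → a ∈ T ∧ b ∈ T := by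
  obtain ⟨P, hP⟩ := hr
  obtain ⟨R, hR⟩ := cov_of Γ hP
  have key : ∀ f g : EP W F, Ind f g → ∃ T : Set (EP W K), T.Finite ∧ ∀ Q ∈ Γ, ∀ Q' ∈ Γ,
      (∃ y : CP K F (AlgebraicClosure K), evl y f = bc W _ Q ∧ evl y g = bc W _ Q') →
        Q ∈ T := fun f g hi => by
    by_cases ht : NT (P : EP W K)
    swap
    · exact ⟨_, hR.fin ht, fun Q h _ _ _ => h⟩
    have h1 := fun r r' : EP W K => hDM K F W P ![f - bc W F r, g - bc W F r', bc W F P]
      ⟨hF, hK, ht, hi.sub r r', rfl⟩ ![1, 0, 0] ![0, 1, 0] (by simp)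
    refine ⟨_, hR.2.1.biUnion fun r _ => hR.2.1.biUnion fun r' _ =>
      (h1 r r').image fun w => r + w.1 • (P : EP W K), ?_⟩
    rintro Q hQ Q' hQ' ⟨y, k1, k2⟩
    obtain ⟨r, hr, w, rfl⟩ := hR.2.2.2 Q hQ
    obtain ⟨r', hr', w', rfl⟩ := hR.2.2.2 Q' hQ'
    refine Set.mem_biUnion hr (Set.mem_biUnion hr' ⟨(w, w'), ⟨y, congrArg Point.xRep ?_,
      congrArg Point.xRep ?_⟩, rfl⟩) <;> rw [hEV.phi]
    · simp [← hEV.hom_apply, (hEV.hom_apply y f).trans k1, ← evl_bc y]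
    · simp [← hEV.hom_apply, (hEV.hom_apply y g).trans k2, ← evl_bc y]
  have hi' : Ind g f := fun m n h => (hi n m (add_comm (m • g) _ ▸ h)).symm
  obtain ⟨T, h1, h2⟩ := key f g hi
  obtain ⟨T', k1, k2⟩ := key g f hi'
  refine ⟨Diag (((T ∪ T') ∪ {0}) ∩ Γ) S, Set.image_mono Set.inter_subset_right,
    (((h1.union k1).union (Set.finite_singleton 0)).inter_of_left _).image _,
    fun a ha b hb h => ?_⟩
  rcases isEmpty_or_nonempty S with hs | ⟨⟨v⟩⟩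
  · exact ⟨⟨0, ⟨Or.inr rfl, Γ.zero_mem⟩, Subsingleton.elim _ _⟩,
      ⟨0, ⟨Or.inr rfl, Γ.zero_mem⟩, Subsingleton.elim _ _⟩⟩
  choose s s1 s2 s3 using fun v => im_on (h v)
  obtain rfl := funext s1
  obtain rfl := funext s2
  obtain ⟨Q, hQ, e⟩ := hTOPA K F W hF hK Γ P R hR S hS f g hi _ _ s3 ha hb
  obtain ⟨Q', hQ', e'⟩ := hTOPA K F W hF hK Γ P R hR S hS g f hi' _ _ (fun v => (s3 v).symm) hb ha
  obtain ⟨y, y1, y2⟩ := on_bar hRES hNC hF hK hi (e v ▸ e' v ▸ s3 v)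
  exact ⟨⟨Q, ⟨Or.inl (Or.inl (h2 Q hQ Q' hQ' ⟨y, y1, y2⟩)), hQ⟩, funext fun v =>
      (co_bc Q).symm.trans (congrArg _ (e v).symm)⟩,
    ⟨Q', ⟨Or.inl (Or.inr (k2 Q' hQ' Q hQ ⟨y, y2, y1⟩)), hQ'⟩, funext fun v =>
      (co_bc Q').symm.trans (congrArg _ (e' v).symm)⟩⟩

end TOPF

end Pool.Agent.P.MP_ab3ecb_nt.R1
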