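import Pool.Agent.P.MP_ab3ecb_nt.R1.AllA

/-!
Let `C` be a curve over a number field `K` with function field `F`, let `W` be an elliptic curve
over `K`, let `f`, `g` be two maps from `C` to `W` that are independent modulo the constant maps,
and let `X` be the image of `C` under `(f, g)`. Let `Γ` be a group of rational points of `W` of
rank at most one, and let `S` contain all but finitely many of the finite places of `K`. There is
a finite subset `T` of `Γ` such that every family of points of `X` over the completions at the
places of `S` that is a limit of points of `Γ × Γ` is a point of `T × T`.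
-/

namespace Pool.Agent.Results.MP_ab3ecb_nt.AdelicML

open NumberField IsDedekindDomain WeierstrassCurve Pool.Agent.P.MP_ab3ecb_nt.R1
open scoped Classical IntermediateField

theorem result (K F : Type) [Field K] [NumberField K] [Field F] [Algebra K F]
    (hF : ∃ x : F, Transcendental K x ∧ FiniteDimensional K⟮x⟯ F)
    (hK : ∀ z : F, IsAlgebraic K z → z ∈ (algebraMap K F).range)
    (W : Affine K) [W.IsElliptic] (f g : (W.baseChange F).Point)
    (hi : ∀ m n : ℤ, m • f + n • g ∈ (Affine.Point.baseChange K F).range → m = 0 ∧ n = 0)
    (Γ : AddSubgroup (W.baseChange K).Point)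
    (hr : ∃ P : Γ, (AddSubgroup.zmultiples P).FiniteIndex)
    (S : Set (HeightOneSpectrum (𝓞 K))) (hS : Sᶜ.Finite) :
    ∃ T ⊆ Diag (W := W) Γ S, T.Finite ∧
      ∀ a ∈ closure (Diag (W := W) Γ S), ∀ b ∈ closure (Diag (W := W) Γ S),
        (∀ v, Im f g (a v) (b v)) → a ∈ T ∧ b ∈ T :=
  p_TOPF r_TOPA r_DM r_EV p_RES p_NC K F W hF hK Γ hr S hS f g hi

end Pool.Agent.Results.MP_ab3ecb_nt.AdelicML
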