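import Pool.Agent.P.MP_ab3ecb_nt.R1.A1
import Pool.Agent.P.MP_ab3ecb_nt.R1.A2
import Pool.Agent.P.MP_ab3ecb_nt.R1.A3
import Pool.Agent.P.MP_ab3ecb_nt.R1.A4

/-! Assembly of the adelic argument. -/

namespace Pool.Agent.P.MP_ab3ecb_nt.R1

theorem r_EV : S_EV := p_EV p_ASM
theorem r_NEAR : S_NEAR := p_NEAR p_ASM
theorem r_REL : S_REL := p_REL p_GK (p_LAD p_ASM) p_RELA (p_RELB p_RES) p_NC
theorem r_DM : S_DM := p_DM p_HT r_EV r_REL (p_ROOT p_PF) p_DIR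
theorem r_KEYA : S_KEYA := p_KEYA r_EV r_NEAR (p_LIOU p_LOC p_PF)
theorem r_KEY : S_KEY := p_KEY p_HT p_FIN r_REL p_DIR r_DM r_KEYA
theorem r_TOPA : S_TOPA := p_TOPA (p_LIM p_PROP p_LIMA) r_EV (p_AML r_NEAR r_KEY)

end Pool.Agent.P.MP_ab3ecb_nt.R1
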