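import Pool.Agent.P.MP_ab3ecb_nt.R1.Base

/-!
Statements: heights, local estimates and the adelic argument.
-/

set_option linter.unusedSectionVars false
set_option linter.ambiguousOpen false

namespace Pool.Agent.P.MP_ab3ecb_nt.R1

open NumberField IsDedekindDomain WeierstrassCurve Inv OnePoint Finset Filter Topology
open WeierstrassCurve.Affine (Point)
open scoped Classical IntermediateField

-- deps:
def S_ASM : Prop := ∀ (L : Type) [Field L] [DecidableEq L] (W : Affine L) [W.IsElliptic]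
  (P Q : W.Point), ∃ c : L, c ≠ 0 ∧ (P + Q).sym2x (P - Q) =
    c • ![a0 W P.xRep Q.xRep, a1 W P.xRep Q.xRep, a2 P.xRep Q.xRep]

section

variable {L : Type} [Field L] [DecidableEq L] {W : Affine L} [W.IsElliptic]

lemma S_ASM.eqs (h : S_ASM) (P Q : W.Point) : ∃ c : L, c ≠ 0 ∧
    (P + Q).xRep 0 * (P - Q).xRep 0 = c * a0 W P.xRep Q.xRep ∧
    (P + Q).xRep 0 * (P - Q).xRep 1 + (P + Q).xRep 1 * (P - Q).xRep 0 = c * a1 W P.xRep Q.xRep ∧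
    (P + Q).xRep 1 * (P - Q).xRep 1 = c * a2 P.xRep Q.xRep :=
  let ⟨c, h0, h1⟩ := h L W P Q
  ⟨c, h0, congrFun h1 0, congrFun h1 1, congrFun h1 2⟩

/-- The quadratic equation for the abscissa of a sum. -/
lemma S_ASM.quad_add (h : S_ASM) (P Q : W.Point) :
    a2 P.xRep Q.xRep * (P + Q).xRep 0 ^ 2 - a1 W P.xRep Q.xRep * (P + Q).xRep 0 * (P + Q).xRep 1 +
      a0 W P.xRep Q.xRep * (P + Q).xRep 1 ^ 2 = 0 := by
  obtain ⟨c, h0, h1, h2, h3⟩ := h.eqs P Q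
  refine mul_left_cancel₀ h0 ?_
  linear_combination -(P + Q).xRep 0 ^ 2 * h3 + (P + Q).xRep 0 * (P + Q).xRep 1 * h2 -
    (P + Q).xRep 1 ^ 2 * h1

/-- The quadratic equation for the abscissa of a difference. -/
lemma S_ASM.quad_sub (h : S_ASM) (P Q : W.Point) :
    a2 P.xRep Q.xRep * (P - Q).xRep 0 ^ 2 - a1 W P.xRep Q.xRep * (P - Q).xRep 0 * (P - Q).xRep 1 +
      a0 W P.xRep Q.xRep * (P - Q).xRep 1 ^ 2 = 0 := by
  simpa only [sub_eq_add_neg, Point.xRep_neg] using h.quad_add P (-Q)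

end

-- deps:
def S_HT : Prop := ∀ (K : Type) [Field K] [NumberField K] (W : Affine K) [W.IsElliptic]
  (P0 : EP W K), NT P0 → ∃ q C : ℝ, 0 < q ∧ ∀ n : ℤ, |ht (n • P0) - q * n ^ 2| ≤ C

-- deps:
def S_FIN : Prop := ∀ (K : Type) [Field K] [NumberField K] (W : Affine K) [W.IsElliptic]
  (P0 : EP W K), NT P0 → ∀ S : Set (Pl K), Sᶜ.Finite → ∃ c : ℝ, 0 < c ∧ ∀ N : ℕ, 0 < N →
    ∃ (C : ℝ) (t : K), t ≠ 0 ∧ ∀ J : ℕ, ∃ n : ℕ, J < n ∧ N ∣ n ∧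
      c * n ^ 2 - C ≤ hf (((n : ℤ) • P0).xRep 0) ∧
      ∀ v ∉ S, nv v t * max 1 (nv v (((n : ℤ) • P0).xRep 0)) ≤ 1

-- deps: ASM
def S_EV : Prop := ∀ (K F L : Type) [Field K] [Field F] [Field L] [Algebra K F] [Algebra K L]
  [DecidableEq F] [DecidableEq L] (W : Affine K) [W.IsElliptic] (z : CP K F L) (f g : EP W F),
    evl z (f + g) = evl z f + evl z g

section

variable {K F L : Type} [Field K] [Field F] [Field L] [Algebra K F] [Algebra K L]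
  [DecidableEq F] [DecidableEq L] {W : Affine K} [W.IsElliptic]

/-- Evaluation as a homomorphism. -/
noncomputable def S_EV.hom (h : S_EV) (z : CP K F L) : EP W F →+ EP W L :=
  AddMonoidHom.mk' (evl z) (h K F L W z)

lemma S_EV.hom_apply (h : S_EV) (z : CP K F L) (f : EP W F) : h.hom z f = evl z f := rfl

lemma S_EV.phi (h : S_EV) (z : CP K F L) (φ : Fin 3 → EP W F) (u : Fin 3 → ℤ) :
    evl z (Phi φ u) = u 0 • evl z (φ 0) + u 1 • evl z (φ 1) + u 2 • evl z (φ 2) := by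
  simp only [← h.hom_apply, Phi, map_add, map_zsmul]

end

/-- The points `s` and `p` of the projective line are at distance at most `√(c / r)`. -/
def Clo {L : Type} [NormedField L] (c r : ℝ) (s p : Fin 2 → L) : Prop :=
  ‖s 0 * p 1 - s 1 * p 0‖ ^ 2 * r ≤ c * (‖s‖ * ‖p‖) ^ 2

-- deps: ASM
def S_NEAR : Prop := ∀ (L : Type) [NormedField L] [IsUltrametricDist L] [DecidableEq L]
  (W : Affine L) [W.IsElliptic],
  (∀ (r : ℝ) (P Q : W.Point), cb W < r → Near r P → Near r Q → Near r (P + Q)) ∧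
  ∀ (r : ℝ) (T R : W.Point), 1 ≤ r → Near r T → Clo (cb W) r (T - R).xRep R.xRep

/-- The points near zero form a subgroup. -/
def S_NEAR.grp (h : S_NEAR) {L : Type} [NormedField L] [IsUltrametricDist L] [DecidableEq L]
    (W : Affine L) [W.IsElliptic] {r : ℝ} (hr : cb W < r) : AddSubgroup W.Point where
  carrier := {P | Near r P}
  zero_mem' := near_zero r
  add_mem' := (h L W).1 r _ _ hr
  neg_mem' := near_neg.2

-- deps:
def S_PROP : Prop := ∀ (K : Type) [Field K] [NumberField K] (v : Pl K), ProperSpace (Kv v)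

-- deps:
def S_LIMA : Prop := ∀ (L : Type) [NormedField L] [ProperSpace L] [DecidableEq L] (W : Affine L)
  [W.IsElliptic] (α : Type) (l : Filter α) (Q : α → W.Point) (S : W.Point),
  Tendsto (fun a => co (fun t : L => (t : OnePoint L)) (Q a)) l
    (𝓝 (co (fun t : L => (t : OnePoint L)) S)) → ∀ r, ∀ᶠ a in l, Near r (S - Q a)

-- deps: PROP LIMA
def S_LIM : Prop := ∀ (K : Type) [Field K] [NumberField K] (W : Affine K) [W.IsElliptic]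
  (Γ : Set (EP W K)) (S : Set (Pl K)) (a : ∀ v : S, EP W (Kv v.1)),
  (fun v => co (fun t : Kv v.1 => (t : OnePoint (Kv v.1))) (a v)) ∈ closure (Diag Γ S) →
    ∃ U : Ultrafilter (EP W K), Γ ∈ U ∧ ∀ v r, ∀ᶠ Q in (U : Filter (EP W K)),
      Near r (a v - bc W (Kv v.1) Q)

-- deps:
def S_GK : Prop := ∀ (K F : Type) [Field K] [Field F] [Algebra K F], HF K F →
  ∀ V : Submodule K F, FiniteDimensional K V → ∃ C : ℕ, ∀ n : ℕ,
    FiniteDimensional K ↥(V ^ n) ∧ Module.finrank K ↥(V ^ n) ≤ C * (n + 1)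

-- deps: ASM
def S_LAD : Prop := ∀ (K F : Type) [Field K] [Field F] [Algebra K F] [DecidableEq F]
  (W : Affine K) [W.IsElliptic] (φ : Fin 3 → EP W F) (V : Submodule K F), (1 : F) ∈ V →
  (∀ u : Fin 3 → ℤ, (∀ i, |u i| ≤ 1) → HR V 1 (Phi φ u).xRep) →
    ∀ (k : ℕ) (u : Fin 3 → ℤ), (∀ i, |u i| ≤ 2 ^ k) → HR V (2 * 4 ^ k) (Phi φ u).xRep

-- deps:
def S_RELA : Prop := ∀ (K F : Type) [Field K] [Field F] [Algebra K F] (V : Submodule K F) (C : ℕ),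
  (∀ n : ℕ, FiniteDimensional K ↥(V ^ n) ∧ Module.finrank K ↥(V ^ n) ≤ C * (n + 1)) →
  ∀ (N N' : ℕ) (p q : Fin 2 → F), 0 < N → 0 < N' → HR V N p → HR V N' q →
    ∃ c : ℕ → ℕ → K, (∃ i ≤ 3 * C * N', ∃ j ≤ 3 * C * N, c i j ≠ 0) ∧
      bh c (3 * C * N') (3 * C * N) (algebraMap K F) p q = 0

-- deps:
def S_RES : Prop := ∀ (K F : Type) [Field K] [Field F] [Algebra K F], HF K F →
  ∀ O : ValuationSubring F, (∀ c, algebraMap K F c ∈ O) → O ≠ ⊤ →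
    ∃ y : CP K F (AlgebraicClosure K), y.O = O

-- deps: RES
def S_RELB : Prop := ∀ (K F : Type) [Field K] [Field F] [Algebra K F], HF K F → ∀ f g : F,
  Transcendental K f → Transcendental K g → ∀ (c : ℕ → ℕ → K) (d e : ℕ),
  (∃ i ≤ d, ∃ j ≤ e, c i j ≠ 0) → bh c d e (algebraMap K F) ![f, 1] ![g, 1] = 0 →
    ∃ c' : ℕ → ℕ → K, bh c' d e (algebraMap K F) ![f, 1] ![g, 1] = 0 ∧
      (∀ ξ η : K, bh c' d e id ![ξ, 1] ![η, 1] = 0 → ∃ y : CP K F (AlgebraicClosure K),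
        val y f = (algebraMap K (AlgebraicClosure K) ξ : AlgebraicClosure K) ∧
        val y g = (algebraMap K (AlgebraicClosure K) η : AlgebraicClosure K)) ∧
      ∀ η : K, ∃ i ≤ d, ∑ j ∈ range (e + 1), c' i j * η ^ j ≠ 0

-- deps:
def S_NC : Prop := ∀ (K F : Type) [Field K] [Field F] [Algebra K F] [DecidableEq K]
  [DecidableEq F] (W : Affine K) [W.IsElliptic], HK K F → ∀ f : EP W F, f ∉ (bc W F).range →
    ∃ x y h, f = .some x y h ∧ Transcendental K x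

-- deps: GK LAD RELA RELB NC
def S_REL : Prop := ∀ (K F : Type) [Field K] [NumberField K] [Field F] [Algebra K F]
  (W : Affine K) [W.IsElliptic] (P0 : EP W K) (φ : Fin 3 → EP W F), Ctx P0 φ →
  ∃ C : ℕ, ∀ (k k' : ℕ) (u u' : Fin 3 → ℤ), (∀ i, |u i| ≤ 2 ^ k) → (∀ i, |u' i| ≤ 2 ^ k') →
    ¬ (u 0 = 0 ∧ u 1 = 0) → ¬ (u' 0 = 0 ∧ u' 1 = 0) →
      ∃ c : ℕ → ℕ → K, RelP c (C * 4 ^ k') (C * 4 ^ k) (Phi φ u) (Phi φ u')

-- deps:
def S_PF : Prop := ∀ (K : Type) [Field K] [NumberField K] (g η η' : K) (s : List K) (N : ℝ),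
  g ≠ 0 → 1 ≤ N →
  (∀ v : Pl K, nv v g * max 1 (nv v η) ≤ (s.map fun a => max 1 (nv v a)).prod) →
  (∀ w : InfinitePlace K, w g * max 1 (w η') ≤ N * (s.map fun a => max 1 (w a)).prod) →
    hf η + hi η' ≤ (s.map Height.logHeight₁).sum + Module.finrank ℚ K * Real.log N

-- deps: PF
def S_ROOT : Prop := ∀ (K : Type) [Field K] [NumberField K] (c : ℕ → ℕ → K) (d e : ℕ),
  ∃ C : ℝ, ∀ ξ η : K, (∃ i ≤ d, ∑ j ∈ range (e + 1), c i j * η ^ j ≠ 0) →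
    bh c d e id ![ξ, 1] ![η, 1] = 0 → Height.logHeight₁ ξ ≤ e * Height.logHeight₁ η + C

-- deps:
def S_LOC : Prop := ∀ (L : Type) [NormedField L] [IsUltrametricDist L] (c : ℕ → ℕ → L) (d e : ℕ)
  (B δ : ℝ) (s s' p p' : Fin 2 → L), (∀ i ≤ d, ∀ j ≤ e, ‖c i j‖ ≤ B) → 0 ≤ δ → s ≠ 0 → s' ≠ 0 →
  ‖s 0 * p 1 - s 1 * p 0‖ ≤ δ * (‖s‖ * ‖p‖) → ‖s' 0 * p' 1 - s' 1 * p' 0‖ ≤ δ * (‖s'‖ * ‖p'‖) →
  bh c d e id s s' = 0 → ‖bh c d e id p p'‖ ≤ δ * B * ‖p‖ ^ d * ‖p'‖ ^ e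

-- deps: LOC PF
def S_LIOU : Prop := ∀ (K : Type) [Field K] [NumberField K] (W : Affine K) (c : ℕ → ℕ → K)
  (d e : ℕ), ∃ C : ℝ, ∀ ξ ξ' η t : K, t ≠ 0 → bh c d e id ![ξ, 1] ![ξ', 1] ≠ 0 →
  (∀ v : Pl K, 1 < nv v t * max 1 (nv v η) → cb (W.baseChange (Kv v)) < nv v η →
    ∃ s s' : Fin 2 → Kv v, s ≠ 0 ∧ s' ≠ 0 ∧ bh c d e (algebraMap K (Kv v)) s s' = 0 ∧
    Clo (cb (W.baseChange (Kv v))) (nv v η) s ![algebraMap K (Kv v) ξ, 1] ∧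
    Clo (cb (W.baseChange (Kv v))) (nv v η) s' ![algebraMap K (Kv v) ξ', 1]) →
  hf η ≤ 2 * d * Height.logHeight₁ ξ + 2 * e * Height.logHeight₁ ξ' + C + Height.logHeight₁ t

-- deps:
def S_DIR : Prop :=
  (∀ n A r s : ℤ, 0 < n → 0 < A → ∃ a b w : ℤ, ¬ (a = 0 ∧ b = 0) ∧ |a| ≤ A ∧ |b| ≤ A ∧
    |w| * A ^ 2 ≤ n ∧ n ∣ a * r + b * s + w) ∧
  (∀ n A r : ℤ, 0 < n → 0 < A → ∃ a w : ℤ, a ≠ 0 ∧ |a| ≤ A ∧ |w| * A ≤ n ∧ n ∣ a * r + w) ∧
  ∀ T r s : ℤ, 0 < T → ∃ a b : ℤ, ¬ (a = 0 ∧ b = 0) ∧ |a| ≤ T ∧ |b| ≤ T ∧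
    |a * r + b * s| * T ≤ 2 * max |r| |s|

/-- Some geometric point is sent to `± w P0` by `f` and to `± w' P0` by `g`. -/
def Geo {K F : Type} [Field K] [Field F] [Algebra K F] {W : Affine K} [W.IsElliptic]
    (P0 : EP W K) (f g : EP W F) (w w' : ℤ) : Prop :=
  ∃ y : CP K F (AlgebraicClosure K), (evl y f).xRep = (bc W (AlgebraicClosure K) (w • P0)).xRep ∧
    (evl y g).xRep = (bc W (AlgebraicClosure K) (w' • P0)).xRep

-- deps: HT EV REL ROOT DIR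
def S_DM : Prop := ∀ (K F : Type) [Field K] [NumberField K] [Field F] [Algebra K F]
  (W : Affine K) [W.IsElliptic] (P0 : EP W K) (φ : Fin 3 → EP W F), Ctx P0 φ →
  ∀ u u' : Fin 3 → ℤ, u 0 * u' 1 - u 1 * u' 0 ≠ 0 →
    {w : ℤ × ℤ | Geo P0 (Phi φ u) (Phi φ u') w.1 w.2}.Finite

/-- At the places where `n P0` is close to zero, `a` is as close to `r P0`. -/
def Cng {K : Type} [Field K] [NumberField K] {W : Affine K} (P0 : EP W K) (n : ℕ)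
    {S : Set (Pl K)} (a : ∀ v : S, EP W (Kv v.1)) (r : ℤ) : Prop :=
  ∀ v : S, cb (W.baseChange (Kv v.1)) < nv v.1 (((n : ℤ) • P0).xRep 0) →
    Near (nv v.1 (((n : ℤ) • P0).xRep 0)) (a v - bc W (Kv v.1) (r • P0))

-- deps: EV NEAR LIOU
def S_KEYA : Prop := ∀ (K F : Type) [Field K] [NumberField K] [Field F] [Algebra K F]
  (W : Affine K) [W.IsElliptic] (P0 : EP W K) (φ : Fin 3 → EP W F), Ctx P0 φ →
  ∀ (u u' : Fin 3 → ℤ) (c : ℕ → ℕ → K) (d e : ℕ), RelP c d e (Phi φ u) (Phi φ u') →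
  ∃ C : ℝ, ∀ (S : Set (Pl K)) (n : ℕ) (t : K) (a b : ∀ v : S, EP W (Kv v.1)) (r s w w' : ℤ),
    0 < n → t ≠ 0 → w ≠ 0 → w' ≠ 0 →
    (∀ v ∉ S, nv v t * max 1 (nv v (((n : ℤ) • P0).xRep 0)) ≤ 1) →
    (∀ v, On (φ 0) (φ 1) (a v) (b v)) → Cng P0 n a r → Cng P0 n b s →
    (n : ℤ) ∣ u 0 * r + u 1 * s + u 2 + w → (n : ℤ) ∣ u' 0 * r + u' 1 * s + u' 2 + w' →
      hf (((n : ℤ) • P0).xRep 0) ≤ 2 * d * ht (w • P0) + 2 * e * ht (w' • P0) + C +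
        Height.logHeight₁ t ∨ Geo P0 (Phi φ u) (Phi φ u') w w'

-- deps: HT FIN REL DIR DM KEYA
def S_KEY : Prop := ∀ (K F : Type) [Field K] [NumberField K] [Field F] [Algebra K F]
  (W : Affine K) [W.IsElliptic] (P0 : EP W K) (φ : Fin 3 → EP W F), Ctx P0 φ →
  ∀ S : Set (Pl K), Sᶜ.Finite → ∃ Z : Set ((Fin 3 → ℤ) × (Fin 3 → ℤ)), Z.Finite ∧
    (∀ t ∈ Z, t.1 0 * t.2 1 - t.1 1 * t.2 0 ≠ 0) ∧ ∀ N : ℕ, 0 < N → ∃ n : ℕ, 0 < n ∧ N ∣ n ∧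
      ∀ (a b : ∀ v : S, EP W (Kv v.1)) (r s : ℤ), (∀ v, On (φ 0) (φ 1) (a v) (b v)) →
        Cng P0 n a r → Cng P0 n b s →
        ∃ t ∈ Z, (n : ℤ) ∣ t.1 0 * r + t.1 1 * s + t.1 2 ∧ (n : ℤ) ∣ t.2 0 * r + t.2 1 * s + t.2 2

-- deps: NEAR KEY
def S_AML : Prop := ∀ (K F : Type) [Field K] [NumberField K] [Field F] [Algebra K F]
  (W : Affine K) [W.IsElliptic] (P0 : EP W K) (φ : Fin 3 → EP W F), Ctx P0 φ →
  ∀ S : Set (Pl K), Sᶜ.Finite → ∀ (a b : ∀ v : S, EP W (Kv v.1)) (U U' : Ultrafilter ℤ),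
    (∀ v, On (φ 0) (φ 1) (a v) (b v)) → App P0 a U → App P0 b U' →
      ∃ m : ℤ, ∀ v, a v = bc W (Kv v.1) (m • P0)

-- deps: LIM EV AML
def S_TOPA : Prop := ∀ (K F : Type) [Field K] [NumberField K] [Field F] [Algebra K F]
  (W : Affine K) [W.IsElliptic], HF K F → HK K F →
  ∀ (Γ : AddSubgroup (EP W K)) (P : EP W K) (R : Set (EP W K)), Cov Γ P R →
  ∀ S : Set (Pl K), Sᶜ.Finite → ∀ f g : EP W F, Ind f g → ∀ a b : ∀ v : S, EP W (Kv v.1),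
    (∀ v, On f g (a v) (b v)) →
    (fun v => co (fun t : Kv v.1 => (t : OnePoint (Kv v.1))) (a v)) ∈ closure (Diag (W := W) Γ S) →
    (fun v => co (fun t : Kv v.1 => (t : OnePoint (Kv v.1))) (b v)) ∈ closure (Diag (W := W) Γ S) →
      ∃ Q ∈ Γ, ∀ v, a v = bc W (Kv v.1) Q

end Pool.Agent.P.MP_ab3ecb_nt.R1
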