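import Pool.Agent.P.MP_ab3ecb_nt.R1.IfaceR
import Pool.Agent.P.MP_ab3ecb_nt.R1.Iface
import Pool.Agent.P.MP_ab3ecb_nt.R1.A4

/-! Steps AZ PULL GEN APP RC RS TOPB. -/

set_option autoImplicit false
set_option linter.unusedSectionVars false
set_option linter.unusedVariables false
set_option linter.ambiguousOpen false
set_option linter.style.haveILetI false

namespace Pool.Agent.P.MP_ab3ecb_nt.R1

section AZ

open NumberField IsDedekindDomain WeierstrassCurve Inv OnePoint Finset Filter Topology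
open TensorProduct Quaternion
open WeierstrassCurve.Affine (Point)
open Pool.Agent.P.MP_6f117a_ag (Place FF)
open scoped Classical IntermediateField

lemma az_range {R S M : Type} [CommRing R] [CommRing S] [Algebra R S] [Ring M] [Algebra R M]
    (hM : IsAzumaya R M) (f : Module.End R M) :
    f.baseChange S ∈ (AlgHom.mulLeftRight S (S ⊗[R] M)).range := by
  obtain ⟨f, rfl⟩ := hM.bij.2 f
  induction f with
  | zero => rw [map_zero, LinearMap.baseChange_zero]; exact zero_mem _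
  | add x y h1 h2 => rw [map_add, LinearMap.baseChange_add]; exact add_mem h1 h2
  | tmul a a' =>
    refine ⟨((1 : S) ⊗ₜ a) ⊗ₜ MulOpposite.op ((1 : S) ⊗ₜ a'.unop), ?_⟩
    ext x
    simp [AlgHom.mulLeftRight_apply]

theorem p_AZ :
    S_AZ := by
  intro R S M _ _ _ _ _ _ _ hM
  have : Module.Free R M := Module.free_of_flat_of_isLocalRing
  have : Nontrivial M := by
    by_contra h
    rw [not_nontrivial_iff_subsingleton] at h
    have h1 : (0 : R) = 1 :=
      FaithfulSMul.eq_of_smul_eq_smul (α := M) fun x => Subsingleton.elim _ _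
    exact zero_ne_one h1
  have hn : Nontrivial (S ⊗[R] M) := by
    rw [← Module.finrank_pos_iff_of_free (R := S), Module.finrank_baseChange]
    exact (Module.finrank_pos_iff_of_free R M).mpr inferInstance
  have hsurj : Function.Surjective (AlgHom.mulLeftRight S (S ⊗[R] M)) := by
    intro g
    change _ ∈ (AlgHom.mulLeftRight S (S ⊗[R] M)).range
    let b := Module.Free.chooseBasis R M
    let B := Algebra.TensorProduct.basis S b
    have hg : g = ∑ i, ∑ j, (B.repr (g (B i)) j) •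
        LinearMap.baseChange S ((b.coord i).smulRight (b j)) := by
      refine B.ext fun k => ?_
      have hB : ∀ i, B i = (1 : S) ⊗ₜ[R] b i := fun i => Algebra.TensorProduct.basis_apply b i
      rw [LinearMap.sum_apply, Finset.sum_eq_single k]
      · conv_lhs => rw [← B.sum_repr (g (B k))]
        rw [LinearMap.sum_apply]
        refine Finset.sum_congr rfl fun j _ => ?_
        rw [LinearMap.smul_apply, hB k, hB j, LinearMap.baseChange_tmul]
        simp
      · intro i _ hi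
        rw [LinearMap.sum_apply]
        refine Finset.sum_eq_zero fun j _ => ?_
        rw [LinearMap.smul_apply, hB k, LinearMap.baseChange_tmul]
        simp [hi.symm]
      · intro h
        exact absurd (Finset.mem_univ k) h
    rw [hg]
    exact Subalgebra.sum_mem _ fun i _ => Subalgebra.sum_mem _ fun j _ =>
      Subalgebra.smul_mem _ (az_range hM _) _
  have hfr : Module.finrank S ((S ⊗[R] M) ⊗[S] (S ⊗[R] M)ᵐᵒᵖ)
      = Module.finrank S (Module.End S (S ⊗[R] M)) := by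
    rw [Module.finrank_tensorProduct (M := S ⊗[R] M), Module.finrank_linearMap,
      ← (MulOpposite.opLinearEquiv S).finrank_eq]
  have e := LinearEquiv.ofFinrankEq _ _ hfr
  exact { bij := ⟨OrzechProperty.injective_of_surjective_of_injective e.toLinearMap
    (AlgHom.mulLeftRight S (S ⊗[R] M)).toLinearMap e.injective hsurj, hsurj⟩ }

end AZ

section PULL

open NumberField IsDedekindDomain WeierstrassCurve Inv OnePoint Finset Filter Topology
open TensorProduct Quaternion
open WeierstrassCurve.Affine (Point)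
open Pool.Agent.P.MP_6f117a_ag (Place FF)
open scoped Classical IntermediateField

/-- Transitivity of base change for algebras. -/
noncomputable def pull_cancel (R S T M : Type) [CommRing R] [CommRing S] [CommRing T] [Ring M]
    [Algebra R S] [Algebra S T] [Algebra R T] [IsScalarTower R S T] [Algebra R M] :
    T ⊗[S] (S ⊗[R] M) ≃ₐ[T] T ⊗[R] M :=
  (AlgEquiv.ofLinearEquiv (AlgebraTensorModule.cancelBaseChange R S T T M).symm
    (by simp [Algebra.TensorProduct.one_def])
    (LinearMap.map_mul_of_map_mul_tmul fun _ _ _ _ => by simp)).symm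

lemma pull_mat (R S X : Type) [CommRing R] [CommRing S] [Algebra R S] [Ring X] [Algebra R X]
    (k : ℕ) :
    Nonempty (Matrix (Fin k) (Fin k) (S ⊗[R] X) ≃ₐ[S] S ⊗[R] Matrix (Fin k) (Fin k) X) := by
  have e1 : S ≃ₐ[S] Matrix Unit Unit S := AlgEquiv.ofBijective (Matrix.scalarAlgHom Unit S)
    ⟨fun _ _ h => Matrix.scalar_inj.1 h, fun x => ⟨x () (), by ext; simp⟩⟩
  exact ⟨((Algebra.TensorProduct.congr e1 AlgEquiv.refl).trans
    ((Matrix.kroneckerTMulAlgEquiv Unit (Fin k) R S S X).trans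
      (Matrix.reindexAlgEquiv S _ (Equiv.uniqueProd (Fin k) Unit)))).symm⟩

lemma pull_br {R S X Y : Type} [Field R] [Field S] [Algebra R S] [Ring X] [Algebra R X] [Ring Y]
    [Algebra R Y] (h : BrEq R X Y) : BrEq S (S ⊗[R] X) (S ⊗[R] Y) := by
  obtain ⟨m, n, ⟨e⟩⟩ := h
  obtain ⟨e1⟩ := pull_mat R S X (m + 1)
  obtain ⟨e2⟩ := pull_mat R S Y (n + 1)
  exact ⟨m, n, ⟨e1.trans ((Algebra.TensorProduct.congr AlgEquiv.refl e).trans e2.symm)⟩⟩

lemma pull_model (hAZ : S_AZ) {F F' A M : Type} [Field F] [Field F'] [Algebra F' F] [Ring A]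
    [Algebra F' A] (O : ValuationSubring F) (O' : ValuationSubring F') [Algebra O' O]
    (hc : ∀ a : O', (algebraMap O' O a : F) = algebraMap F' F a) [Ring M] [Algebra O' M]
    (h : IsModel A O' M) : IsModel (F ⊗[F'] A) O (O ⊗[O'] M) := by
  refine ⟨hAZ O' O M h.1, ?_⟩
  letI : Algebra O' F := ((algebraMap F' F).comp (algebraMap O' F')).toAlgebra
  haveI : IsScalarTower O' F' F := IsScalarTower.of_algebraMap_eq fun _ => rfl
  haveI : IsScalarTower O' O F := IsScalarTower.of_algebraMap_eq fun a => (hc a).symm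
  exact BrEq.trans_left ((pull_cancel O' O F M).trans (pull_cancel O' F' F M).symm) (pull_br h.2)

lemma pull_val (hAZ : S_AZ) {K F F' L A : Type} [Field K] [Field F] [Field F'] [Field L]
    [Algebra K F] [Algebra K F'] {ρ : K →+* L} (j : F' →ₐ[K] F) (z : KPt (algebraMap K F) ρ)
    [Ring A] [Algebra F' A]
    {I : (B : Type) → [Ring B] → [Algebra L B] → AddCircle (1 : ℚ) → Prop}
    (hI : ∀ (B C : Type) [Ring B] [Algebra L B] [Ring C] [Algebra L C] (q : AddCircle (1 : ℚ)),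
      (B ≃ₐ[L] C) → I C q → I B q) {q : AddCircle (1 : ℚ)} (h : ValInv A (cm j z).toPt I q) :
    letI := j.toRingHom.toAlgebra
    ValInv (F ⊗[F'] A) z.toPt I q := by
  letI := j.toRingHom.toAlgebra
  obtain ⟨M, _, _, h1, h2⟩ := h
  letI : Algebra (cm j z).O z.O := (j.toRingHom.restrict _ _ fun _ h => h).toAlgebra
  refine ⟨z.O ⊗[(cm j z).O] M, inferInstance, inferInstance,
    pull_model hAZ z.O (cm j z).O (fun _ => rfl) h1, ?_⟩
  letI := z.φ.toAlgebra
  letI := (cm j z).φ.toAlgebra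
  haveI : IsScalarTower (cm j z).O z.O L := IsScalarTower.of_algebraMap_eq fun _ => rfl
  exact hI _ _ q (pull_cancel (cm j z).O z.O L M) h2

theorem p_PULL (hAZ : S_AZ) :
    S_PULL := by
  intro K F F' _ _ _ _ _ _ _ _ j x hx A _ _ hA r q hr hq
  letI := j.toRingHom.toAlgebra
  refine hx (F ⊗[F'] A) (fun O hO => ?_) r q
    (fun ρ => pull_val (I := InvR) hAZ j _ (fun _ _ _ _ _ _ _ e h => InvR.of_equiv e h) (hr ρ))
    (fun v => pull_val (I := InvV v) hAZ j _ (fun _ _ _ _ _ _ _ e h => ?_) (hq v))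
  · obtain ⟨M, _, _, h1⟩ := hA (O.comap j.toRingHom) fun t => by
      change j.toRingHom (t : F') ∈ O
      rw [map_ratCast]
      exact hO t
    letI : Algebra (O.comap j.toRingHom) O := (j.toRingHom.restrict _ _ fun _ h => h).toAlgebra
    exact ⟨O ⊗[O.comap j.toRingHom] M, inferInstance, inferInstance,
      pull_model hAZ O _ (fun _ => rfl) h1⟩
  · obtain ⟨D, _, _, n, c, h1, h2⟩ := h
    exact ⟨D, _, _, n, c, h1.trans_left e, h2⟩

end PULL

section GEN

open NumberField IsDedekindDomain WeierstrassCurve Inv OnePoint Finset Filter Topology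
open TensorProduct Quaternion
open WeierstrassCurve.Affine (Point)
open Pool.Agent.P.MP_6f117a_ag (Place FF)
open scoped Classical IntermediateField

theorem p_GEN :
    S_GEN := by
  intro K F _ _ _ W x y h hx
  have e : W.polynomial.eval₂ (Polynomial.aeval x : Polynomial K →ₐ[K] F) y = 0 := by
    have := (Affine.equation_iff' x y).1 h.1
    simp only [Affine.polynomial, Polynomial.eval₂_sub, Polynomial.eval₂_add, Polynomial.eval₂_mul,
      Polynomial.eval₂_pow, Polynomial.eval₂_C, Polynomial.eval₂_X]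
    simp only [Affine.baseChange, WeierstrassCurve.baseChange, map_a₁, map_a₂, map_a₃, map_a₄,
      map_a₆] at this
    simp
    linear_combination this
  let ψ : W.CoordinateRing →ₐ[K] F := AdjoinRoot.liftAlgHom _ (Polynomial.aeval x) y e
  have hC : ∀ p : Polynomial K, ψ (algebraMap _ _ p) = Polynomial.aeval x p := fun p =>
    AdjoinRoot.lift_of e
  have hY : ψ (AdjoinRoot.root _) = y := AdjoinRoot.lift_root e
  have : Module.Finite (Polynomial K) W.CoordinateRing :=
    Module.Finite.of_basis (Affine.CoordinateRing.basis W)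
  have inj : Function.Injective ψ := by
    refine (RingHom.injective_iff_ker_eq_bot ψ.toRingHom).2
      (Ideal.eq_bot_of_comap_eq_bot (R := Polynomial K) (eq_bot_iff.2 fun p hp => ?_))
    exact (transcendental_iff.1 hx) p ((hC p).symm.trans hp)
  let j : W.FunctionField →ₐ[K] F := IsFractionRing.liftAlgHom inj
  have hj : ∀ a : W.CoordinateRing, j (algebraMap _ _ a) = ψ a := fun a =>
    IsFractionRing.lift_algebraMap inj a
  obtain ⟨X, h1⟩ : ∃ X, j X = x := ⟨_, (hj _).trans ((hC Polynomial.X).trans (Polynomial.aeval_X x))⟩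
  obtain ⟨Y, h2⟩ : ∃ Y, j Y = y := ⟨_, (hj _).trans hY⟩
  refine ⟨j, .some X Y ((W.baseChange_nonsingular j.injective X Y).1 (h1 ▸ h2 ▸ h)), ?_⟩
  rw [Point.map_some]
  congr

end GEN

section APP

open NumberField IsDedekindDomain WeierstrassCurve Inv OnePoint Finset Filter Topology
open TensorProduct Quaternion
open WeierstrassCurve.Affine (Point)
open Pool.Agent.P.MP_6f117a_ag (Place FF)
open scoped Classical IntermediateField

theorem p_APP (hNC : S_NC) (hGEN : S_GEN) (hPULL : S_PULL) :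
    S_APP := by
  intro K F _ _ _ _ _ W _ hK hS x hx f S
  by_cases hf : f ∈ (bc W F).range
  · obtain ⟨Q, rfl⟩ := hf
    exact subset_closure ⟨Q, trivial, funext fun v => ((co_val_eq_iff _ _ _).2 (evl_bc _ Q)).symm⟩
  obtain ⟨a, b, h, rfl, ht⟩ := hNC K F W hK f hf
  obtain ⟨j, g, hg⟩ := hGEN K F W a b h ht
  have := charZero_of_injective_algebraMap (algebraMap K W.FunctionField).injective
  have h1 := hS _ (hPULL K F _ j x hx)
  have h2 : Continuous fun (y : ∀ v : Pl K, CP K W.FunctionField (Kv v)) (v : S) =>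
      co (val (y v.1)) g := by
    refine continuous_pi fun v => ?_
    rcases g with _ | ⟨s, t, -⟩
    · exact continuous_const
    · exact ((continuous_val s).prodMk (continuous_val t)).comp (continuous_apply v.1)
  have h3 := map_mem_closure h2 h1 (t := Diag (W := W) Set.univ S) (by
    rintro y ⟨P, h4, -⟩
    refine ⟨evl (L := K) P g, trivial, funext fun ⟨v, _⟩ => ?_⟩
    have h5 := co_evl (L := K) P g
    beta_reduce
    have h6 : ∀ Q : EP W K, co (fun a => ((algebraMap K (Kv v) a : Kv v) : OnePoint (Kv v))) Q =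
        Prod.map (OnePoint.map (algebraMap K (Kv v))) (OnePoint.map (algebraMap K (Kv v)))
          (co (fun a : K => (a : OnePoint K)) Q) := by rintro (_ | _) <;> rfl
    rw [h4, h6, h5]
    rcases g with _ | ⟨s, t, -⟩
    · rfl
    · exact Prod.ext (val_push P _ s).symm (val_push P _ t).symm)
  simpa only [← co_evl, evl_cm, hg] using h3

end APP

section RC

open NumberField IsDedekindDomain WeierstrassCurve Inv OnePoint Finset Filter Topology
open TensorProduct Quaternion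
open WeierstrassCurve.Affine (Point)
open Pool.Agent.P.MP_6f117a_ag (Place FF)
open scoped Classical IntermediateField

section

variable {K F : Type} [Field K] [Field F] {ι : K →+* F} {ρ : K →+* ℝ}

/-- The finite part of the value. -/
noncomputable def rc_T (f : F) (z : KPt ι ρ) : ℝ := if h : f ∈ z.O then z.φ ⟨f, h⟩ else 0

lemma rc_T_mem {f : F} {z : KPt ι ρ} (h : f ∈ z.O) : rc_T f z = z.φ ⟨f, h⟩ := dif_pos h

lemma rc_val {f : F} {z : KPt ι ρ} (h : f ∈ z.O) : val z f = (rc_T f z : ℝ) := by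
  rw [rc_T_mem h, val_of_mem z h]

lemma rc_inv {f : F} {z : KPt ι ρ} (h : f ∈ z.O) (h0 : rc_T f z ≠ 0) :
    f⁻¹ ∈ z.O ∧ rc_T f⁻¹ z = (rc_T f z)⁻¹ := by
  rw [rc_T_mem h] at h0 ⊢
  obtain ⟨b, hb⟩ := (z.loc.1 _ h0.isUnit).exists_right_inv
  have h1 : f * b = 1 := congrArg Subtype.val hb
  have h2 : f⁻¹ = b := inv_eq_of_mul_eq_one_right h1
  have h3 : f⁻¹ ∈ z.O := h2 ▸ b.2
  refine ⟨h3, ?_⟩
  rw [rc_T_mem h3, show (⟨f⁻¹, h3⟩ : z.O) = b from Subtype.ext h2]
  exact (inv_eq_of_mul_eq_one_right (by rw [← map_mul, hb, map_one])).symm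

/-- The values of `f` converge to the finite value `a`. -/
def rc_G (U : Filter (KPt ι ρ)) (f : F) (a : ℝ) : Prop :=
  (∀ᶠ z in U, f ∈ z.O) ∧ Tendsto (rc_T f) U (𝓝 a)

variable {U : Filter (KPt ι ρ)} {f g : F} {a b : ℝ}

lemma rc_iff : Tendsto (fun z => val z f) U (𝓝 (a : OnePoint ℝ)) ↔ rc_G U f a := by
  have key : (∀ᶠ z in U, f ∈ z.O) → (Tendsto (fun z => val z f) U (𝓝 (a : OnePoint ℝ)) ↔
      Tendsto (rc_T f) U (𝓝 a)) := fun h => by
    rw [isOpenEmbedding_coe.isInducing.tendsto_nhds_iff (f := rc_T f)]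
    exact tendsto_congr' (h.mono fun z hz => rc_val hz)
  refine ⟨fun h => ?_, fun h => (key h.1).2 h.2⟩
  have h1 : ∀ᶠ z in U, f ∈ z.O :=
    (h.eventually (isOpen_range_coe.mem_nhds ⟨a, rfl⟩)).mono fun z ⟨t, ht⟩ =>
      (val_eq_coe.1 ht.symm).1
  exact ⟨h1, (key h1).1 h⟩

lemma rc_const (c : K) : rc_G U (ι c) (ρ c) :=
  rc_iff.1 (by simpa only [val_const] using tendsto_const_nhds)

lemma rc_add (h : rc_G U f a) (h' : rc_G U g b) : rc_G U (f + g) (a + b) := by
  refine ⟨(h.1.and h'.1).mono fun z hz => z.O.add_mem _ _ hz.1 hz.2,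
    (h.2.add h'.2).congr' ((h.1.and h'.1).mono fun z hz => ?_)⟩
  simp only [rc_T_mem hz.1, rc_T_mem hz.2, rc_T_mem (z.O.add_mem _ _ hz.1 hz.2), ← map_add]
  rfl

lemma rc_mul (h : rc_G U f a) (h' : rc_G U g b) : rc_G U (f * g) (a * b) := by
  refine ⟨(h.1.and h'.1).mono fun z hz => z.O.mul_mem _ _ hz.1 hz.2,
    (h.2.mul h'.2).congr' ((h.1.and h'.1).mono fun z hz => ?_)⟩
  simp only [rc_T_mem hz.1, rc_T_mem hz.2, rc_T_mem (z.O.mul_mem _ _ hz.1 hz.2), ← map_mul]
  rfl

lemma rc_ginv (h : rc_G U f a) (ha : a ≠ 0) : rc_G U f⁻¹ a⁻¹ := by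
  have h1 := h.1.and (h.2.eventually_ne ha)
  exact ⟨h1.mono fun z hz => (rc_inv hz.1 hz.2).1,
    (h.2.inv₀ ha).congr' (h1.mono fun z hz => (rc_inv hz.1 hz.2).2.symm)⟩

lemma rc_small (f : F) (z : KPt ι ρ) :
    val z f ∈ ((↑) : ℝ → OnePoint ℝ) '' Metric.closedBall 0 1 ∨
      val z f⁻¹ ∈ ((↑) : ℝ → OnePoint ℝ) '' Metric.closedBall 0 1 := by
  by_cases h : f ∈ z.O
  · by_cases h1 : ‖rc_T f z‖ ≤ 1
    · exact Or.inl ⟨_, mem_closedBall_zero_iff.2 h1, (rc_val h).symm⟩
    · have h0 : rc_T f z ≠ 0 := fun h0 => h1 (by simp [h0])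
      refine Or.inr ⟨_, mem_closedBall_zero_iff.2 ?_, (rc_val (rc_inv h h0).1).symm⟩
      rw [(rc_inv h h0).2, norm_inv]
      exact inv_le_one_of_one_le₀ (not_le.1 h1).le
  · exact Or.inr ⟨0, by simp, (val_inv_of_notMem z h).symm⟩

end

theorem p_RC :
    S_RC := by
  intro K F _ _ ι ρ
  refine ⟨isCompact_iff_ultrafilter_le_nhds.2 fun U _ => ?_⟩
  have hinf : ∀ f : F, (¬ ∃ a, rc_G (U : Filter (KPt ι ρ)) f a) →
      Tendsto (fun z => val z f) U (𝓝 (∞ : OnePoint ℝ)) := fun f hf => by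
    obtain ⟨x, -, hx⟩ := isCompact_univ.ultrafilter_le_nhds (U.map fun z => val z f) (by simp)
    induction x using OnePoint.rec with
    | infty => exact hx
    | coe a => exact (hf ⟨a, rc_iff.1 hx⟩).elim
  have huniq : ∀ {f : F} {a b : ℝ}, rc_G (U : Filter (KPt ι ρ)) f a →
      rc_G (U : Filter (KPt ι ρ)) f b → a = b :=
    fun h h' => tendsto_nhds_unique h.2 h'.2
  have h0 : rc_G (U : Filter (KPt ι ρ)) 0 0 := by simpa using rc_const (U := U) (ι := ι) (ρ := ρ) 0
  have h1 : rc_G (U : Filter (KPt ι ρ)) 1 1 := by simpa using rc_const (U := U) (ι := ι) (ρ := ρ) 1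
  have hn : rc_G (U : Filter (KPt ι ρ)) (-1) (-1) := by
    simpa using rc_const (U := U) (ι := ι) (ρ := ρ) (-1)
  have hb : (((↑) : ℝ → OnePoint ℝ) '' Metric.closedBall 0 1)ᶜ ∈ 𝓝 (∞ : OnePoint ℝ) :=
    ((isCompact_closedBall _ _).image OnePoint.continuous_coe).isClosed.isOpen_compl.mem_nhds (by
      rintro ⟨t, -, h⟩
      exact coe_ne_infty _ h)
  let O : ValuationSubring F :=
    { carrier := {f | ∃ a, rc_G (U : Filter (KPt ι ρ)) f a}
      mul_mem' := fun ⟨_, h⟩ ⟨_, h'⟩ => ⟨_, rc_mul h h'⟩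
      one_mem' := ⟨_, h1⟩
      add_mem' := fun ⟨_, h⟩ ⟨_, h'⟩ => ⟨_, rc_add h h'⟩
      zero_mem' := ⟨_, h0⟩
      neg_mem' := fun ⟨_, h⟩ => ⟨_, by simpa using rc_mul hn h⟩
      mem_or_inv_mem' := fun f => by_contra fun h => by
        obtain ⟨z, hz⟩ := (((hinf f fun k => h (Or.inl k)).eventually hb).and
          ((hinf f⁻¹ fun k => h (Or.inr k)).eventually hb)).exists
        exact (rc_small f z).elim hz.1 hz.2 }
  have hs : ∀ x : O, rc_G (U : Filter (KPt ι ρ)) (x : F) (Exists.choose x.2) :=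
    fun x => Exists.choose_spec x.2
  let φ : O →+* ℝ :=
    { toFun := fun x => Exists.choose x.2
      map_one' := huniq (hs 1) h1
      map_mul' := fun x y => huniq (hs (x * y)) (rc_mul (hs x) (hs y))
      map_zero' := huniq (hs 0) h0
      map_add' := fun x y => huniq (hs (x + y)) (rc_add (hs x) (hs y)) }
  let P : KPt ι ρ :=
    { O := O
      φ := φ
      loc := ⟨fun x hx => by
        have h2 : (x : F) ≠ 0 := fun h => hx.ne_zero (by
          rw [show x = 0 from Subtype.ext h, map_zero])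
        exact IsUnit.of_mul_eq_one (⟨(x : F)⁻¹, _, rc_ginv (hs x) hx.ne_zero⟩ : O)
          (Subtype.ext (mul_inv_cancel₀ h2))⟩
      mem := fun c => ⟨_, rc_const c⟩
      comm := fun c => huniq (hs ⟨ι c, _, rc_const c⟩) (rc_const c) }
  refine ⟨P, trivial, ?_⟩
  rw [nhds_induced, ← map_le_iff_le_comap]
  refine tendsto_pi_nhds.2 fun f => ?_
  by_cases h : f ∈ P.O
  · rw [val_of_mem P h]
    exact rc_iff.2 (hs ⟨f, h⟩)
  · rw [val_of_notMem P h]
    exact hinf f h

end RC

section RS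

open NumberField IsDedekindDomain WeierstrassCurve Inv OnePoint Finset Filter Topology
open TensorProduct Quaternion
open WeierstrassCurve.Affine (Point)
open Pool.Agent.P.MP_6f117a_ag (Place FF)
open scoped Classical IntermediateField

/-- A subring of continuous functions with the rational constants that separates points is dense. -/
lemma rs_dense {X : Type} [TopologicalSpace X] [CompactSpace X] (T : Subring C(X, ℝ))
    (hq : ∀ q : ℚ, algebraMap ℝ C(X, ℝ) q ∈ T)
    (hs : ∀ x y : X, x ≠ y → ∃ h ∈ T, h x ≠ h y) (c : C(X, ℝ)) :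
    ∃ h ∈ T, ∀ x, |c x - h x| < 1 := by
  let A : Subalgebra ℝ C(X, ℝ) :=
    { T.topologicalClosure with
      algebraMap_mem' := fun r => Rat.denseRange_cast.induction_on r
        (isClosed_closure.preimage (continuous_algebraMap ℝ C(X, ℝ)))
        fun q => subset_closure (hq q) }
  have h1 : A.SeparatesPoints := fun x y h => by
    obtain ⟨g, h2, h3⟩ := hs x y h
    exact ⟨g, ⟨g, subset_closure h2, rfl⟩, h3⟩
  have h2 : c ∈ closure (closure (T : Set C(X, ℝ))) :=
    ContinuousMap.continuousMap_mem_subalgebra_closure_of_separatesPoints A h1 c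
  rw [closure_closure, Metric.mem_closure_iff] at h2
  obtain ⟨g, h3, h4⟩ := h2 1 one_pos
  exact ⟨g, h3, fun x => (ContinuousMap.dist_apply_le_dist x).trans_lt h4⟩

section

variable {K F : Type} [Field K] [Field F] {ι : K →+* F} {ρ : K →+* ℝ} {z : KPt ι ρ} {f g : F}
  {a b : ℝ}

lemma rs_add (h : val z f = a) (h' : val z g = b) : val z (f + g) = (a + b : ℝ) := by
  obtain ⟨h1, rfl⟩ := val_eq_coe.1 h
  obtain ⟨h2, rfl⟩ := val_eq_coe.1 h'
  exact val_eq_coe.2 ⟨add_mem h1 h2, map_add z.φ ⟨f, h1⟩ ⟨g, h2⟩⟩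

lemma rs_mul (h : val z f = a) (h' : val z g = b) : val z (f * g) = (a * b : ℝ) := by
  obtain ⟨h1, rfl⟩ := val_eq_coe.1 h
  obtain ⟨h2, rfl⟩ := val_eq_coe.1 h'
  exact val_eq_coe.2 ⟨mul_mem h1 h2, map_mul z.φ ⟨f, h1⟩ ⟨g, h2⟩⟩

lemma rs_neg (h : val z f = a) : val z (-f) = (-a : ℝ) := by
  obtain ⟨h1, rfl⟩ := val_eq_coe.1 h
  exact val_eq_coe.2 ⟨neg_mem h1, map_neg z.φ ⟨f, h1⟩⟩

lemma rs_one : val z 1 = (1 : ℝ) := val_eq_coe.2 ⟨one_mem _, map_one z.φ⟩

lemma rs_zero : val z 0 = (0 : ℝ) := val_eq_coe.2 ⟨zero_mem _, map_zero z.φ⟩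

lemma rs_inv (h : val z f = a) (h0 : a ≠ 0) : val z f⁻¹ = (a⁻¹ : ℝ) := by
  obtain ⟨h1, rfl⟩ := val_eq_coe.1 h
  obtain ⟨u, hu⟩ := (z.loc.1 _ (Ne.isUnit h0)).exists_right_inv
  have h2 : f⁻¹ = u := inv_eq_of_mul_eq_one_right (congrArg Subtype.val hu)
  rw [h2]
  refine val_eq_coe.2 ⟨u.2, (inv_eq_of_mul_eq_one_right ?_).symm⟩
  rw [← map_mul]
  exact (congrArg z.φ hu).trans (map_one _)

lemma rs_fin (h : val z f = a) : val z (1 + f * f)⁻¹ = ((1 + a * a)⁻¹ : ℝ) ∧
    val z (f * (1 + f * f)⁻¹) = (a * (1 + a * a)⁻¹ : ℝ) := by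
  have h1 := rs_inv (rs_add rs_one (rs_mul h h)) (by nlinarith [mul_self_nonneg a])
  exact ⟨h1, rs_mul h h1⟩

lemma rs_pole (h : val z f = ∞) : val z (1 + f * f)⁻¹ = (0 : ℝ) ∧
    val z (f * (1 + f * f)⁻¹) = (0 : ℝ) := by
  have h1 := val_inv_of_notMem z (val_eq_infty.1 h)
  have h2 := (rs_fin h1).2
  have h0 : f ≠ 0 := fun h0 => infty_ne_coe _ (h.symm.trans (h0 ▸ rs_zero))
  have e : (1 + f * f)⁻¹ = f⁻¹ * (f⁻¹ * (1 + f⁻¹ * f⁻¹)⁻¹) := by
    rw [← mul_inv, ← mul_inv, ← mul_inv]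
    congr 1
    field_simp
    ring
  refine ⟨?_, ?_⟩
  · rw [e, rs_mul h1 h2, zero_mul]
  · rw [e, mul_inv_cancel_left₀ h0, h2, zero_mul]

lemma rs_cont (h : ∀ z : KPt ι ρ, ∃ t : ℝ, val z f = t) :
    ∃ c : C(KPt ι ρ, ℝ), ∀ z, val z f = c z := by
  choose c hc using h
  refine ⟨⟨c, isOpenEmbedding_coe.isInducing.continuous_iff.2 ?_⟩, hc⟩
  exact (continuous_val f).congr hc

/-- The functions without real pole. -/
def rs_T (ι : K →+* F) (ρ : K →+* ℝ) : Subring C(KPt ι ρ, ℝ) where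
  carrier := {c | ∃ f : F, ∀ z, val z f = c z}
  mul_mem' := fun ⟨f, h⟩ ⟨g, h'⟩ => ⟨f * g, fun z => rs_mul (h z) (h' z)⟩
  one_mem' := ⟨1, fun _ => rs_one⟩
  add_mem' := fun ⟨f, h⟩ ⟨g, h'⟩ => ⟨f + g, fun z => rs_add (h z) (h' z)⟩
  zero_mem' := ⟨0, fun _ => rs_zero⟩
  neg_mem' := fun ⟨f, h⟩ => ⟨-f, fun z => rs_neg (h z)⟩

lemma rs_sep (x y : KPt ι ρ) (h : x ≠ y) : ∃ c ∈ rs_T ι ρ, c x ≠ c y := by
  by_contra! hc
  refine h (val_injective (funext fun f => ?_))
  have k : ∀ g : F, (∀ z : KPt ι ρ, ∃ t : ℝ, val z g = t) → val x g = val y g := fun g hg => by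
    obtain ⟨c, h1⟩ := rs_cont hg
    rw [h1, h1, hc c ⟨g, h1⟩]
  have h1 := k (1 + f * f)⁻¹ fun z => by
    rcases h2 : val z f with _ | t
    · exact ⟨_, (rs_pole h2).1⟩
    · exact ⟨_, (rs_fin h2).1⟩
  have h2 := k (f * (1 + f * f)⁻¹) fun z => by
    rcases h2 : val z f with _ | t
    · exact ⟨_, (rs_pole h2).2⟩
    · exact ⟨_, (rs_fin h2).2⟩
  have p : ∀ t : ℝ, (1 + t * t)⁻¹ ≠ 0 := fun t => inv_ne_zero (by nlinarith [mul_self_nonneg t])
  rcases hx : val x f with _ | s <;> rcases hy : val y f with _ | t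
  · rfl
  · rw [(rs_pole hx).1, (rs_fin hy).1] at h1
    exact absurd (coe_injective h1).symm (p t)
  · rw [(rs_pole hy).1, (rs_fin hx).1] at h1
    exact absurd (coe_injective h1) (p s)
  · rw [(rs_fin hx).1, (rs_fin hy).1] at h1
    rw [(rs_fin hx).2, (rs_fin hy).2, coe_injective h1] at h2
    exact congrArg _ (mul_right_cancel₀ (p t) (coe_injective h2))

end

theorem p_RS (hRC : S_RC) :
    S_RS := by
  intro K F _ _ ι ρ y y' h
  have := hRC K F ι ρ
  have : T2Space (KPt ι ρ) := IsEmbedding.t2Space (f := val) ⟨⟨rfl⟩, val_injective⟩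
  rw [connectedComponent_eq_iInter_isClopen, Set.mem_iInter, not_forall] at h
  obtain ⟨⟨U, hU, h1⟩, h2⟩ := h
  have hc : Continuous fun z : KPt ι ρ => if z ∈ U then (-1 : ℝ) else 1 :=
    continuous_const.if (fun a ha => by
      rw [Set.ofPred_mem_eq, hU.frontier_eq] at ha; exact ha.elim) continuous_const
  obtain ⟨c, ⟨g, hg⟩, h3⟩ := rs_dense (rs_T ι ρ)
    (fun q => ⟨ι q, fun z => (val_const z _).trans (congrArg _ (map_ratCast ρ q))⟩) rs_sep ⟨_, hc⟩
  have h4 : ∀ z ∈ U, c z < 0 := fun z hz => by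
    have := (abs_lt.1 (h3 z)).1
    simp only [ContinuousMap.coe_mk, if_pos hz] at this
    linarith
  have h5 : ∀ z ∉ U, 0 < c z := fun z hz => by
    have := (abs_lt.1 (h3 z)).2
    simp only [ContinuousMap.coe_mk, if_neg hz] at this
    linarith
  refine ⟨g, c y, c y', fun z => ⟨c z, ?_, hg z⟩, h5 y h2, h4 y' h1, hg y, hg y'⟩
  by_cases hz : z ∈ U
  · exact (h4 z hz).ne
  · exact (h5 z hz).ne'

end RS

section TOPB

open NumberField IsDedekindDomain WeierstrassCurve Inv OnePoint Finset Filter Topology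
open TensorProduct Quaternion
open WeierstrassCurve.Affine (Point)
open Pool.Agent.P.MP_6f117a_ag (Place FF)
open scoped Classical IntermediateField

theorem p_TOPB (hTOPA : S_TOPA) (hAPP : S_APP) (hRAT : S_RAT) (hREAL : S_REAL) (hEV : S_EV) :
    S_TOPB := by
  intro K F _ _ _ _ W _ hF hK hr ⟨f0, g0, hi⟩ hs hS x hx
  have := charZero_of_injective_algebraMap (algebraMap K F).injective
  obtain ⟨P, hP⟩ := hr
  obtain ⟨R, hR⟩ := cov_of ⊤ (P := ⟨P, trivial⟩) ⟨by
    rw [← AddSubgroup.index_map_equiv _ AddSubgroup.topEquiv, AddMonoidHom.map_zmultiples]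
    exact hP.1⟩
  have h1 : ∀ f, Ind f g0 → ∃ Q : EP W K, ∀ v, evl (x.fin v) f = bc W (Kv v) Q := fun f hf => by
    obtain ⟨Q, -, hQ⟩ := hTOPA K F W hF hK ⊤ P R hR Set.univ (by simp) f g0 hf
      (fun v => evl (x.fin v.1) f) (fun v => evl (x.fin v.1) g0)
      (fun v => ⟨_, _, _, AlgHom.id K _, x.fin v.1, by rcases evl _ f with _ | _ <;> rfl,
        by rcases evl _ g0 with _ | _ <;> rfl⟩)
      (by simpa only [co_evl, AddSubgroup.coe_top] using hAPP K F W hK hS x hx f _)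
      (by simpa only [co_evl, AddSubgroup.coe_top] using hAPP K F W hK hS x hx g0 _)
    exact ⟨Q, fun v => hQ ⟨v, trivial⟩⟩
  have h2 : ∀ f, ∃ Q : EP W K, ∀ v, evl (x.fin v) f = bc W (Kv v) Q := fun f => by
    by_cases h3 : Ind f g0
    · exact h1 f h3
    obtain ⟨Q, hQ⟩ := h1 f0 hi
    obtain ⟨Q', hQ'⟩ := h1 (f + f0) fun m' n' k2 => by
      obtain ⟨m, n, k1, k3⟩ : ∃ m n : ℤ, m • f + n • g0 ∈ (bc W F).range ∧ ¬ (m = 0 ∧ n = 0) := by
        simpa only [Ind, not_forall, exists_prop] using h3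
      have k4 : m ≠ 0 := by
        rintro rfl
        exact k3 (hi 0 n (by simpa using k1))
      have k5 := hi (m * m') (m * n' - m' * n) (by
        convert sub_mem (zsmul_mem k2 m) (zsmul_mem k1 m') using 1
        module)
      obtain rfl : m' = 0 := (mul_eq_zero.1 k5.1).resolve_left k4
      exact hi 0 n' (by simpa using k2)
    exact ⟨Q' - Q, fun v => by rw [map_sub, ← hQ, ← hQ', hEV, add_sub_cancel_right]⟩
  choose Q hQ using h2
  have h4 : ∀ v, Fib Q (x.fin v) := fun v f => (co_val_eq_iff _ _ _).2 (hQ f v)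
  obtain ⟨P, hP⟩ := hRAT K F W hF hK ⟨f0, fun h => one_ne_zero (hi 1 0 (by simpa using h)).1⟩ Q
    x.fin h4 (hs Q fun v => ⟨_, h4 v⟩)
  exact subset_closure ⟨P, hP, hREAL K F hF hK x hx P hP⟩

end TOPB

end Pool.Agent.P.MP_ab3ecb_nt.R1
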