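import Pool.Agent.P.MP_ab3ecb_nt.R1.IfaceR
import Pool.Agent.P.MP_ab3ecb_nt.Inv.G.Cert

/-! Steps RG RTA RT. -/

set_option autoImplicit false
set_option linter.unusedSectionVars false
set_option linter.unusedVariables false
set_option linter.ambiguousOpen false

namespace Pool.Agent.P.MP_ab3ecb_nt.R1

section RG

open NumberField IsDedekindDomain WeierstrassCurve Inv OnePoint Finset Filter Topology
open TensorProduct Quaternion
open WeierstrassCurve.Affine (Point)
open Pool.Agent.P.MP_6f117a_ag (Place FF)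
open scoped Classical IntermediateField

lemma rg_par {α : Type} (n : α → ℤ) (s : Finset α) :
    Even (∑ a ∈ s, n a) ↔ Even (s.filter fun a => Odd (n a)).card := by
  induction s using Finset.induction_on with
  | empty => simp
  | insert a s ha ih =>
    rw [sum_insert ha, filter_insert, Int.even_add, ih]
    split_ifs with h
    · rw [card_insert_of_notMem (fun h1 => ha (mem_filter.1 h1).1), Nat.even_add_one]
      have := Int.not_even_iff_odd.2 h
      tauto
    · have := Int.not_odd_iff_even.1 h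
      tauto

lemma rg_half {α : Type} (ι : α → α) (hι : ∀ a, ι (ι a) = a) (n : α → ℤ)
    (hn : ∀ a, n (ι a) = n a) (hf : ∀ a, ι a = a → n a = 0) (Z : Finset α)
    (hZ : ∀ a, a ∈ Z ↔ n a ≠ 0) (h0 : ∑ a ∈ Z, n a = 0) :
    ∃ S : Finset α, Even S.card ∧ ∀ a, Even (n a) ↔ (a ∈ S ↔ ι a ∈ S) := by
  obtain ⟨_, -⟩ := exists_wellFoundedLT α
  have h1 : ∑ a ∈ Z.filter (fun a => a < ι a), n a = ∑ a ∈ Z.filter (fun a => ¬ a < ι a), n a := by
    refine sum_nbij' ι ι (fun a ha => ?_) (fun a ha => ?_) (fun a _ => hι a) (fun a _ => hι a)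
      fun a _ => (hn a).symm
    · simp only [mem_filter, hZ, hn, hι] at ha ⊢
      exact ⟨ha.1, ha.2.le.not_gt⟩
    · simp only [mem_filter, hZ, hn, hι] at ha ⊢
      exact ⟨ha.1, lt_of_le_of_ne (not_lt.1 ha.2) fun h => ha.1 (hf a h)⟩
  have h2 := sum_filter_add_sum_filter_not Z (fun a => a < ι a) n
  have h3 : ∑ a ∈ Z.filter (fun a => a < ι a), n a = 0 := by omega
  refine ⟨_, (rg_par n (Z.filter fun a => a < ι a)).1 (h3 ▸ Even.zero), fun a => ?_⟩
  simp only [mem_filter, hZ, hn, hι, ← Int.not_even_iff_odd]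
  by_cases h : Even (n a)
  · simp [h]
  · have h4 : n a ≠ 0 := fun h4 => h (h4 ▸ Even.zero)
    rcases lt_or_gt_of_ne (fun h5 => h4 (hf a h5) : ι a ≠ a) with h5 | h5
    · simp [h, h4, h5, h5.le.not_gt]
    · simp [h, h4, h5, h5.le.not_gt]

section

variable {K F k Fb : Type} [Field K] [Field F] [Algebra K F] [Field k]
  [IsAlgClosed k] [Algebra K k] [Field Fb] [Algebra k Fb] [FF k Fb]
  {j : F →+* Fb} {act : (k ≃ₐ[K] k) →* RingAut Fb}

lemma rg_fix (h : CE j act) {ρ : K →+* ℝ} {σ : k →+* ℂ} {c : k ≃ₐ[K] k}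
    (hρ : ∀ a, σ (algebraMap K k a) = ρ a) (hc : ∀ z, σ (c z) = starRingEnd ℂ (σ z)) {g : F}
    (hg : NZ (algebraMap K F) ρ g) (Q : Place k Fb) (hQ : (h.sa c).pl Q = Q) :
    ord Q (j g) = 0 := by
  let O : ValuationSubring F := Q.v.valuationSubring.comap j
  have hO : ∀ w : O, Q.v (j.comp O.subtype w) ≤ 1 := fun w => w.2
  have hr : ∀ w : O, ((σ (evHom Q _ hO w)).re : ℂ) = σ (evHom Q _ hO w) := fun w => by
    rw [← Complex.conj_eq_iff_re, ← hc]
    have := h.ev_pl c Q w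
    rw [hQ] at this
    exact congrArg σ this.symm
  let φ : O →+* ℝ :=
    { toFun := fun w => (σ (evHom Q _ hO w)).re
      map_one' := by simp
      map_zero' := by simp
      map_mul' := fun a b => Complex.ofReal_injective (by
        rw [Complex.ofReal_mul, hr, hr, hr, map_mul, map_mul])
      map_add' := fun a b => by simp }
  have hφ : ∀ w : O, φ w ≠ 0 → Q.v (j w) = 1 := fun w hw => by
    refine (hO w).eq_or_lt.resolve_right fun h1 => hw ?_
    change (σ (Inv.ev Q (j w))).re = 0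
    rw [ev_of_lt (show Q.v (j w) < 1 from h1), map_zero, Complex.zero_re]
  have hm : ∀ a, algebraMap K F a ∈ O := fun a => by
    change Q.v (j _) ≤ 1
    rw [h.comm]
    exact Q.triv _
  let y : KPt (algebraMap K F) ρ :=
    { O := O
      φ := φ
      loc := ⟨fun w hw => by
        have h1 := hφ w hw.ne_zero
        have h2 : (w : F) ≠ 0 := fun h2 => by simp [h2] at h1
        refine IsUnit.of_mul_eq_one (⟨(w : F)⁻¹, ?_⟩ : O) (Subtype.ext (mul_inv_cancel₀ h2))
        change Q.v (j _) ≤ 1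
        rw [map_inv₀, map_inv₀, h1, inv_one]⟩
      mem := hm
      comm := fun a => by
        change (σ (Inv.ev Q (j (algebraMap K F a)))).re = _
        rw [h.comm, ev_const, hρ, Complex.ofReal_re] }
  obtain ⟨t, ht, h1⟩ := hg y
  obtain ⟨h2, h3⟩ := val_eq_coe.1 h1
  have h4 := hφ ⟨g, h2⟩ (fun h5 => ht (h3.symm.trans h5))
  exact (eq_one_iff (ne_zero_of_v_one h4)).1 h4

omit [IsAlgClosed k] in
lemma rg_dich (L0 : IntermediateField K k) [FiniteDimensional K L0] [IsGalois K L0]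
    (c : k ≃ₐ[K] k) (hc : c * c = 1) (τ : k ≃ₐ[K] k)
    (hτ : τ ∈ (L0 ⊓ IntermediateField.fixedField (Subgroup.zpowers c)).fixingSubgroup) :
    AlgEquiv.restrictNormalHom L0 τ = 1 ∨
      AlgEquiv.restrictNormalHom L0 τ = AlgEquiv.restrictNormalHom L0 c := by
  have e : ∀ (υ : k ≃ₐ[K] k) (x : L0), (AlgEquiv.restrictNormalHom L0 υ x : k) = υ x :=
    fun υ x => AlgEquiv.restrictNormal_commutes υ L0 x
  have h1 : AlgEquiv.restrictNormalHom L0 τ ∈
      Subgroup.zpowers (AlgEquiv.restrictNormalHom L0 c) := by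
    rw [← IntermediateField.fixingSubgroup_fixedField (Subgroup.zpowers _),
      IntermediateField.mem_fixingSubgroup_iff]
    intro x hx
    have h2 : c x = x := (e c x).symm.trans (congrArg Subtype.val
      ((IntermediateField.mem_fixedField_iff _ _).1 hx _ (Subgroup.mem_zpowers _)))
    refine Subtype.ext ((e τ x).trans ((IntermediateField.mem_fixingSubgroup_iff _ _).1 hτ x
      ⟨x.2, (IntermediateField.mem_fixedField_iff _ _).2 fun υ hυ => ?_⟩))
    exact (Subgroup.zpowers_le (H := MulAction.stabilizer (k ≃ₐ[K] k) (x : k))).2 h2 hυ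
  obtain ⟨n, hn⟩ := Subgroup.mem_zpowers_iff.1 h1
  have h2 : AlgEquiv.restrictNormalHom L0 c ^ (2 : ℤ) = 1 := by
    rw [zpow_two, ← map_mul, hc, map_one]
  rcases Int.even_or_odd' n with ⟨m, rfl | rfl⟩
  · exact Or.inl (by rw [← hn, zpow_mul, h2, one_zpow])
  · exact Or.inr (by rw [← hn, zpow_add, zpow_mul, h2, one_zpow, one_mul, zpow_one])

end

theorem p_RG (hJDIV : Inv.S_JDIV) (hLZ : Inv.S_LZ) :
    S_RG := by
  intro K F k Fb _ _ _ _ _ _ _ _ _ _ _ j act hG ρ σ c hρ hc g hg0 hg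
  have h := hG.toCE
  have : CharZero k := charZero_of_injective_algebraMap (algebraMap K k).injective
  have : CharZero Fb := charZero_of_injective_algebraMap (algebraMap k Fb).injective
  have hcc : c * c = 1 := AlgEquiv.ext fun z => σ.injective (by
    rw [AlgEquiv.mul_apply, hc, hc, Complex.conj_conj, AlgEquiv.one_apply])
  have ha : ∀ (τ υ : k ≃ₐ[K] k) z, act (τ * υ) z = act τ (act υ z) := fun τ υ z => by
    rw [map_mul]; rfl
  have haa : ∀ z, act c (act c z) = z := fun z => by rw [← ha, hcc, map_one]; rfl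
  have hι : ∀ P, (h.sa c).pl ((h.sa c).pl P) = P := fun P => (h.sa c).pl_eq_iff.2 fun z => by
    rw [← (h.sa c).pl_v P, h.sa_s, haa]
  obtain ⟨S, hS, hS'⟩ := rg_half (h.sa c).pl hι (fun P => ord P (j g))
    (fun P => h.ord_pl c P g) (rg_fix h hρ hc hg) (dv k (j g)).support
    (fun P => by rw [Finsupp.mem_support_iff, dv_apply])
    (by simpa only [deg_eq, dv_apply] using deg_dv (k := k) (j g))
  obtain ⟨t, ht⟩ := hG.tr
  obtain ⟨z, hz0, hz⟩ := hJDIV k Fb ⟨_, ht⟩ S hS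
  obtain ⟨i, hi⟩ := IsAlgClosed.exists_pow_nat_eq (-1 : k) two_pos
  have hci : c i = -i := by
    have h1 : c i ^ 2 = i ^ 2 := by rw [← map_pow, hi, map_neg, map_one]
    refine (sq_eq_sq_iff_eq_or_eq_neg.1 h1).resolve_left fun h2 => ?_
    have h3 := Complex.conj_eq_iff_re.1 ((hc i).symm.trans (congrArg σ h2))
    have h4 : σ i ^ 2 = -1 := by rw [← map_pow, hi, map_neg, map_one]
    rw [← h3] at h4
    have h5 : (σ i).re ^ 2 = -1 := by exact_mod_cast h4
    nlinarith [sq_nonneg (σ i).re]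
  obtain ⟨L0, _, _, hL1, hL2⟩ := hLZ K F k Fb j act hG {i} {z} (Set.finite_singleton _)
    (Set.finite_singleton _)
  have hk : ∀ υ : k ≃ₐ[K] k, AlgEquiv.restrictNormalHom L0 υ = 1 → act υ z = z ∧ υ i = i := by
    intro υ hυ
    have h1 : ∀ x ∈ L0, υ x = x := fun x hx =>
      (AlgEquiv.restrictNormal_commutes υ L0 ⟨x, hx⟩).symm.trans
        (congrArg (fun f : L0 ≃ₐ[K] L0 => (f ⟨x, hx⟩ : k)) hυ)
    exact ⟨hL2 z rfl υ ((IntermediateField.mem_fixingSubgroup_iff _ _).2 h1), h1 i (hL1 i rfl)⟩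
  have hr2 : AlgEquiv.restrictNormalHom L0 c * AlgEquiv.restrictNormalHom L0 c = 1 := by
    rw [← map_mul, hcc, map_one]
  have key : ∀ τ ∈ (L0 ⊓ IntermediateField.fixedField (Subgroup.zpowers c)).fixingSubgroup,
      (act τ z = z ∧ act τ (act c z) = act c z ∧ τ i = i) ∨
        (act τ z = act c z ∧ act τ (act c z) = z ∧ τ i = -i) := by
    intro τ hτ
    rcases rg_dich L0 c hcc τ hτ with h1 | h1
    · refine Or.inl ⟨(hk τ h1).1, ?_, (hk τ h1).2⟩
      have h2 := (hk (c * (τ * c)) (by rw [map_mul, map_mul, h1, one_mul, hr2])).1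
      rw [ha, ha] at h2
      rw [← haa (act τ _), h2]
    · have h2 := hk (c * τ) (by rw [map_mul, h1, hr2])
      have h3 := (hk (τ * c) (by rw [map_mul, h1, hr2])).1
      rw [ha] at h2 h3
      refine Or.inr ⟨by rw [← haa (act τ _), h2.1], h3, c.injective ?_⟩
      rw [map_neg, hci, neg_neg]
      exact h2.2
  have hI : algebraMap k Fb i ^ 2 = -1 := by rw [← map_pow, hi, map_neg, map_one]
  have hI0 : algebraMap k Fb i ≠ 0 := fun h0 => by simp [h0] at hI
  have hz1 : act c z ≠ 0 := (map_ne_zero _).2 hz0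
  have hj : j g ≠ 0 := (map_ne_zero _).2 hg0
  refine ⟨L0 ⊓ IntermediateField.fixedField (Subgroup.zpowers c), (z + act c z) / 2,
    (z - act c z) / (2 * algebraMap k Fb i),
    FiniteDimensional.of_injective (IntermediateField.inclusion inf_le_left).toLinearMap
      (IntermediateField.inclusion_injective inf_le_left),
    fun x hx => (IntermediateField.mem_fixedField_iff _ _).1 hx.2 c (Subgroup.mem_zpowers _),
    fun τ hτ => ?_, fun τ hτ => ?_, ?_⟩
  · rw [map_div₀, map_add, map_ofNat]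
    rcases key τ hτ with ⟨h1, h2, -⟩ | ⟨h1, h2, -⟩
    · rw [h1, h2]
    · rw [h1, h2, add_comm]
  · rw [map_div₀, map_sub, map_mul, map_ofNat, h.semi]
    rcases key τ hτ with ⟨h1, h2, h3⟩ | ⟨h1, h2, h3⟩
    · rw [h1, h2, h3]
    · rw [h1, h2, h3, map_neg, mul_neg, div_neg, ← neg_div, neg_sub]
  · have e : ((z + act c z) / 2) ^ 2 + ((z - act c z) / (2 * algebraMap k Fb i)) ^ 2 =
        z * act c z := by
      rw [div_pow, div_pow, mul_pow, hI]
      ring
    rw [e]
    refine ⟨mul_ne_zero hj (mul_ne_zero hz0 hz1), fun P => ?_⟩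
    have h1 : ord P (act c z) = ord ((h.sa c).pl P) z := by
      rw [← (h.sa c).ord_pl ((h.sa c).pl P) z, hι, h.sa_s]
    rw [ord_mul P hj (mul_ne_zero hz0 hz1), ord_mul P hz0 hz1, h1, Int.even_add, Int.even_add',
      hz, hz]
    exact hS' P

end RG

section RTA

open NumberField IsDedekindDomain WeierstrassCurve Inv OnePoint Finset Filter Topology
open TensorProduct Quaternion
open WeierstrassCurve.Affine (Point)
open Pool.Agent.P.MP_6f117a_ag (Place FF)
open scoped Classical IntermediateField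

theorem p_RTA (hTRL : Inv.S_TRL) (hFC : Inv.S_FC) :
    S_RTA := by
  intro K F k Fb _ _ _ _ _ _ _ _ _ _ _ j act hG E0 A _ _ _ a0 i hO
  have : CharZero F := charZero_of_injective_algebraMap (algebraMap K F).injective
  have : IsDomain A := hO.inj.isDomain a0
  obtain ⟨t1, -, t3⟩ := hTRL K F k Fb j act hG E0 A a0 i hO
  set ρ0 := (algebraMap K F).comp (algebraMap (𝓞 K) K) with hρ0
  have top : ∀ z, Fx act E0 z → ∃ u, th j a0 u = z := fun z hz => by
    obtain ⟨u, hu⟩ := t3 ⊤ (fun _ => trivial) z hz fun P hP => by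
      have : Submodule.span k (Set.range j) ≤ P.le 0 :=
        Submodule.span_le.2 (by rintro _ ⟨w, rfl⟩; exact (hP w).1 trivial)
      exact this (hG.top ▸ Submodule.mem_top)
    exact ⟨_, hu⟩
  obtain ⟨r, hr0, hr⟩ := exists_dual (𝓞 K)
  replace hr := hr r dvd_rfl
  obtain ⟨eF, heF⟩ := exists_isD hr (by
    simpa using (Ne.isUnit (Int.cast_ne_zero.2 hr0 : (r : F) ≠ 0)).map (algebraMap F (F ⊗[ℤ] A)))
    ((algebraMap F (F ⊗[ℤ] A)).comp ρ0) ((inc A F).comp i)
  have hE : ∀ W : ValuationSubring F, ∃ e : W ⊗[ℤ] A, ∀ hW : ∀ c, algebraMap K F c ∈ W,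
      IsD ((algebraMap W (W ⊗[ℤ] A)).comp (ρ0.codRestrict W fun z => hW _)) ((inc A W).comp i) e ∧
      ∀ z, z ∈ dT (ρ0.codRestrict W fun z => hW _) i ↔ tm A W.subtype z ∈ dT ρ0 i := fun W => by
    by_cases hW : ∀ c, algebraMap K F c ∈ W
    · obtain ⟨e, he⟩ := cert_desc hr i (W := W) (ρ := ρ0.codRestrict W fun z => hW _)
        (fun _ => rfl) (IsUnit.of_mul_eq_one ⟨_, hW (r : K)⁻¹⟩ (Subtype.ext (by
          simp [hr0]))) (hFC F A W).1
      exact ⟨e, fun _ => he⟩
    · exact ⟨0, fun h => absurd h hW⟩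
  choose e he using hE
  have gF : ∀ u z, th j a0 u = z → pj eF (Function.invFun (th j a0) z) = pj eF u := fun u z h =>
    heF.pj_congr ((t1 _).1 (by rw [map_sub, Function.invFun_eq ⟨u, h⟩, h, sub_self]))
  have gW : ∀ (W : ValuationSubring F) (hW : ∀ c, algebraMap K F c ∈ W) u z,
      th j a0 (tm A W.subtype u) = z →
      pj (e W) (Function.invFun (fun u => th j a0 (tm A W.subtype u)) z) = pj (e W) u :=
    fun W hW u z h => (he W hW).1.pj_congr (((he W hW).2 _).2 ((t1 _).1 (by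
      rw [map_sub, map_sub, Function.invFun_eq (f := fun u => th j a0 (tm A W.subtype u)) ⟨u, h⟩,
        h, sub_self])))
  refine ⟨fun z => pj eF (Function.invFun (th j a0) z),
    fun W z => pj (e W) (Function.invFun (fun u => th j a0 (tm A W.subtype u)) z),
    by simp only [gF 1 1 (map_one _), pj_one], fun z z' hz hz' => ?_, fun W hW => ⟨?_, ?_, ?_, ?_⟩⟩
  · obtain ⟨u, hu⟩ := top z hz
    obtain ⟨u', hu'⟩ := top z' hz'
    simp only [gF u z hu, gF u' z' hu', gF (u * u') (z * z') (by rw [map_mul, hu, hu']),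
      pj_mul heF.1]
  · simp only [gW W hW 1 1 (by rw [map_one, map_one]), pj_one]
  · intro z z' hz hz'
    obtain ⟨u, hu⟩ := t3 W hW z hz.1 hz.2
    obtain ⟨u', hu'⟩ := t3 W hW z' hz'.1 hz'.2
    simp only [gW W hW u z hu, gW W hW u' z' hu',
      gW W hW (u * u') (z * z') (by rw [map_mul, map_mul, hu, hu']), pj_mul (he W hW).1.1]
  · intro z hz
    obtain ⟨u, hu⟩ := t3 W hW z hz.1 hz.2
    have h1 := (he W hW).1.map (tm A W.subtype)
    rw [← RingHom.comp_assoc _ (inc A W), tm_comp,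
      show (tm A W.subtype).comp ((algebraMap W (W ⊗[ℤ] A)).comp
        (ρ0.codRestrict W fun z => hW _)) = (algebraMap F (F ⊗[ℤ] A)).comp ρ0 from
        RingHom.ext fun z => by
          rw [RingHom.comp_apply, RingHom.comp_apply, tm_alg]; rfl] at h1
    simp only [gW W hW u z hu, gF _ z hu, map_pj, h1.unique heF]
  · intro φ w ρ hφ
    obtain ⟨μ, mu⟩ : ∃ μ : W ⊗[ℤ] A →+* ℝ, ∀ x, lft w (tm A φ x) = μ x :=
      ⟨(lft w).toRingHom.comp (tm A φ), fun _ => rfl⟩
    have h1 := (he W hW).1.map μ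
    have ma : ∀ f : W, μ (algebraMap W _ f) = φ f := fun f => by
      rw [← mu, tm_alg, AlgHom.commutes]; rfl
    rw [show μ.comp ((algebraMap W (W ⊗[ℤ] A)).comp (ρ0.codRestrict W fun z => hW _)) =
        ρ.comp (algebraMap (𝓞 K) K) from RingHom.ext fun z => by
          rw [RingHom.comp_apply, RingHom.comp_apply, ma, RingHom.comp_apply, ← hφ]; rfl,
      show μ.comp ((inc A W).comp i) = w.comp i from RingHom.ext fun z => by
          rw [RingHom.comp_apply, RingHom.comp_apply, ← mu, tm_inc, lft_inc]; rfl] at h1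
    simp only [mu]
    simp only [map_pj]
    refine ⟨fun hne z _ => ?_, fun heq => ?_⟩
    · obtain ⟨y, hy⟩ := DFunLike.ne_iff.1 hne
      rw [h1.eq_zero (z := y) (Ne.isUnit (sub_ne_zero.2 (Ne.symm hy)))]
      simp [pj]
    · rw [heq] at h1
      have h2 : ∀ u z, th j a0 (tm A W.subtype u) = z →
          pj (μ (e W)) (μ (Function.invFun (fun u => th j a0 (tm A W.subtype u)) z)) = μ u :=
        fun u z h => by rw [← map_pj, gW W hW u z h, map_pj, h1.eq_one]; simp [pj]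
      refine ⟨fun f => ?_, fun z z' hz hz' => ?_⟩
      · rw [h2 (algebraMap W _ f) _ (by rw [tm_alg, cert_alg]; rfl), ma]
      · obtain ⟨u, hu⟩ := t3 W hW z hz.1 hz.2
        obtain ⟨u', hu'⟩ := t3 W hW z' hz'.1 hz'.2
        rw [h2 u z hu, h2 u' z' hu', h2 (u + u') _ (by rw [map_add, map_add, hu, hu']), map_add]

end RTA

section RT

open NumberField IsDedekindDomain WeierstrassCurve Inv OnePoint Finset Filter Topology
open TensorProduct Quaternion
open WeierstrassCurve.Affine (Point)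
open Pool.Agent.P.MP_6f117a_ag (Place FF)
open scoped Classical IntermediateField

lemma rt_w {A : Type} [CommRing A] (f : A →+* ℂ) (h : ∀ x, starRingEnd ℂ (f x) = f x) :
    ∃ w : A →+* ℝ, ∀ x, (w x : ℂ) = f x := by
  have e : ∀ x, ((f x).re : ℂ) = f x := fun x => Complex.conj_eq_iff_re.1 (h x)
  exact ⟨{ toFun := fun x => (f x).re
           map_one' := by simp
           map_zero' := by simp
           map_add' := fun x y => by simp
           map_mul' := fun x y => Complex.ofReal_injective (by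
             rw [Complex.ofReal_mul, e, e, e, map_mul]) }, e⟩

lemma rt_pick {k E : Type} [Field k] [CharZero k] [Field E] [Algebra k E] {S : Set (Place k E)}
    (hS : S.Finite) {a b : E} (h : a ^ 2 + b ^ 2 ≠ 0) : ∃ l : ℕ, a + l * b ≠ 0 ∧
      ∀ P ∈ S, P.v a ≤ P.v (a + l * b) ∧ P.v b ≤ P.v (a + l * b) := by
  have : CharZero E := charZero_of_injective_algebraMap (algebraMap k E).injective
  have h1 : {l : ℕ | a + l * b = 0}.Subsingleton := fun l hl l' hl' => by_contra fun e => by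
    have h2 : ((l : E) - l') * b = 0 := by
      simp only [Set.mem_ofPred_eq] at hl hl'
      linear_combination hl - hl'
    have h3 : b = 0 := (mul_eq_zero.1 h2).resolve_left (sub_ne_zero.2 (by exact_mod_cast e))
    simp only [Set.mem_ofPred_eq, h3, mul_zero, add_zero] at hl
    exact h (by simp [hl, h3])
  have h2 : ∀ P : Place k E, {l : ℕ | P.v (a + l * b) < max (P.v a) (P.v b)}.Subsingleton :=
    fun P l hl l' hl' => by_contra fun e => by
      have h3 := P.v.map_sub_lt hl hl'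
      have h4 : ((l : k) - l') ≠ 0 := sub_ne_zero.2 (by exact_mod_cast e)
      rw [show a + l * b - (a + l' * b) = algebraMap k E (l - l') * b by
        rw [map_sub, map_natCast, map_natCast]; ring, map_mul, P.v_const h4, one_mul] at h3
      have h5 : P.v (l * b) ≤ P.v b := by
        rw [map_mul, ← map_natCast (algebraMap k E)]
        exact mul_le_of_le_one_left' (P.triv _)
      have h6 := P.v.map_sub_lt hl (h5.trans_lt h3)
      rw [add_sub_cancel_right] at h6
      exact lt_irrefl _ (max_lt h6 h3)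
  obtain ⟨l, hl⟩ := (h1.finite.union (hS.biUnion fun P _ => (h2 P).finite)).exists_notMem
  simp only [Set.mem_union, Set.mem_iUnion, Set.mem_ofPred_eq, not_or, not_exists, not_lt] at hl
  exact ⟨l, hl.1, fun P hP => max_le_iff.1 (hl.2 P hP)⟩

section

variable {K F k Fb : Type} [Field K] [Field F] [Algebra K F] [Field k] [Algebra K k] [Field Fb]
  [Algebra k Fb] {j : F →+* Fb} {act : (k ≃ₐ[K] k) →* RingAut Fb} {E0 : IntermediateField K k}
  {W : ValuationSubring F} {x y : Fb}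

lemma rt_mul (hx : Fx act E0 x) (hy : Fx act E0 y) : Fx act E0 (x * y) := fun τ hτ => by
  rw [map_mul, hx τ hτ, hy τ hτ]

lemma rt_add (hx : Fx act E0 x) (hy : Fx act E0 y) : Fx act E0 (x + y) := fun τ hτ => by
  rw [map_add, hx τ hτ, hy τ hτ]

lemma rt_inv (hx : Fx act E0 x) : Fx act E0 x⁻¹ := fun τ hτ => by rw [map_inv₀, hx τ hτ]

lemma rt_div (hx : Fx act E0 x) (hy : Fx act E0 y) : Fx act E0 (x / y) := fun τ hτ => by
  rw [map_div₀, hx τ hτ, hy τ hτ]

lemma rt_nat (l : ℕ) : Itg j act E0 W l := ⟨fun τ _ => map_natCast _ l, fun P _ => by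
  rw [← map_natCast (algebraMap k Fb)]
  exact P.triv _⟩

lemma rt_imul (hx : Itg j act E0 W x) (hy : Itg j act E0 W y) : Itg j act E0 W (x * y) :=
  ⟨rt_mul hx.1 hy.1, fun P hP => by
    rw [map_mul]
    exact mul_le_one' (hx.2 P hP) (hy.2 P hP)⟩

lemma rt_iadd (hx : Itg j act E0 W x) (hy : Itg j act E0 W y) : Itg j act E0 W (x + y) :=
  ⟨rt_add hx.1 hy.1, fun P hP => P.v.map_add_le (hx.2 P hP) (hy.2 P hP)⟩

lemma rt_idiv (hx : Fx act E0 x) (hy : Fx act E0 y) (h0 : y ≠ 0)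
    (h : ∀ P : Place k Fb, Over j P W → P.v x ≤ P.v y) : Itg j act E0 W (x / y) :=
  ⟨rt_div hx hy, fun P hP => by
    rw [map_div₀]
    exact div_le_one_of_le₀ (h P hP) zero_le⟩

lemma rt_sgn [CharZero k] (hS : {P : Place k Fb | Over j P W}.Finite) (μ : Fb → ℝ) (h1 : μ 1 = 1)
    (hm : ∀ z z', Itg j act E0 W z → Itg j act E0 W z' → μ (z * z') = μ z * μ z')
    (ha : ∀ z z', Itg j act E0 W z → Itg j act E0 W z' → μ (z + z') = μ z + μ z')
    {g a b s U : Fb} (hg : Itg j act E0 W g) (h0 : μ g ≠ 0) (fa : Fx act E0 a) (fb : Fx act E0 b)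
    (fs : Fx act E0 s) (hU : Itg j act E0 W U) (hU0 : μ U ≠ 0) (hab : a ^ 2 + b ^ 2 ≠ 0)
    (e : g * (a ^ 2 + b ^ 2) * U = s * s) : 0 < μ g * μ U := by
  obtain ⟨l, l0, hl⟩ := rt_pick hS hab
  have ft : Fx act E0 (a + l * b) := rt_add fa (rt_mul (rt_nat (j := j) (W := W) l).1 fb)
  generalize ht : a + l * b = t at l0 hl ft
  have iA : Itg j act E0 W (a / t) := rt_idiv fa ft l0 fun P hP => (hl P hP).1
  have iB : Itg j act E0 W (b / t) := rt_idiv fb ft l0 fun P hP => (hl P hP).2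
  have iQ := rt_iadd (rt_imul iA iA) (rt_imul iB iB)
  have e1 : s / t * (s / t) = g * U * (a / t * (a / t) + b / t * (b / t)) := by
    field_simp
    linear_combination -e
  have iS : Itg j act E0 W (s / t) := ⟨rt_div fs ft, fun P hP => by
    have := (rt_imul (rt_imul hg hU) iQ).2 P hP
    rw [← e1, map_mul, ← sq] at this
    exact (pow_le_one_iff two_ne_zero).1 this⟩
  have e2 := congrArg μ e1
  rw [hm _ _ iS iS, hm _ _ (rt_imul hg hU) iQ, hm _ _ hg hU, ha _ _ (rt_imul iA iA) (rt_imul iB iB),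
    hm _ _ iA iA, hm _ _ iB iB] at e2
  have e3 : μ (a / t) + μ l * μ (b / t) = 1 := by
    rw [← hm _ _ (rt_nat l) iB, ← ha _ _ iA (rt_imul (rt_nat l) iB), ← h1]
    congr 1
    field_simp
    exact ht
  have h2 : 0 < μ (a / t) * μ (a / t) + μ (b / t) * μ (b / t) :=
    (add_nonneg (mul_self_nonneg _) (mul_self_nonneg _)).lt_of_ne' fun h => by
      obtain ⟨h3, h4⟩ := mul_self_add_mul_self_eq_zero.1 h
      simp [h3, h4] at e3
  exact (le_of_mul_le_mul_right (by rw [zero_mul, ← e2]; exact mul_self_nonneg _) h2).lt_of_ne'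
    (mul_ne_zero h0 hU0)

lemma rt_half [CharZero K] [IsAlgClosed k] [IsGalois K k] [FF k Fb] (hI : S_INVAPP) (h : GS j act)
    (hfin : {P : Place k Fb | Over j P W}.Finite) {G : Fb} (hG : Ev2 k G) (fG : Fx act E0 G) :
    ∃ s U, Fx act E0 s ∧ U ≠ 0 ∧ Itg j act E0 W U ∧ Itg j act E0 W U⁻¹ ∧ G * U = s * s := by
  obtain ⟨s, s0, hs, ho⟩ := hI K F k Fb j act h E0 hfin.toFinset (fun P => ord P G / 2)
    fun τ hτ P hP => ⟨hfin.mem_toFinset.2 fun w => by
      rw [h.v_pl]
      exact hfin.mem_toFinset.1 hP w, by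
      have := (h.sa τ).ord_pl P G
      rw [h.sa_s, fG τ hτ] at this
      simp only [this]⟩
  have U0 := div_ne_zero (mul_ne_zero s0 s0) hG.1
  have fU := rt_div (rt_mul hs hs) fG
  have h1 : ∀ P : Place k Fb, Over j P W → P.v (s * s / G) = 1 := fun P hP => by
    rw [eq_one_iff U0, ord_div P (mul_ne_zero s0 s0) hG.1, ord_mul P s0 s0,
      ho P (hfin.mem_toFinset.2 hP)]
    obtain ⟨n, hn⟩ := hG.2 P
    omega
  exact ⟨s, s * s / G, hs, U0, ⟨fU, fun P hP => (h1 P hP).le⟩,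
    ⟨rt_inv fU, fun P hP => by rw [map_inv₀, h1 P hP, inv_one]⟩, mul_div_cancel₀ _ hG.1⟩

end

theorem p_RT (hRTA : S_RTA) (hINVAPP : Inv.S_INVAPP) (hOVER : Inv.S_OVER) :
    S_RT := by
  intro K F k Fb _ _ _ _ _ _ _ _ _ _ _ j act h ρ σ hσ g E0 a b hg hE hr fa fb hG
  have : NumberField E0 := NumberField.of_module_finite K E0
  have : CharZero k := charZero_of_injective_algebraMap (algebraMap K k).injective
  have hZ : ∀ x : E0, IsIntegral ℤ (x : k) ↔ IsIntegral ℤ x := fun x =>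
    isIntegral_algHom_iff (E0.val.toRingHom.toIntAlgHom) Subtype.val_injective
  let a0 : 𝓞 E0 →+* k := E0.val.toRingHom.comp (algebraMap (𝓞 E0) E0)
  have hO : Ord E0 a0 (algebraMap (𝓞 K) (𝓞 E0)) :=
    ⟨Subtype.val_injective.comp RingOfIntegers.coe_injective, fun z =>
      ⟨by rintro ⟨x, rfl⟩; exact ⟨(x : E0).2, (hZ _).2 x.isIntegral_coe⟩,
        fun hz => ⟨⟨⟨z, hz.1⟩, (hZ _).1 hz.2⟩, rfl⟩⟩, fun _ => rfl⟩
  obtain ⟨w, hw⟩ := rt_w (σ.comp a0) fun x => hr _ (x : E0).2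
  have hwi : w.comp (algebraMap (𝓞 K) (𝓞 E0)) = ρ.comp (algebraMap (𝓞 K) K) :=
    RingHom.ext fun x => Complex.ofReal_injective ((hw _).trans (hσ _))
  obtain ⟨Γ, Λ, Γ1, hΓ, hΛ⟩ := hRTA K F k Fb j act h E0 (𝓞 E0) a0 _ hO
  have fg : Fx act E0 (j g) := fun τ _ => h.fixF τ g
  have fG : Fx act E0 (j g * (a ^ 2 + b ^ 2)) := by
    rw [sq, sq]
    exact rt_mul fg (rt_add (rt_mul fa fa) (rt_mul fb fb))
  have hU := fun (W : ValuationSubring F) (hW : ∀ c, algebraMap K F c ∈ W) =>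
    rt_half hINVAPP h (hOVER K F k Fb j act h W hW).1 hG fG
  choose! s U fs U0 iU iU' eU using hU
  have hu : ∀ (W : ValuationSubring F) (hW : ∀ c, algebraMap K F c ∈ W),
      Λ W (U W) * Λ W (U W)⁻¹ = 1 := fun W hW => by
    rw [← (hΛ W hW).2.1 _ _ (iU W hW) (iU' W hW), mul_inv_cancel₀ (U0 W hW), (hΛ W hW).1]
  refine ⟨𝓞 E0, inferInstance, inferInstance, inferInstance, inferInstance, w,
    Γ (j g * (a ^ 2 + b ^ 2)), fun W => Λ W (U W), IsUnit.of_mul_eq_one (Γ (j g * (a ^ 2 + b ^ 2))⁻¹) ?_,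
    fun W hW => ⟨IsUnit.of_mul_eq_one _ (hu W hW), Γ (s W), ?_⟩, fun ρ' hρ y => ?_, fun y t ht => ?_⟩
  · rw [← hΓ _ _ fG (rt_inv fG), mul_inv_cancel₀ hG.1, Γ1]
  · rw [(hΛ W hW).2.2.1 _ (iU W hW), ← hΓ _ _ fG (iU W hW).1, eU W hW, hΓ _ _ (fs W hW) (fs W hW)]
  · refine ((hΛ y.O y.mem).2.2.2 y.φ w ρ' y.comm).1 (fun e => hρ ?_) _ (iU _ y.mem)
    exact IsLocalization.ringHom_ext (nonZeroDivisors (𝓞 K)) (e.symm.trans hwi)
  obtain ⟨L1, Lm, -, L⟩ := hΛ y.O y.mem
  obtain ⟨Lj, La⟩ := (L y.φ w ρ y.comm).2 hwi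
  obtain ⟨t', t0, ht'⟩ := hg y
  obtain rfl : t' = t := coe_injective (ht'.symm.trans ht)
  obtain ⟨hm, rfl⟩ := val_eq_coe.1 ht
  rw [← Lj ⟨g, hm⟩] at t0 ⊢
  refine rt_sgn (hOVER K F k Fb j act h _ y.mem).1 (fun z => lft w (tm _ y.φ (Λ y.O z)))
    (by simp only [L1, map_one]) (fun z z' h1 h2 => by simp only [Lm z z' h1 h2, map_mul]) La
    ⟨fg, fun P hP => (hP g).1 hm⟩ t0 fa fb (fs _ y.mem) (iU _ y.mem) ?_
    (right_ne_zero_of_mul hG.1) (eU _ y.mem)
  have := congrArg (fun z => lft w (tm _ y.φ z)) (hu _ y.mem)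
  simp only [map_mul, map_one] at this
  exact left_ne_zero_of_mul_eq_one this

end RT

end Pool.Agent.P.MP_ab3ecb_nt.R1
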