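import Pool.Agent.P.MP_ab3ecb_nt.R1.IfaceR
import Pool.Agent.P.MP_ab3ecb_nt.R1.A4
import Pool.Agent.P.MP_ab3ecb_nt.Inv.A.Cpd
import Pool.Agent.P.MP_ab3ecb_nt.Model
import Pool.Agent.P.MP_ab3ecb_nt.Inv.A.Pf
import Pool.Agent.P.MP_ab3ecb_nt.Inv.G.Cert

/-! Steps RAT RSQ RAL RCP RB REAL. -/

set_option autoImplicit false
set_option linter.unusedSectionVars false
set_option linter.unusedVariables false
set_option linter.ambiguousOpen false

namespace Pool.Agent.P.MP_ab3ecb_nt.R1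

section RAT

open NumberField IsDedekindDomain WeierstrassCurve Inv OnePoint Finset Filter Topology
open TensorProduct Quaternion
open WeierstrassCurve.Affine (Point)
open Pool.Agent.P.MP_6f117a_ag (Place FF)
open scoped Classical IntermediateField

section

variable {K F L L' : Type} [Field K] [Field F] [Field L] [Field L'] {ρ : K →+* L} {ρ' : K →+* L'}

variable [Algebra K F] {W : Affine K} {Q : (W.baseChange F).Point → (W.baseChange K).Point}

lemma rat_fib {z : KPt (algebraMap K F) ρ} (y : KPt (algebraMap K F) ρ') (h : y.O = z.O)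
    (hz : Fib Q z) : Fib Q y := fun f => by
  have h1 := hz f
  generalize Q f = q at h1 ⊢
  rcases f with _ | ⟨X, Y, hX⟩ <;> rcases q with _ | ⟨a, b, ha⟩
  · rfl
  · exact absurd (congrArg Prod.fst h1) (infty_ne_coe _)
  · exact Prod.ext (rat_tr z y h X ∞ (congrArg Prod.fst h1))
      (rat_tr z y h Y ∞ (congrArg Prod.snd h1))
  · exact Prod.ext (rat_tr z y h X a (congrArg Prod.fst h1))
      (rat_tr z y h Y b (congrArg Prod.snd h1))

lemma rat_top {z : KPt (algebraMap K F) ρ} (hz : Fib Q z) {X Y : F}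
    (hX : (W.baseChange F).Nonsingular X Y) (ht : Transcendental K X) : z.O ≠ ⊤ := fun h => by
  have hm : ∀ f, f ∈ z.O := fun f => h ▸ ValuationSubring.mem_top f
  have h1 := hz (.some X Y hX)
  generalize Q _ = q at h1
  rcases q with _ | ⟨a, b, ha⟩
  · exact val_eq_infty.1 (congrArg Prod.fst h1) (hm X)
  · obtain ⟨hf, h2⟩ := val_eq_coe.1 (congrArg Prod.fst h1)
    have h0 : X - algebraMap K F a ≠ 0 := fun h0 =>
      ht (sub_eq_zero.1 h0 ▸ isAlgebraic_algebraMap a)
    exact rat_nu z hf h2 (IsUnit.of_mul_eq_one ⟨_, hm (X - algebraMap K F a)⁻¹⟩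
      (Subtype.ext (mul_inv_cancel₀ h0)))

/-- The image of a point under a map of the fields of values. -/
def rat_mv {ι : K →+* F} (P : KPt ι ρ) (τ : L →+* L') (h : ∀ c, τ (ρ c) = ρ' c) : KPt ι ρ' where
  O := P.O
  φ := τ.comp P.φ
  loc := ⟨fun a ha => P.loc.1 a (Ne.isUnit fun h => ha.ne_zero (by simp [h]))⟩
  mem := P.mem
  comm c := (congrArg τ (P.comm c)).trans (h c)

lemma rat_desc [Algebra K L] {ι : K →+* F} (P : KPt ι (algebraMap K L))
    (h : ∀ z, P.φ z ∈ (algebraMap K L).fieldRange) : ∃ R : KPt ι (RingHom.id K), R.O = P.O := by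
  let R : KPt ι (algebraMap K L).rangeRestrictField :=
    ⟨⟨P.O, P.φ.codRestrict _ h, ⟨fun a ha => P.loc.1 a (ha.map (Subfield.subtype _))⟩⟩, P.mem,
      fun c => Subtype.ext (P.comm c)⟩
  exact ⟨rat_mv R (algebraMap K L).rangeRestrictFieldEquiv.symm fun c =>
    (algebraMap K L).rangeRestrictFieldEquiv.symm_apply_apply c, rfl⟩

end

theorem p_RAT (hRES : S_RES) (hNC : S_NC) :
    S_RAT := by
  intro K F _ _ _ _ W _ hF hK ⟨f, hf⟩ Q x hx hs
  obtain ⟨X, Y, hX, -, ht⟩ := hNC K F W hK f hf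
  choose y hy using fun v => hRES K F hF (x v).O (x v).mem (rat_top (hx v) hX ht)
  have hy' := fun v => rat_fib (y v) (hy v) (hx v)
  obtain ⟨v0⟩ : Nonempty (Pl K) := by
    obtain ⟨M, hM⟩ := Ideal.exists_maximal (𝓞 K)
    exact ⟨⟨M, hM.isPrime, Ring.ne_bot_of_isMaximal_of_not_isField hM
      (RingOfIntegers.not_isField K)⟩⟩
  obtain ⟨P, hP⟩ := rat_desc (y v0) fun a => by
    refine (InfiniteGalois.mem_range_algebraMap_iff_fixed _).2 fun τ => ?_
    let z : CP K F (AlgebraicClosure K) := rat_mv (y v0) τ.toRingEquiv.toRingHom τ.commutes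
    have h1 : z = y v0 := hs (rat_fib (z := y v0) z rfl (hy' v0)) (hy' v0)
    have h2 : val z (a : F) = val (y v0) (a : F) := by rw [h1]
    rw [val_of_mem (y v0) a.2, val_of_mem z a.2] at h2
    exact coe_injective h2
  refine ⟨P, fun v => val_injective (funext fun g => ?_)⟩
  rw [val_push]
  refine rat_tr P (x v) ?_ g _ (by rw [RingHom.coe_id, OnePoint.map_id, id])
  rw [hP, hs (hy' v0) (hy' v), hy]

end RAT

section RSQ

open NumberField IsDedekindDomain WeierstrassCurve Inv OnePoint Finset Filter Topology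
open TensorProduct Quaternion
open WeierstrassCurve.Affine (Point)
open Pool.Agent.P.MP_6f117a_ag (Place FF)
open scoped Classical IntermediateField

theorem rsq_field (F : Type) [Field F] [Algebra ℝ F] [Module.Finite ℝ F] (y : F)
    (h : ∀ l : F →ₐ[ℝ] ℝ, 0 < l y) : IsSquare y := by
  rcases Real.nonempty_algEquiv_or F with he | he
  · obtain ⟨e⟩ := he
    have h1 : 0 < e y := h e.toAlgHom
    refine ⟨e.symm (Real.sqrt (e y)), ?_⟩
    rw [← map_mul, Real.mul_self_sqrt h1.le, AlgEquiv.symm_apply_apply]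
  · obtain ⟨e⟩ := he
    obtain ⟨w, hw⟩ := IsAlgClosed.exists_eq_mul_self (e y)
    refine ⟨e.symm w, ?_⟩
    rw [← map_mul, ← hw, AlgEquiv.symm_apply_apply]

theorem p_RSQ :
    S_RSQ := by
  intro B _ _ _ _ z _ h
  haveI : IsArtinianRing B := IsArtinianRing.of_finite ℝ B
  have key : ∀ m : MaximalSpectrum B, IsSquare (Ideal.Quotient.mk m.asIdeal z) := by
    intro m
    haveI := m.isMaximal
    letI : Field (B ⧸ m.asIdeal) := Ideal.Quotient.field m.asIdeal
    haveI : Module.Finite ℝ (B ⧸ m.asIdeal) :=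
      Module.Finite.of_surjective (Ideal.Quotient.mkₐ ℝ m.asIdeal).toLinearMap
        (Ideal.Quotient.mkₐ_surjective ℝ m.asIdeal)
    exact rsq_field (B ⧸ m.asIdeal) _ fun l => h (l.comp (Ideal.Quotient.mkₐ ℝ m.asIdeal))
  choose r hr using key
  refine ⟨(IsArtinianRing.equivPi B).symm r, ?_⟩
  apply (IsArtinianRing.equivPi B).injective
  rw [map_mul, AlgEquiv.apply_symm_apply]
  funext m
  exact hr m

end RSQ

section RAL

open NumberField IsDedekindDomain WeierstrassCurve Inv OnePoint Finset Filter Topology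
open TensorProduct Quaternion
open WeierstrassCurve.Affine (Point)
open Pool.Agent.P.MP_6f117a_ag (Place FF)
open scoped Classical IntermediateField

theorem ral_one {A : Type} [CommRing A] (w w' : A →+* ℝ) (h : w' ≠ w) (k : ℝ) :
    ∃ g : A, w g ^ 2 ≤ 1 ∧ k < w' g ^ 2 := by
  obtain ⟨θ, hθ⟩ : ∃ θ, w' θ - w θ ≠ 0 := by
    by_contra e
    push Not at e
    exact h (RingHom.ext fun x => sub_eq_zero.1 (e x))
  have d := abs_pos.2 hθ
  obtain ⟨n, hn⟩ := exists_nat_gt ((|k| + 2) / |w' θ - w θ|)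
  rw [div_lt_iff₀ d] at hn
  have h1 := abs_le.1 (abs_sub_round (n * w θ))
  refine ⟨n * θ - (round (n * w θ) : ℤ), ?_, ?_⟩
  · simp only [map_sub, map_mul, map_natCast, map_intCast]
    nlinarith [h1.1, h1.2]
  · simp only [map_sub, map_mul, map_natCast, map_intCast]
    have h2 : |n * (w' θ - w θ)| ≤ |n * w' θ - (round (n * w θ) : ℤ)| + 1 / 2 := by
      have := abs_sub (n * w' θ - (round (n * w θ) : ℤ)) (n * w θ - (round (n * w θ) : ℤ))
      rw [show n * (w' θ - w θ) = n * w' θ - (round (n * w θ) : ℤ) -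
        (n * w θ - (round (n * w θ) : ℤ)) by ring]
      linarith [abs_sub_round (n * w θ)]
    rw [abs_mul, Nat.abs_cast] at h2
    rw [← sq_abs]
    nlinarith [le_abs_self k, abs_nonneg k]

theorem p_RAL :
    S_RAL := by
  intro A _ _ _ _ w
  have : Finite (A →+* ℝ) :=
    Finite.of_injective (fun f : A →+* ℝ => f.toIntAlgHom) RingHom.toIntAlgHom_injective
  have := Fintype.ofFinite (A →+* ℝ)
  set T := (Finset.univ : Finset (A →+* ℝ)).erase w with hT
  have H : ∀ w' : A →+* ℝ, ∃ g : A, w' ≠ w → w g ^ 2 ≤ 1 ∧ (T.card : ℝ) + 1 < w' g ^ 2 := by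
    intro w'
    by_cases h : w' = w
    · exact ⟨0, fun e => (e h).elim⟩
    · exact (ral_one w w' h _).imp fun g hg _ => hg
  choose g hg using H
  refine ⟨∑ v ∈ T, g v ^ 2 - (T.card + 1), ?_, fun w' h => ?_⟩
  · simp only [map_sub, map_sum, map_pow, map_add, map_natCast, map_one]
    have : ∑ v ∈ T, w (g v) ^ 2 ≤ ∑ v ∈ T, (1 : ℝ) :=
      Finset.sum_le_sum fun v hv => (hg v (Finset.ne_of_mem_erase hv)).1
    simp only [Finset.sum_const, nsmul_eq_mul, mul_one] at this
    linarith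
  · simp only [map_sub, map_sum, map_pow, map_add, map_natCast, map_one]
    have := Finset.single_le_sum (f := fun v => w' (g v) ^ 2) (s := T) (fun v _ => sq_nonneg _)
      (Finset.mem_erase.2 ⟨h, Finset.mem_univ w'⟩)
    linarith [(hg w' h).2]

end RAL

section RCP

open NumberField IsDedekindDomain WeierstrassCurve Inv OnePoint Finset Filter Topology
open TensorProduct Quaternion
open WeierstrassCurve.Affine (Point)
open Pool.Agent.P.MP_6f117a_ag (Place FF)
open scoped Classical IntermediateField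

lemma rcp_main {B : Type} [CommRing B] [Algebra ℝ B] [Module.Finite ℝ B] (hRSQ : S_RSQ)
    (hs : Perf (bf (Algebra.trace ℝ B) 1)) (l : B →ₐ[ℝ] ℝ) {α β : B} (hα : IsUnit α)
    (hβ : IsUnit β) (h0 : l α < 0) (h1 : ∀ l' : B →ₐ[ℝ] ℝ, l' ≠ l → 0 < l' α) :
    cf (Algebra.trace ℝ B) 1 α * cf (Algebra.trace ℝ B) β α = sy (l β) (-1) := by
  have : IsReduced B := ⟨fun z hz => hs.inj fun w =>
    (LinearMap.isNilpotent_trace_of_isNilpotent
      (((Commute.all z w).isNilpotent_mul_right hz).map (Algebra.lmul ℝ B))).eq_zero⟩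
  obtain ⟨ε, hε, hl⟩ := exists_idem hs l
  have he : ε * ε = ε := by rw [hε, hl, one_smul]
  have ha : IsUnit (pj ε (-1)) := isUnit_pj he isUnit_one.neg
  have h2 : ∀ l' : B →ₐ[ℝ] ℝ, l' ≠ l → l' ε = 0 := fun l' h => by
    by_contra hn
    refine h (AlgHom.ext fun z => mul_right_cancel₀ hn ?_)
    rw [← map_mul, hε, _root_.map_smul, smul_eq_mul]
  have hsq : IsSquare (α * pj ε (-1)) := hRSQ B _ (hα.mul ha) fun l' => by
    by_cases h : l' = l
    · subst h
      simp only [pj, map_mul, map_add, map_sub, map_one, map_neg, hl]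
      linarith
    · simp only [pj, map_mul, map_add, map_sub, map_one, map_neg, h2 l' h]
      linarith [h1 l' h]
  have k1 : (1 - ε) * pj ε (-1) = 1 - ε := by unfold pj; linear_combination 2 * he
  have hn : Algebra.norm ℝ (pj ε (-1)) = -1 := by
    rw [norm_idem hε hl, k1, add_sub_cancel, map_one, mul_one]
    simp [pj, hl]
  have hb : l β ≠ 0 := (hβ.map l).ne_zero
  have hu : IsUnit (algebraMap ℝ B (l β)) := (IsUnit.mk0 _ hb).map _
  have k6 := cf_idem hs he hu hβ ha isUnit_one k1 (mul_one ε)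
  have k7 : ε * algebraMap ℝ B (l β) + (1 - ε) * β = β := by
    have := hε β
    rw [Algebra.smul_def] at this
    linear_combination -this
  rw [k7, mul_one, map_one, cf_of_isSquare hs hβ isUnit_one IsSquare.one,
    sy_one (ha.map (Algebra.norm ℝ)).ne_zero, mul_one, mul_one, ← mul_one (algebraMap ℝ B _),
    cf_smul hs isUnit_one ha hb, hn] at k6
  rw [cf_congr _ isUnit_one hα isUnit_one ha ⟨1, rfl⟩ hsq, cf_congr _ hβ hα hβ ha ⟨β, rfl⟩ hsq, k6,
    ← mul_assoc, cpd_cf hs isUnit_one ha, one_mul]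

theorem p_RCP (hRSQ : S_RSQ) (hRAL : S_RAL) :
    S_RCP := by
  intro A _ _ _ _ w
  obtain ⟨α, h0, h1⟩ := hRAL A w
  have hα : α ≠ 0 := fun h => by simp [h] at h0
  obtain ⟨r, hr, hd⟩ := exists_dual A
  have hs := (hd r dvd_rfl).perf (R := ℝ) (IsUnit.mk0 _ (Int.cast_ne_zero.2 hr))
  have hu : IsUnit (inc A ℝ α) := isUnit_inc (IsUnit.mk0 _
    (Int.cast_ne_zero.2 (Algebra.norm_ne_zero_iff.2 hα)))
  refine ⟨α, hα, fun β hβ => ?_⟩
  have key : cp β (inc A ℝ α) = sy (lft w β) (-1) :=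
    rcp_main hRSQ hs (lft w) hu hβ (by rwa [lft_inc]) fun l' h => by
      refine h1 (l'.toRingHom.comp (inc A ℝ)) fun e => h ?_
      refine Algebra.TensorProduct.ext (Subsingleton.elim _ _) (AlgHom.ext fun a => ?_)
      exact (RingHom.congr_fun e a).trans (lft_inc w a).symm
  rw [key, sy_comm]
  refine ⟨fun h => sy_of_isSquare (by norm_num) h.ne' ⟨√_, (Real.mul_self_sqrt h.le).symm⟩,
    fun h => ?_⟩
  rw [sy_congr (c := -1) (by norm_num) h.ne (by norm_num)
    ⟨√(-lft w β), by rw [Real.mul_self_sqrt (by linarith), mul_neg_one]⟩]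
  rfl

end RCP

section RB

open NumberField IsDedekindDomain WeierstrassCurve Inv OnePoint Finset Filter Topology
open TensorProduct Quaternion
open WeierstrassCurve.Affine (Point)
open Pool.Agent.P.MP_6f117a_ag (Place FF)
open scoped Classical IntermediateField

lemma rb_tm {A R S T : Type} [CommRing A] [Module.Free ℤ A] [Module.Finite ℤ A] [CommRing R]
    [CommRing S] [CommRing T] (φ : R →+* S) (ψ : S →+* T) (z : R ⊗[ℤ] A) :
    tm A ψ (tm A φ z) = tm A (ψ.comp φ) z := by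
  induction z with
  | zero => simp
  | add x y h1 h2 => simp only [map_add, h1, h2]
  | tmul r a => rfl

theorem p_RB (hRCP : S_RCP) (hINVZ : Inv.S_INVZ) :
    S_RB := by
  intro K F _ _ _ _ _ x hx P hP ρ g A _ _ _ _ w γ u hR t t' ht ht' hv hv'
  obtain ⟨α, hα0, hα⟩ := hRCP A w
  have hN : Algebra.norm ℤ α ≠ 0 := Algebra.norm_ne_zero_iff.2 hα0
  obtain ⟨r, hr, hd⟩ := exists_dual A
  replace hd := hd r dvd_rfl
  obtain ⟨β, hβ⟩ : ∃ β : K ⊗[ℤ] A, β = tm A P.φ (u P.O) := ⟨_, rfl⟩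
  have hβu : IsUnit β := hβ ▸ (hR.md P.O P.mem).1.map _
  obtain ⟨B, _, _, key⟩ := pf_class hd hr hN (hR.unit.mul (hβu.map (tm A (algebraMap K F))))
  have hO : ∀ (O : ValuationSubring F) (h : ∀ c, algebraMap K F c ∈ O),
      IsUnit (u O * tm A ((algebraMap K F).codRestrict O h) β) ∧
      IsSquare (γ * tm A (algebraMap K F) β *
        tm A O.subtype (u O * tm A ((algebraMap K F).codRestrict O h) β)) := by
    intro O h
    obtain ⟨h1, s, h2⟩ := hR.md O h
    refine ⟨h1.mul (hβu.map _), s * tm A (algebraMap K F) β, ?_⟩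
    have h3 : tm A O.subtype (tm A ((algebraMap K F).codRestrict O h) β) =
      tm A (algebraMap K F) β := rb_tm _ _ _
    rw [map_mul, h3]
    linear_combination tm A (algebraMap K F) β ^ 2 * h2
  have hB : Unram F B := fun O h => by
    obtain ⟨h1, h2⟩ := hO O (cert_const h)
    obtain ⟨N, _, _, h3, -⟩ := key O (isUnit_intCast_of_rat O h) _ h1 h2
    exact ⟨N, _, _, h3⟩
  have hp : ∀ (L : Type) [Field L] (ρ' : K →+* L),
      tm A (push P ρ').φ (u (push P ρ').O) = tm A ρ' β := fun L _ ρ' => by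
    rw [hβ, rb_tm]; rfl
  have hval : ∀ (L : Type) [Field L] [CharZero L] (ρ' : K →+* L) (Q : KPt (algebraMap K F) ρ')
      (Inv : (B : Type) → [Ring B] → [Algebra L B] → AddCircle (1 : ℚ) → Prop)
      (q : AddCircle (1 : ℚ)), (∀ (B' : Type) [Ring B'] [Algebra L B'],
        cl L B' = cp (tm A Q.φ (u Q.O) * tm A ρ' β) (inc A L α) → Inv B' q) →
        ValInv B Q.toPt Inv q := by
    intro L _ _ ρ' Q Inv q h3
    obtain ⟨h1, h2⟩ := hO Q.O Q.mem
    obtain ⟨N, _, _, h4, h5⟩ := key Q.O Q.toPt.isUnit_intCast _ h1 h2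
    refine ⟨N, _, _, h4, ?_⟩
    let := Q.φ.toAlgebra
    refine h3 _ ((h5 L).trans ?_)
    rw [map_mul, rb_tm, show (algebraMap Q.O L).comp ((algebraMap K F).codRestrict Q.O Q.mem) = ρ'
      from RingHom.ext Q.comm]
    rfl
  have hu : ∀ (ρ' : K →+* ℝ), IsUnit (tm A (x.inf ρ').φ (u (x.inf ρ').O) * tm A ρ' β) := fun ρ' =>
    ((hR.md _ (x.inf ρ').mem).1.map _).mul (hβu.map _)
  have fin := hx B hB (fun ρ' => if ρ' = ρ then ((1 / 2 : ℚ) : AddCircle (1 : ℚ)) else 0) 0
    (fun ρ' => hval ℝ ρ' _ _ _ fun B' _ _ h => ?_) fun v => ?_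
  · rw [Finset.sum_ite_eq', if_pos (mem_univ _), Finsupp.sum_zero_index, add_zero,
      AddCircle.coe_eq_zero_iff] at fin
    obtain ⟨n, hn⟩ := fin
    have h1 : ((2 * n : ℤ) : ℚ) = (1 : ℤ) := by
      rw [zsmul_eq_mul] at hn; push_cast; linarith
    have := Int.cast_injective h1
    omega
  · by_cases h1 : ρ' = ρ
    · subst h1
      refine Or.inr ⟨cl_eq.1 (h.trans ((hα _ (hu _)).2 ?_)), if_pos rfl⟩
      have h2 := hR.sgn _ _ hv
      have h3 := hR.sgn _ _ hv'
      rw [hp] at h2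
      rw [map_mul]
      exact mul_neg_of_neg_of_pos (by nlinarith) (by nlinarith)
    · refine Or.inl ⟨cl_eq.1 (h.trans ((hα _ (hu _)).1 ?_)), if_neg h1⟩
      have h2 := hR.off ρ' h1 (push P ρ')
      rw [hp] at h2
      rw [map_mul, h2, hR.off ρ' h1, mul_one]
      exact one_pos
  · have : CharZero (Kv v) := algebraRat.charZero _
    rw [hP v]
    refine hval (Kv v) _ _ _ _ fun B' _ _ h => hINVZ K v B' (h.trans ?_)
    have k1 : IsUnit (inc A (Kv v) α) := isUnit_inc (IsUnit.mk0 _ (Int.cast_ne_zero.mpr hN))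
    have k2 := hβu.map (tm A (algebraMap K (Kv v)))
    rw [hp, cp, cf_congr _ (k2.mul k2) k1 isUnit_one k1 ⟨_, mul_one _⟩ ⟨_, rfl⟩]
    exact cpd_cf (hd.perf (IsUnit.mk0 _ (Int.cast_ne_zero.2 hr))) isUnit_one k1

end RB

section REAL

open NumberField IsDedekindDomain WeierstrassCurve Inv OnePoint Finset Filter Topology
open TensorProduct Quaternion
open WeierstrassCurve.Affine (Point)
open Pool.Agent.P.MP_6f117a_ag (Place FF)
open scoped Classical IntermediateField

theorem real_conj (K : Type) [Field K] [NumberField K] (ρ : K →+* ℝ) :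
    ∃ (σ : AlgebraicClosure K →+* ℂ) (c : AlgebraicClosure K ≃ₐ[K] AlgebraicClosure K),
      (∀ a, σ (algebraMap K _ a) = ρ a) ∧ ∀ z, σ (c z) = starRingEnd ℂ (σ z) := by
  let _ : Algebra K ℂ := (Complex.ofRealHom.comp ρ).toAlgebra
  let s : AlgebraicClosure K →ₐ[K] ℂ := IsAlgClosed.lift
  let _ : Algebra (AlgebraicClosure K) ℂ := s.toRingHom.toAlgebra
  have : IsScalarTower K (AlgebraicClosure K) ℂ :=
    .of_algebraMap_eq fun a => (s.commutes a).symm
  let e : ℂ ≃ₐ[K] ℂ := { (starRingAut : RingAut ℂ) with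
    commutes' := fun a => Complex.conj_ofReal (ρ a) }
  exact ⟨s.toRingHom, e.restrictNormal _, fun a => s.commutes a,
    fun z => e.restrictNormal_commutes _ z⟩

theorem p_REAL (hRS : S_RS) (hRG : S_RG) (hRT : S_RT) (hRB : S_RB) (hDOMA : Inv.S_DOMA) (hBASE : Inv.S_BASE) (hCEDEG : Inv.S_CEDEG) :
    S_REAL := by
  intro K F _ _ _ _ _ hF hK x hx P hP ρ
  by_contra hne
  obtain ⟨g, t, t', hnz, ht, ht', h1', h2'⟩ := hRS K F _ ρ _ _ hne
  obtain ⟨x0, hx0, _⟩ := hF
  obtain ⟨Fb, _, _, j, act, hce, htop⟩ :=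
    hBASE K F (AlgebraicClosure K) (hDOMA K F (AlgebraicClosure K) hK)
  obtain ⟨h1, h2⟩ := hCEDEG K F (AlgebraicClosure K) Fb j act hce x0 hx0
  have := (h2 inferInstance).1
  have hgs : GS j act := ⟨hce, htop inferInstance, x0, h1⟩
  have hg : g ≠ 0 := by
    rintro rfl
    rw [val, dif_pos (zero_mem _)] at h1'
    have h0 : (push P ρ).φ ⟨0, zero_mem _⟩ = 0 := map_zero _
    rw [h0] at h1'
    exact ht.ne (OnePoint.coe_injective h1')
  obtain ⟨σ, c, s1, s2⟩ := real_conj K ρ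
  obtain ⟨E0, a, b, e1, e2, e3, e4, e5⟩ := hRG K F _ Fb j act hgs ρ σ c s1 s2 g hg hnz
  obtain ⟨A, _, _, _, _, w, γ, u, hrd⟩ := hRT K F _ Fb j act hgs ρ σ s1 g E0 a b hnz e1
    (fun z hz => by rw [← s2, e2 z hz]) e3 e4 e5
  exact hRB K F x hx P hP ρ g A w γ u hrd t t' ht ht' h1' h2'

end REAL

end Pool.Agent.P.MP_ab3ecb_nt.R1
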