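import Pool.Agent.P.MP_ab3ecb_nt.R1.AllA
import Pool.Agent.P.MP_ab3ecb_nt.R1.B1
import Pool.Agent.P.MP_ab3ecb_nt.R1.B2
import Pool.Agent.P.MP_ab3ecb_nt.R1.B3
import Pool.Agent.P.MP_ab3ecb_nt.Inv.All

/-! Assembly of the transfer theorem. -/

namespace Pool.Agent.P.MP_ab3ecb_nt.R1

theorem r_REAL : S_REAL := p_REAL (p_RS p_RC) (p_RG Inv.all_JDIV Inv.all_LZ)
  (p_RT (p_RTA Inv.all_TRL Inv.all_FC) Inv.all_INVAPP Inv.all_OVER)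
  (p_RB (p_RCP p_RSQ p_RAL) Inv.all_INVZ) Inv.all_DOMA Inv.all_BASE Inv.all_CEDEG

theorem r_TOPB : S_TOPB :=
  p_TOPB r_TOPA (p_APP p_NC p_GEN (p_PULL p_AZ)) (p_RAT p_RES p_NC) r_REAL r_EV

end Pool.Agent.P.MP_ab3ecb_nt.R1
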