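import Pool.Agent.P.MP_ab3ecb_nt.R1.Defs
import Pool.Agent.P.MP_ab3ecb_nt.Inv.BaseJ

/-!
Auxiliary definitions and first lemmas for curves mapping to an elliptic curve of rank one.
-/

set_option linter.unusedSectionVars false
set_option linter.ambiguousOpen false

namespace Pool.Agent.P.MP_ab3ecb_nt.R1

open NumberField IsDedekindDomain WeierstrassCurve Inv OnePoint Finset Filter
open WeierstrassCurve.Affine (Point)
open scoped Classical IntermediateField

/-! ### Points of the curve -/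

section pts

variable {K F F' L : Type} [Field K] [Field F] [Field F'] [Field L] {ι : K →+* F} {ρ : K →+* L}

lemma val_of_mem (P : KPt ι ρ) {f : F} (h : f ∈ P.O) : val P f = (P.φ ⟨f, h⟩ : L) := dif_pos h

lemma val_of_notMem (P : KPt ι ρ) {f : F} (h : f ∉ P.O) : val P f = ∞ := dif_neg h

lemma val_eq_infty {P : KPt ι ρ} {f : F} : val P f = ∞ ↔ f ∉ P.O :=
  ⟨fun h h1 => coe_ne_infty _ ((val_of_mem P h1).symm.trans h), val_of_notMem P⟩

lemma val_eq_coe {P : KPt ι ρ} {f : F} {t : L} :
    val P f = t ↔ ∃ h : f ∈ P.O, P.φ ⟨f, h⟩ = t := by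
  refine ⟨fun h => ?_, fun ⟨h, h1⟩ => h1 ▸ val_of_mem P h⟩
  have h1 : f ∈ P.O := by_contra fun h1 => infty_ne_coe _ ((val_of_notMem P h1).symm.trans h)
  exact ⟨h1, coe_injective ((val_of_mem P h1).symm.trans h)⟩

lemma val_const (P : KPt ι ρ) (c : K) : val P (ι c) = (ρ c : L) :=
  val_eq_coe.2 ⟨P.mem c, P.comm c⟩

lemma val_injective : Function.Injective (val : KPt ι ρ → F → OnePoint L) := by
  rintro P Q h
  have h1 : P.O = Q.O := SetLike.ext fun f => not_iff_not.1 (by
    rw [← val_eq_infty, ← val_eq_infty, h])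
  obtain ⟨⟨O, φ, l⟩, m, c⟩ := P
  obtain ⟨⟨O', φ', l'⟩, m', c'⟩ := Q
  obtain rfl : O = O' := h1
  obtain rfl : φ = φ' := RingHom.ext fun a => coe_injective
    ((val_of_mem _ a.2).symm.trans ((congrFun h a).trans (val_of_mem _ a.2)))
  rfl

lemma phi_eq_zero (P : KPt ι ρ) (a : P.O) : P.φ a = 0 ↔ ¬ IsUnit a :=
  ⟨fun h h1 => (h1.map P.φ).ne_zero h, fun h => by_contra fun h1 => h (P.loc.1 a (Ne.isUnit h1))⟩

/-- At a pole of `f`, the inverse of `f` vanishes. -/
lemma val_inv_of_notMem (P : KPt ι ρ) {f : F} (h : f ∉ P.O) : val P f⁻¹ = ((0 : L) : OnePoint L) := by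
  have h1 : f⁻¹ ∈ P.O := (P.O.mem_or_inv_mem f).resolve_left h
  refine val_eq_coe.2 ⟨h1, (phi_eq_zero P _).2 fun h2 => h ?_⟩
  obtain ⟨b, hb⟩ := h2.exists_right_inv
  have h3 : f⁻¹ * b = 1 := congrArg Subtype.val hb
  have h0 : f ≠ 0 := fun h0 => h (h0 ▸ P.O.zero_mem)
  rw [inv_mul_eq_one₀ h0] at h3
  exact h3 ▸ b.2

lemma val_push (P : KPt ι (RingHom.id K)) (ρ : K →+* L) (f : F) :
    val (push P ρ) f = (val P f).map ρ := by
  by_cases h : f ∈ P.O
  · rw [val_of_mem P h, val_of_mem (push P ρ) h]; rfl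
  · rw [val_of_notMem P h, val_of_notMem (push P ρ) h]; rfl

lemma continuous_val [TopologicalSpace L] (f : F) : Continuous fun P : KPt ι ρ => val P f :=
  (continuous_apply f).comp (continuous_induced_dom (f := (val : KPt ι ρ → F → OnePoint L)))

/-- The image of a point under the map of curves given by an embedding of function fields. -/
def cm [Algebra K F] [Algebra K F'] (j : F' →ₐ[K] F) (P : KPt (algebraMap K F) ρ) :
    KPt (algebraMap K F') ρ where
  O := P.O.comap j.toRingHom
  φ := P.φ.comp (j.toRingHom.restrict _ _ fun _ h => h)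
  loc := ⟨fun a ha => by
    have h0 : (a : F') ≠ 0 := fun h => ha.ne_zero (by
      rw [show a = 0 from Subtype.ext h, map_zero])
    obtain ⟨b, hb⟩ := (P.loc.1 _ ha).exists_right_inv
    have h1 : j a * b = 1 := congrArg Subtype.val hb
    refine IsUnit.of_mul_eq_one (⟨(a : F')⁻¹, ?_⟩ : P.O.comap j.toRingHom)
      (Subtype.ext (mul_inv_cancel₀ h0))
    change j (a : F')⁻¹ ∈ P.O
    rw [map_inv₀, inv_eq_of_mul_eq_one_right h1]
    exact b.2⟩
  mem c := by
    change j _ ∈ P.O
    rw [j.commutes]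
    exact P.mem c
  comm c := (congrArg P.φ (Subtype.ext (j.commutes c))).trans (P.comm c)

lemma val_cm [Algebra K F] [Algebra K F'] (j : F' →ₐ[K] F) (P : KPt (algebraMap K F) ρ) (f : F') :
    val (cm j P) f = val P (j f) := by
  by_cases h : j f ∈ P.O
  · rw [val_of_mem P h, val_of_mem (cm j P) h]; rfl
  · rw [val_of_notMem P h, val_of_notMem (cm j P) h]

/-- A function field in one variable. -/
def HF (K F : Type) [Field K] [Field F] [Algebra K F] : Prop :=
  ∃ x : F, Transcendental K x ∧ FiniteDimensional K⟮x⟯ F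

/-- The constants are algebraically closed in the function field. -/
def HK (K F : Type) [Field K] [Field F] [Algebra K F] : Prop :=
  ∀ z : F, IsAlgebraic K z → z ∈ (algebraMap K F).range

/-- Points with values in an extension field. -/
abbrev CP (K F L : Type) [Field K] [Field F] [Field L] [Algebra K F] [Algebra K L] :=
  KPt (algebraMap K F) (algebraMap K L)

end pts

/-! ### The forms of the addition and subtraction map -/

section forms

variable {R : Type} [CommRing R] (W : Affine R) (p q : Fin 2 → R)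

/-- The form for the product of the abscissas of `P + Q` and `P - Q`. -/
def a0 : R := (p 0 * q 0) ^ 2 - W.b₄ * (p 0 * q 0) * (p 1 * q 1) -
  W.b₆ * (p 0 * q 1 + p 1 * q 0) * (p 1 * q 1) - W.b₈ * (p 1 * q 1) ^ 2

/-- The form for the sum of the abscissas of `P + Q` and `P - Q`. -/
def a1 : R := 2 * (p 0 * q 1 + p 1 * q 0) * (p 0 * q 0) + W.b₂ * (p 0 * q 0) * (p 1 * q 1) +
  W.b₄ * (p 0 * q 1 + p 1 * q 0) * (p 1 * q 1) + W.b₆ * (p 1 * q 1) ^ 2

/-- The common denominator. -/
def a2 : R := (p 0 * q 1 - p 1 * q 0) ^ 2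

lemma addSubMap_sym2x (P Q : W.Point) : (fun i => (W.addSubMap i).eval (P.sym2x Q)) =
    ![a0 W P.xRep Q.xRep, a1 W P.xRep Q.xRep, a2 P.xRep Q.xRep] := by
  ext i
  fin_cases i <;> simp [addSubMap, Point.sym2x, a0, a1, a2]
  ring

/-- A form of bidegree `(d, e)` with coefficients `φ (c i j)`. -/
def bh {K : Type} (c : ℕ → ℕ → K) (d e : ℕ) (φ : K → R) (p q : Fin 2 → R) : R :=
  ∑ i ∈ range (d + 1), ∑ j ∈ range (e + 1),
    φ (c i j) * (p 0 ^ i * p 1 ^ (d - i)) * (q 0 ^ j * q 1 ^ (e - j))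

lemma bh_smul {K : Type} (c : ℕ → ℕ → K) (d e : ℕ) (φ : K → R) (s t : R) :
    bh c d e φ (s • p) (t • q) = s ^ d * t ^ e * bh c d e φ p q := by
  simp only [bh, mul_sum, Pi.smul_apply, smul_eq_mul, mul_pow]
  refine sum_congr rfl fun i hi => sum_congr rfl fun j hj => ?_
  have h1 : s ^ d = s ^ i * s ^ (d - i) := by
    rw [← pow_add, Nat.add_sub_cancel' (Nat.lt_succ_iff.1 (mem_range.1 hi))]
  have h2 : t ^ e = t ^ j * t ^ (e - j) := by
    rw [← pow_add, Nat.add_sub_cancel' (Nat.lt_succ_iff.1 (mem_range.1 hj))]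
  rw [h1, h2]
  ring

lemma map_bh {K S : Type} [CommRing S] (c : ℕ → ℕ → K) (d e : ℕ) (φ : K → R) (ψ : R →+* S) :
    ψ (bh c d e φ p q) = bh c d e (ψ ∘ φ) (ψ ∘ p) (ψ ∘ q) := by
  simp [bh, map_sum]

end forms

section normed

variable {L : Type} [NormedField L] {W : Affine L}

/-- A bound for the coefficients. -/
noncomputable def cb (W : Affine L) : ℝ :=
  max 1 ‖W.b₂‖ * max 1 ‖W.b₄‖ * max 1 ‖W.b₆‖ * max 1 ‖W.b₈‖

/-- The point `P` is zero or has abscissa of size at least `r`. -/
def Near (r : ℝ) (P : W.Point) : Prop := r * ‖P.xRep 1‖ ≤ ‖P.xRep 0‖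

lemma near_zero (r : ℝ) : Near r (0 : W.Point) := by simp [Near]

lemma near_some {r : ℝ} {x y : L} (h : W.Nonsingular x y) : Near r (.some x y h) ↔ r ≤ ‖x‖ := by
  simp [Near]

lemma near_neg {r : ℝ} {P : W.Point} : Near r (-P) ↔ Near r P := by simp [Near]

lemma Near.mono {r r' : ℝ} {P : W.Point} (h : Near r P) (h' : r' ≤ r) : Near r' P :=
  (mul_le_mul_of_nonneg_right h' (norm_nonneg _)).trans h

lemma eq_zero_of_near {P : W.Point} {r0 : ℝ} (h : ∀ r, r0 < r → Near r P) : P = 0 := by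
  rcases P with _ | ⟨x, y, h1⟩
  · rfl
  · have := (near_some h1).1 (h (max r0 ‖x‖ + 1) (by linarith [le_max_left r0 ‖x‖]))
    linarith [le_max_right r0 ‖x‖]

lemma cb_ge (W : Affine L) : 1 ≤ cb W ∧ ‖W.b₂‖ ≤ cb W ∧ ‖W.b₄‖ ≤ cb W ∧ ‖W.b₆‖ ≤ cb W ∧
    ‖W.b₈‖ ≤ cb W := by
  have key : ∀ a b c d : ℝ, 1 ≤ a → 1 ≤ b → 1 ≤ c → 1 ≤ d → a ≤ a * b * c * d :=
    fun a b c d h1 h2 h3 h4 => by
      have := one_le_mul_of_one_le_of_one_le (one_le_mul_of_one_le_of_one_le h2 h3) h4
      nlinarith
  have h2 := le_max_left 1 ‖W.b₂‖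
  have h4 := le_max_left 1 ‖W.b₄‖
  have h6 := le_max_left 1 ‖W.b₆‖
  have h8 := le_max_left 1 ‖W.b₈‖
  unfold cb
  refine ⟨h2.trans (key _ _ _ _ h2 h4 h6 h8), (le_max_right _ _).trans (key _ _ _ _ h2 h4 h6 h8),
    (le_max_right _ _).trans ((key _ _ _ _ h4 h2 h6 h8).trans_eq (by ring)),
    (le_max_right _ _).trans ((key _ _ _ _ h6 h2 h4 h8).trans_eq (by ring)),
    (le_max_right _ _).trans ((key _ _ _ _ h8 h2 h4 h6).trans_eq (by ring))⟩

end normed

/-! ### Points of the elliptic curve -/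

section ell

variable {K F F' L : Type} [Field K] [Field F] [Field F'] [Field L] [Algebra K F] [Algebra K F']
  [Algebra K L]

/-- The points of `W` over `L`. -/
abbrev EP (W : Affine K) (L : Type) [Field L] [Algebra K L] := (W.baseChange L).Point

/-- Rational points as points over `L`. -/
noncomputable abbrev bc (W : Affine K) (L : Type) [Field L] [Algebra K L] [DecidableEq K]
    [DecidableEq L] : EP W K →+ EP W L := Point.baseChange K L

instance (W : Affine K) [W.IsElliptic] : (W.baseChange L).IsElliptic :=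
  inferInstanceAs (WeierstrassCurve.map W (algebraMap K L)).IsElliptic

variable {W : Affine K}

lemma xRep_bc [DecidableEq K] [DecidableEq L] (Q : EP W K) :
    (bc W L Q).xRep = algebraMap K L ∘ Q.xRep := by
  rcases Q with _ | ⟨x, y, h⟩
  · ext i; fin_cases i <;> simp [← Point.zero_def]
  · ext i; fin_cases i <;> simp [Point.map_some]

lemma co_injective {W' : Affine L} :
    Function.Injective (co (fun a : L => (a : OnePoint L)) : W'.Point → _) := by
  rintro (_ | ⟨x, y, h⟩) (_ | ⟨x', y', h'⟩) h1 <;> simp_all [co]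

lemma co_bc [DecidableEq K] [DecidableEq L] (Q : EP W K) :
    co (fun a : L => (a : OnePoint L)) (bc W L Q) =
      co (fun a => ((algebraMap K L a : L) : OnePoint L)) Q := by
  rcases Q with _ | ⟨x, y, h⟩ <;> rfl

lemma equation_iff_alg {x y : L} : (W.baseChange L).Equation x y ↔
    y ^ 2 + algebraMap K L W.a₁ * x * y + algebraMap K L W.a₃ * y =
      x ^ 3 + algebraMap K L W.a₂ * x ^ 2 + algebraMap K L W.a₄ * x + algebraMap K L W.a₆ :=
  Affine.equation_iff _ _

/-- The two coordinates have the same poles. -/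
lemma mem_iff_mem {O : ValuationSubring F} (hO : ∀ c, algebraMap K F c ∈ O) {x y : F}
    (h : (W.baseChange F).Equation x y) : x ∈ O ↔ y ∈ O := by
  rw [equation_iff_alg] at h
  have k := fun c => (O.valuation_le_one_iff _).2 (hO c)
  have m : ∀ (c : K) (z : F), O.valuation (algebraMap K F c * z) ≤ O.valuation z := fun c z => by
    rw [map_mul]; exact mul_le_of_le_one_left' (k c)
  rw [← O.valuation_le_one_iff, ← O.valuation_le_one_iff]
  set v := O.valuation
  refine ⟨fun hx => by_contra fun hy => ?_, fun hy => by_contra fun hx => ?_⟩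
  · rw [not_le] at hy
    have h1 : v y < v (y ^ 2) := by rw [map_pow]; exact lt_self_pow₀ hy one_lt_two
    have h2 := hy.trans h1
    have e : y ^ 2 = x ^ 3 + algebraMap K F W.a₂ * x ^ 2 + algebraMap K F W.a₄ * x +
        algebraMap K F W.a₆ - algebraMap K F W.a₁ * (x * y) - algebraMap K F W.a₃ * y := by
      linear_combination h
    have p : ∀ n : ℕ, v (x ^ n) ≤ 1 := fun n => by rw [map_pow]; exact pow_le_one' hx n
    refine (lt_irrefl (v (y ^ 2))) ?_
    conv_lhs => rw [e]
    refine v.map_sub_lt (v.map_sub_lt (v.map_add_lt (v.map_add_lt (v.map_add_lt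
      ((p 3).trans_lt h2) (((m _ _).trans (p 2)).trans_lt h2)) (((m _ _).trans hx).trans_lt h2))
      ((k _).trans_lt h2)) ((m _ _).trans_lt (lt_of_le_of_lt ?_ h1))) ((m _ _).trans_lt h1)
    rw [map_mul]; exact mul_le_of_le_one_left' hx
  · rw [not_le] at hx
    have h1 : v (x ^ 2) < v (x ^ 3) := by
      rw [map_pow, map_pow]; exact pow_lt_pow_right₀ hx (by norm_num)
    have h3 : v x < v (x ^ 3) := by rw [map_pow]; exact lt_self_pow₀ hx (by norm_num)
    have h2 := hx.trans h3
    have e : x ^ 3 = y ^ 2 + algebraMap K F W.a₁ * (y * x) + algebraMap K F W.a₃ * y -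
        algebraMap K F W.a₂ * x ^ 2 - algebraMap K F W.a₄ * x - algebraMap K F W.a₆ := by
      linear_combination -h
    refine (lt_irrefl (v (x ^ 3))) ?_
    conv_lhs => rw [e]
    refine v.map_sub_lt (v.map_sub_lt (v.map_sub_lt (v.map_add_lt (v.map_add_lt
      (lt_of_le_of_lt ?_ h2) ((m _ _).trans_lt (lt_of_le_of_lt ?_ h3)))
      (((m _ _).trans hy).trans_lt h2)) ((m _ _).trans_lt h1)) ((m _ _).trans_lt h3))
      ((k _).trans_lt h2)
    · rw [map_pow]; exact pow_le_one' hy 2
    · rw [map_mul]; exact mul_le_of_le_one_left' hy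

lemma equation_phi (z : CP K F L) {x y : F} (h : (W.baseChange F).Equation x y) (hx : x ∈ z.O)
    (hy : y ∈ z.O) : (W.baseChange L).Equation (z.φ ⟨x, hx⟩) (z.φ ⟨y, hy⟩) := by
  rw [equation_iff_alg] at h ⊢
  simp only [← z.comm, ← map_pow, ← map_mul, ← map_add]
  exact congrArg z.φ (Subtype.ext h)

variable [W.IsElliptic]

/-- The value at the point `z` of the curve of a map from the curve to `W`. -/
noncomputable def evl (z : CP K F L) : EP W F → EP W L
  | .zero => 0
  | .some x y h => if hx : x ∈ z.O then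
      .some (z.φ ⟨x, hx⟩) (z.φ ⟨y, (mem_iff_mem z.mem h.1).1 hx⟩)
        (Affine.equation_iff_nonsingular.1 (equation_phi z h.1 _ _)) else 0

lemma evl_zero (z : CP K F L) : evl z (0 : EP W F) = 0 := rfl

lemma evl_some_of_notMem (z : CP K F L) {x y : F} (h : (W.baseChange F).Nonsingular x y)
    (hx : x ∉ z.O) : evl z (.some x y h) = 0 := dif_neg hx

lemma evl_some_of_mem (z : CP K F L) {x y : F} (h : (W.baseChange F).Nonsingular x y)
    (hx : x ∈ z.O) (hy : y ∈ z.O) : evl z (.some x y h) = .some (z.φ ⟨x, hx⟩) (z.φ ⟨y, hy⟩)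
      (Affine.equation_iff_nonsingular.1 (equation_phi z h.1 hx hy)) := dif_pos hx

lemma co_evl (z : CP K F L) (f : EP W F) :
    co (fun a : L => (a : OnePoint L)) (evl z f) = co (val z) f := by
  rcases f with _ | ⟨x, y, h⟩
  · rfl
  by_cases hx : x ∈ z.O
  · have hy := (mem_iff_mem z.mem h.1).1 hx
    rw [evl_some_of_mem z h hx hy, co, co, val_of_mem z hx, val_of_mem z hy]
  · rw [evl_some_of_notMem z h hx, co, val_of_notMem z hx,
      val_of_notMem z ((mem_iff_mem z.mem h.1).not.1 hx)]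
    rfl

lemma evl_bc [DecidableEq K] [DecidableEq F] [DecidableEq L] (z : CP K F L) (Q : EP W K) :
    evl z (bc W F Q) = bc W L Q := by
  refine co_injective ?_
  rw [co_evl, co_bc]
  rcases Q with _ | ⟨x, y, h⟩
  · rfl
  · exact Prod.ext (val_const z x) (val_const z y)

/-- A fibre condition in terms of `evl`. -/
lemma co_val_eq_iff [DecidableEq K] [DecidableEq L] (z : CP K F L) (f : EP W F) (Q : EP W K) :
    co (val z) f = co (fun a => ((algebraMap K L a : L) : OnePoint L)) Q ↔ evl z f = bc W L Q := by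
  rw [← co_evl, ← co_bc, co_injective.eq_iff]

/-- The abscissa of `evl z f` is the value of the abscissa of `f`. -/
lemma xRep_evl_iff (z : CP K F L) {x y : F} (h : (W.baseChange F).Nonsingular x y) (t : L) :
    (evl z (.some x y h)).xRep = ![t, 1] ↔ val z x = t := by
  by_cases hx : x ∈ z.O
  · rw [evl_some_of_mem z h hx ((mem_iff_mem z.mem h.1).1 hx), val_of_mem z hx]
    simp
  · rw [evl_some_of_notMem z h hx, val_of_notMem z hx]
    simp

lemma evl_cm [DecidableEq F] [DecidableEq F'] (j : F' →ₐ[K] F) (z : CP K F L) (f : EP W F') :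
    evl (cm j z) f = evl z (Point.map j f) := by
  refine co_injective ?_
  rw [co_evl, co_evl]
  rcases f with _ | ⟨x, y, h⟩
  · rfl
  · exact Prod.ext (val_cm j z x) (val_cm j z y)

omit [W.IsElliptic] in
/-- The combination of three maps. -/
noncomputable def Phi [DecidableEq F] (φ : Fin 3 → EP W F) (u : Fin 3 → ℤ) : EP W F :=
  u 0 • φ 0 + u 1 • φ 1 + u 2 • φ 2

omit [W.IsElliptic] in
/-- The two maps are independent modulo the constant maps. -/
def Ind [DecidableEq K] [DecidableEq F] (f g : EP W F) : Prop :=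
  ∀ m n : ℤ, m • f + n • g ∈ (bc W F).range → m = 0 ∧ n = 0

/-- The pair `(a, b)` is the image of a point of the curve over some extension field. -/
def On [DecidableEq L] (f g : EP W F) (a b : EP W L) : Prop :=
  ∃ (M : Type) (_ : Field M) (_ : Algebra K M) (j : L →ₐ[K] M) (y : CP K F M),
    evl y f = Point.map j a ∧ evl y g = Point.map j b

lemma On.symm [DecidableEq L] {f g : EP W F} {a b : EP W L} (h : On f g a b) : On g f b a :=
  let ⟨M, _, _, j, y, h1, h2⟩ := h
  ⟨M, _, _, j, y, h2, h1⟩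

omit [W.IsElliptic] in
lemma xRep_map [DecidableEq F] [DecidableEq L] (j : F →ₐ[K] L) (Q : EP W F) :
    (Point.map j Q).xRep = j ∘ Q.xRep := by
  rcases Q with _ | ⟨x, y, h⟩
  · ext i; fin_cases i <;> simp [← Point.zero_def]
  · ext i; fin_cases i <;> simp [Point.map_some]

omit [W.IsElliptic] in
/-- The subgroup `Γ` is the union of the cosets of the multiples of `P` through a finite set. -/
def Cov {G : Type} [AddCommGroup G] (Γ : AddSubgroup G) (P : G) (R : Set G) : Prop :=
  P ∈ Γ ∧ R.Finite ∧ R ⊆ Γ ∧ ∀ Q ∈ Γ, ∃ r ∈ R, ∃ m : ℤ, Q = r + m • P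

/-- The vector `r` is proportional to a vector with entries in `V ^ n`. -/
def HR (V : Submodule K F) (n : ℕ) (r : Fin 2 → F) : Prop := ∃ c : F, c ≠ 0 ∧ ∀ i, c * r i ∈ V ^ n

/-- The form `c` is the equation of the image of the curve under the abscissas of `f` and `g`. -/
structure RelP (c : ℕ → ℕ → K) (d e : ℕ) (f g : EP W F) : Prop where
  van : ∀ (L : Type) [Field L] [Algebra K L] (z : CP K F L),
    bh c d e (algebraMap K L) (evl z f).xRep (evl z g).xRep = 0
  pt : ∀ ξ η : K, bh c d e id ![ξ, 1] ![η, 1] = 0 → ∃ y : CP K F (AlgebraicClosure K),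
    (evl y f).xRep = ![algebraMap K _ ξ, 1] ∧ (evl y g).xRep = ![algebraMap K _ η, 1]
  ne : ∀ η : K, ∃ i ≤ d, ∑ j ∈ range (e + 1), c i j * η ^ j ≠ 0

end ell

/-! ### Heights -/

section ht

variable {K : Type} [Field K] [NumberField K]

/-- The absolute value at a finite place. -/
noncomputable def nv (v : Pl K) (a : K) : ℝ := ‖algebraMap K (Kv v) a‖

lemma nv_eq (v : Pl K) (a : K) : nv v a = FinitePlace.mk v a := rfl

/-- The finite part of the height. -/
noncomputable def hf (a : K) : ℝ := ∑ᶠ v : Pl K, Real.posLog (nv v a)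

/-- The infinite part of the height. -/
noncomputable def hi (a : K) : ℝ := ∑ w : InfinitePlace K, w.mult * Real.posLog (w a)

lemma hf_eq (a : K) : hf a = ∑ᶠ v : FinitePlace K, Real.posLog (v a) :=
  finsum_comp_equiv (FinitePlace.equivHeightOneSpectrum (K := K)).symm
    (f := fun v : FinitePlace K => Real.posLog (v a))

lemma logHeight₁_eq_hi_add_hf (a : K) : Height.logHeight₁ a = hi a + hf a := by
  rw [NumberField.logHeight₁_eq, hf_eq, hi]

instance (v : Pl K) : IsUltrametricDist (Kv v) := inferInstance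

/-- The naive height of a point. -/
noncomputable def ht {W : Affine K} (P : EP W K) : ℝ := Height.logHeight P.xRep

lemma ht_of_xRep {W : Affine K} {P : EP W K} {ξ : K} (h : P.xRep = ![ξ, 1]) :
    ht P = Height.logHeight₁ ξ := by rw [ht, h, Height.logHeight₁_eq_logHeight]

variable [DecidableEq K] {W : Affine K}

/-- The point has infinite order. -/
def NT (P : EP W K) : Prop := ∀ n : ℤ, n • P = 0 → n = 0

lemma NT.xRep {P : EP W K} (h : NT P) {n : ℤ} (hn : n ≠ 0) :
    (n • P).xRep = ![(n • P).xRep 0, 1] := by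
  rcases h1 : n • P with _ | ⟨x, y, h2⟩
  · exact absurd (h n h1) hn
  · simp

/-- The standing hypotheses. -/
structure Ctx {F : Type} [Field F] [Algebra K F] [DecidableEq F] (P0 : EP W K)
    (φ : Fin 3 → EP W F) : Prop where
  hF : HF K F
  hK : HK K F
  nt : NT P0
  ind : Ind (φ 0) (φ 1)
  two : φ 2 = bc W F P0

/-- The family `a` is the limit of the multiples of `P0` along the ultrafilter `U`. -/
def App (P0 : EP W K) {S : Set (Pl K)} (a : ∀ v : S, EP W (Kv v.1)) (U : Ultrafilter ℤ) : Prop :=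
  ∀ v r, ∀ᶠ m in (U : Filter ℤ), Near r (a v - bc W (Kv v.1) (m • P0))

end ht

end Pool.Agent.P.MP_ab3ecb_nt.R1
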