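import Pool.Agent.P.MP_ab3ecb_nt.Inv.Defs

/-!
Definitions for the statement of Stoll on the density of rational points in the Brauer-Manin set
of a curve, given by its function field, and for maps from the curve to an elliptic curve.
-/

set_option linter.ambiguousOpen false

namespace Pool.Agent.P.MP_ab3ecb_nt.R1

open NumberField IsDedekindDomain WeierstrassCurve Inv OnePoint
open scoped Classical

section

variable {K F L : Type} [Field K] [Field F] [Field L] {ι : K →+* F} {ρ : K →+* L}

/-- The value of the function `f` at the point `P`, in the projective line over `L`. -/
noncomputable def val (P : KPt ι ρ) (f : F) : OnePoint L :=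
  if h : f ∈ P.O then (P.φ ⟨f, h⟩ : L) else ∞

/-- The topology on the points of the curve over a local field `L`: the coarsest one for which
all functions are continuous maps to the projective line. -/
noncomputable instance [TopologicalSpace L] : TopologicalSpace (KPt ι ρ) :=
  .induced val inferInstance

/-- A rational point, seen as a point over the extension `ρ : K → L`. -/
def push (P : KPt ι (RingHom.id K)) (ρ : K →+* L) : KPt ι ρ where
  O := P.O
  φ := ρ.comp P.φ
  loc := ⟨fun a ha => P.loc.1 a (Ne.isUnit fun h => ha.ne_zero (by simp [h]))⟩
  mem := P.mem
  comm c := congrArg ρ (P.comm c)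

/-- The coordinates of a point of a Weierstrass curve, evaluated by `e`. -/
def co {W : Affine F} (e : F → OnePoint L) : W.Point → OnePoint L × OnePoint L
  | .zero => (∞, ∞)
  | .some x y _ => (e x, e y)

/-- The point `z` of the curve is in the fibre over `(Q f)_f` of the product of all the maps `f`
from the curve to `W`. -/
def Fib [Algebra K F] {W : Affine K} (Q : (W.baseChange F).Point → (W.baseChange K).Point)
    (z : KPt (algebraMap K F) ρ) : Prop :=
  ∀ f, co (val z) f = co (fun a => (ρ a : L)) (Q f)

/-- The pair `(a, b)` of points with coordinates in `L` lies on the image of the curve under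
`(f, g)`: it is the image of a point of the curve over an algebraic closure of `L`. -/
def Im [Algebra K F] [Algebra K L] {W : Affine K} (f g : (W.baseChange F).Point)
    (a b : OnePoint L × OnePoint L) : Prop :=
  let e := OnePoint.map (algebraMap L (AlgebraicClosure L))
  ∃ y : KPt (algebraMap K F) (algebraMap K (AlgebraicClosure L)),
    co (val y) f = a.map e e ∧ co (val y) g = b.map e e

end

/-- The diagonal image of the set `Γ` of rational points of `W` in the product of the `W(K_v)`
over the finite places `v ∈ S`, in coordinates. -/
def Diag {K : Type} [Field K] [NumberField K] {W : Affine K} (Γ : Set (W.baseChange K).Point)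
    (S : Set (HeightOneSpectrum (𝓞 K))) :
    Set (∀ v : S, OnePoint (v.1.adicCompletion K) × OnePoint (v.1.adicCompletion K)) :=
  (fun Q v => co (fun a => (algebraMap K (v.1.adicCompletion K) a : v.1.adicCompletion K)) Q) '' Γ

/-- The statement of Stoll for the curve over `K` with function field `F`: every point of the
Brauer-Manin set is, at the finite places, a limit of rational points that lie in the same
connected component at each real place. -/
def Stoll (K F : Type) [Field K] [NumberField K] [Field F] [Algebra K F] : Prop :=
  haveI := charZero_of_injective_algebraMap (algebraMap K F).injective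
  ∀ x : KAdelic (algebraMap K F), KInBM x →
    x.fin ∈ closure {y | ∃ P : KPt (algebraMap K F) (RingHom.id K),
      (∀ v, y v = push P _) ∧ ∀ ρ, push P ρ ∈ connectedComponent (x.inf ρ)}

end Pool.Agent.P.MP_ab3ecb_nt.R1
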