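import Pool.Agent.P.MP_ab3ecb_nt.R1.Iface
import Pool.Agent.P.MP_ab3ecb_nt.Inv.A.Iface
import Pool.Agent.P.MP_ab3ecb_nt.Inv.G.Iface
import Pool.Agent.P.MP_ab3ecb_nt.Inv.J.Iface

/-!
Statements: functoriality of the Brauer-Manin set, rational points and real components.
-/

set_option linter.unusedSectionVars false
set_option linter.ambiguousOpen false

namespace Pool.Agent.P.MP_ab3ecb_nt.R1

open NumberField IsDedekindDomain WeierstrassCurve Inv OnePoint Finset Filter Topology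
open TensorProduct Quaternion
open WeierstrassCurve.Affine (Point)
open Pool.Agent.P.MP_6f117a_ag (Place FF)
open scoped Classical IntermediateField

-- deps:
def S_AZ : Prop := ∀ (R S M : Type) [CommRing R] [IsLocalRing R] [CommRing S] [Nontrivial S]
  [Algebra R S] [Ring M] [Algebra R M], IsAzumaya R M → IsAzumaya S (S ⊗[R] M)

-- deps: AZ
def S_PULL : Prop := ∀ (K F F' : Type) [Field K] [NumberField K] [Field F] [Field F'] [CharZero F]
  [CharZero F'] [Algebra K F] [Algebra K F'] (j : F' →ₐ[K] F) (x : KAdelic (algebraMap K F)),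
  KInBM x → KInBM (⟨fun ρ => cm j (x.inf ρ), fun v => cm j (x.fin v)⟩ : KAdelic (algebraMap K F'))

-- deps:
def S_GEN : Prop := ∀ (K F : Type) [Field K] [Field F] [Algebra K F] (W : Affine K) (x y : F)
  (h : (W.baseChange F).Nonsingular x y), Transcendental K x →
    ∃ (j : W.FunctionField →ₐ[K] F) (g : EP W W.FunctionField), Point.map j g = .some x y h

-- deps: NC GEN PULL
def S_APP : Prop := ∀ (K F : Type) [Field K] [NumberField K] [Field F] [CharZero F] [Algebra K F]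
  (W : Affine K) [W.IsElliptic], HK K F → Stoll K W.FunctionField →
  ∀ x : KAdelic (algebraMap K F), KInBM x → ∀ (f : EP W F) (S : Set (Pl K)),
    (fun v : S => co (val (x.fin v.1)) f) ∈ closure (Diag (W := W) Set.univ S)

-- deps: RES NC
def S_RAT : Prop := ∀ (K F : Type) [Field K] [NumberField K] [Field F] [Algebra K F]
  (W : Affine K) [W.IsElliptic], HF K F → HK K F → (∃ f : EP W F, f ∉ (bc W F).range) →
  ∀ (Q : EP W F → EP W K) (x : ∀ v : Pl K, CP K F (Kv v)), (∀ v, Fib Q (x v)) →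
    {y : CP K F (AlgebraicClosure K) | Fib Q y}.Subsingleton →
      ∃ P : KPt (algebraMap K F) (RingHom.id K), ∀ v, x v = push P _

-- deps:
def S_RC : Prop := ∀ (K F : Type) [Field K] [Field F] (ι : K →+* F) (ρ : K →+* ℝ),
  CompactSpace (KPt ι ρ)

/-- The function `g` has no zero and no pole at the points over `ρ`. -/
def NZ {K F : Type} [Field K] [Field F] (ι : K →+* F) (ρ : K →+* ℝ) (g : F) : Prop :=
  ∀ y : KPt ι ρ, ∃ t : ℝ, t ≠ 0 ∧ val y g = t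

-- deps: RC
def S_RS : Prop := ∀ (K F : Type) [Field K] [Field F] (ι : K →+* F) (ρ : K →+* ℝ)
  (y y' : KPt ι ρ), y ∉ connectedComponent y' → ∃ (g : F) (t t' : ℝ), NZ ι ρ g ∧
    0 < t ∧ t' < 0 ∧ val y g = t ∧ val y' g = t'

-- deps:
-- ext: JDIV LZ
def S_RG : Prop := ∀ (K F k Fb : Type) [Field K] [CharZero K] [Field F] [Algebra K F] [Field k]
  [IsAlgClosed k] [Algebra K k] [IsGalois K k] [Field Fb] [Algebra k Fb] [FF k Fb]
  (j : F →+* Fb) (act : (k ≃ₐ[K] k) →* RingAut Fb), GS j act →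
  ∀ (ρ : K →+* ℝ) (σ : k →+* ℂ) (c : k ≃ₐ[K] k), (∀ a, σ (algebraMap K k a) = ρ a) →
  (∀ z, σ (c z) = starRingEnd ℂ (σ z)) → ∀ g : F, g ≠ 0 → NZ (algebraMap K F) ρ g →
    ∃ (E0 : IntermediateField K k) (a b : Fb), FiniteDimensional K E0 ∧ (∀ z ∈ E0, c z = z) ∧
      Fx act E0 a ∧ Fx act E0 b ∧ Ev2 k (j g * (a ^ 2 + b ^ 2))

/-- `z` is defined over `E0` and has no pole over `W`. -/
def Itg {K F k Fb : Type} [Field K] [Field F] [Field k] [Algebra K k] [Field Fb] [Algebra k Fb]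
    (j : F →+* Fb) (act : (k ≃ₐ[K] k) →* RingAut Fb) (E0 : IntermediateField K k)
    (W : ValuationSubring F) (z : Fb) : Prop :=
  Fx act E0 z ∧ ∀ P : Place k Fb, Over j P W → P.v z ≤ 1

-- deps:
-- ext: TRL FC
-- imports: Pool.Agent.P.MP_ab3ecb_nt.Inv.G.Cert
def S_RTA : Prop := ∀ (K F k Fb : Type) [Field K] [NumberField K] [Field F] [Algebra K F] [Field k]
  [IsAlgClosed k] [Algebra K k] [IsGalois K k] [Field Fb] [Algebra k Fb] [FF k Fb]
  (j : F →+* Fb) (act : (k ≃ₐ[K] k) →* RingAut Fb), GS j act →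
  ∀ (E0 : IntermediateField K k) (A : Type) [CommRing A] [Module.Free ℤ A] [Module.Finite ℤ A]
    (a0 : A →+* k) (i : 𝓞 K →+* A), Ord E0 a0 i →
  ∃ (Γ : Fb → F ⊗[ℤ] A) (Λ : ∀ W : ValuationSubring F, Fb → W ⊗[ℤ] A), Γ 1 = 1 ∧
    (∀ z z', Fx act E0 z → Fx act E0 z' → Γ (z * z') = Γ z * Γ z') ∧
    ∀ (W : ValuationSubring F) (hW : ∀ c, algebraMap K F c ∈ W), Λ W 1 = 1 ∧
      (∀ z z', Itg j act E0 W z → Itg j act E0 W z' → Λ W (z * z') = Λ W z * Λ W z') ∧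
      (∀ z, Itg j act E0 W z → tm A W.subtype (Λ W z) = Γ z) ∧
      ∀ (φ : W →+* ℝ) (w : A →+* ℝ) (ρ : K →+* ℝ), (∀ c, φ ⟨_, hW c⟩ = ρ c) →
        (w.comp i ≠ ρ.comp (algebraMap (𝓞 K) K) →
          ∀ z, Itg j act E0 W z → lft w (tm A φ (Λ W z)) = 1) ∧
        (w.comp i = ρ.comp (algebraMap (𝓞 K) K) → (∀ f : W, lft w (tm A φ (Λ W (j f))) = φ f) ∧
          ∀ z z', Itg j act E0 W z → Itg j act E0 W z' → lft w (tm A φ (Λ W (z + z'))) =
            lft w (tm A φ (Λ W z)) + lft w (tm A φ (Λ W z')))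

/-- The function `γ` on the curve over `A` has even divisor, the sign of `g` over the real
place `w` above `ρ`, and is trivial on the other components. -/
structure RD {K F A : Type} [Field K] [Field F] [CommRing A] [Module.Free ℤ A] [Module.Finite ℤ A]
    (ι : K →+* F) (ρ : K →+* ℝ) (g : F) (w : A →+* ℝ) (γ : F ⊗[ℤ] A)
    (u : ∀ O : ValuationSubring F, O ⊗[ℤ] A) : Prop where
  unit : IsUnit γ
  md : ∀ O : ValuationSubring F, (∀ c, ι c ∈ O) →
    IsUnit (u O) ∧ IsSquare (γ * tm A O.subtype (u O))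
  off : ∀ ρ', ρ' ≠ ρ → ∀ y : KPt ι ρ', lft w (tm A y.φ (u y.O)) = 1
  sgn : ∀ (y : KPt ι ρ) (t : ℝ), val y g = t → 0 < t * lft w (tm A y.φ (u y.O))

-- deps: RTA
-- ext: INVAPP OVER
def S_RT : Prop := ∀ (K F k Fb : Type) [Field K] [NumberField K] [Field F] [Algebra K F] [Field k]
  [IsAlgClosed k] [Algebra K k] [IsGalois K k] [Field Fb] [Algebra k Fb] [FF k Fb]
  (j : F →+* Fb) (act : (k ≃ₐ[K] k) →* RingAut Fb), GS j act →
  ∀ (ρ : K →+* ℝ) (σ : k →+* ℂ), (∀ a, σ (algebraMap K k a) = ρ a) →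
  ∀ (g : F) (E0 : IntermediateField K k) (a b : Fb), NZ (algebraMap K F) ρ g →
    FiniteDimensional K E0 → (∀ z ∈ E0, starRingEnd ℂ (σ z) = σ z) → Fx act E0 a → Fx act E0 b →
    Ev2 k (j g * (a ^ 2 + b ^ 2)) →
    ∃ (A : Type) (_ : CommRing A) (_ : IsDomain A) (_ : Module.Free ℤ A) (_ : Module.Finite ℤ A)
      (w : A →+* ℝ) (γ : F ⊗[ℤ] A) (u : ∀ O : ValuationSubring F, O ⊗[ℤ] A),
      RD (algebraMap K F) ρ g w γ u

-- deps:
def S_RSQ : Prop := ∀ (B : Type) [CommRing B] [Algebra ℝ B] [Module.Finite ℝ B]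
  [IsReduced B] (z : B), IsUnit z → (∀ l : B →ₐ[ℝ] ℝ, 0 < l z) → IsSquare z

-- deps:
def S_RAL : Prop := ∀ (A : Type) [CommRing A] [IsDomain A] [Module.Free ℤ A] [Module.Finite ℤ A]
  (w : A →+* ℝ), ∃ α : A, w α < 0 ∧ ∀ w' : A →+* ℝ, w' ≠ w → 0 < w' α

-- deps: RSQ RAL
-- imports: Pool.Agent.P.MP_ab3ecb_nt.Inv.A.Cpd Pool.Agent.P.MP_ab3ecb_nt.Model
def S_RCP : Prop := ∀ (A : Type) [CommRing A] [IsDomain A] [Module.Free ℤ A] [Module.Finite ℤ A]
  (w : A →+* ℝ), ∃ α : A, α ≠ 0 ∧ ∀ β : ℝ ⊗[ℤ] A, IsUnit β →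
    (0 < lft w β → cp β (inc A ℝ α) = 1) ∧ (lft w β < 0 → cp β (inc A ℝ α) = cl ℝ ℍ[ℝ])

-- deps: RCP
-- ext: INVZ
-- imports: Pool.Agent.P.MP_ab3ecb_nt.Inv.A.Pf Pool.Agent.P.MP_ab3ecb_nt.Inv.A.Cpd Pool.Agent.P.MP_ab3ecb_nt.Inv.G.Cert
def S_RB : Prop := ∀ (K F : Type) [Field K] [NumberField K] [Field F] [CharZero F] [Algebra K F]
  (x : KAdelic (algebraMap K F)), KInBM x → ∀ P : KPt (algebraMap K F) (RingHom.id K),
  (∀ v, x.fin v = push P _) → ∀ (ρ : K →+* ℝ) (g : F) (A : Type) [CommRing A] [IsDomain A]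
  [Module.Free ℤ A] [Module.Finite ℤ A] (w : A →+* ℝ) (γ : F ⊗[ℤ] A)
  (u : ∀ O : ValuationSubring F, O ⊗[ℤ] A), RD (algebraMap K F) ρ g w γ u → ∀ t t' : ℝ,
    0 < t → t' < 0 → val (push P ρ) g = t → val (x.inf ρ) g = t' → False

-- deps: RS RG RT RB
-- ext: DOMA BASE CEDEG
def S_REAL : Prop := ∀ (K F : Type) [Field K] [NumberField K] [Field F] [CharZero F]
  [Algebra K F], HF K F → HK K F → ∀ x : KAdelic (algebraMap K F), KInBM x →
  ∀ P : KPt (algebraMap K F) (RingHom.id K), (∀ v, x.fin v = push P _) →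
    ∀ ρ, push P ρ ∈ connectedComponent (x.inf ρ)

-- deps: TOPA APP RAT REAL EV
def S_TOPB : Prop := ∀ (K F : Type) [Field K] [NumberField K] [Field F] [Algebra K F]
  (W : Affine K) [W.IsElliptic], HF K F → HK K F →
  (∃ P : EP W K, (AddSubgroup.zmultiples P).FiniteIndex) → (∃ f g : EP W F, Ind f g) →
  (∀ Q : EP W F → EP W K, (∀ v : Pl K, ∃ z : CP K F (Kv v), Fib Q z) →
    {y : CP K F (AlgebraicClosure K) | Fib Q y}.Subsingleton) →
  Stoll K W.FunctionField → Stoll K F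

end Pool.Agent.P.MP_ab3ecb_nt.R1
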