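import Pool.Agent.P.MP_ab3ecb_nt.R1.AllB

/-!
Let `C` be a curve over a number field `K` with function field `F`, and let `W` be an elliptic
curve over `K` of rank at most one, with two maps from `C` to `W` that are independent modulo the
constant maps. Suppose that the maps from `C` to `W` separate the geometric points of `C` in every
fibre over a rational point that has points over all the completions at the finite places. If the
rational points of `W` are dense in its Brauer-Manin set, then the same holds for `C`.
-/

namespace Pool.Agent.Results.MP_ab3ecb_nt.RankOnePowers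

open NumberField IsDedekindDomain WeierstrassCurve Pool.Agent.P.MP_ab3ecb_nt.Inv
  Pool.Agent.P.MP_ab3ecb_nt.R1
open scoped Classical IntermediateField

theorem result (K F : Type) [Field K] [NumberField K] [Field F] [Algebra K F]
    (hF : ∃ x : F, Transcendental K x ∧ FiniteDimensional K⟮x⟯ F)
    (hK : ∀ z : F, IsAlgebraic K z → z ∈ (algebraMap K F).range)
    (W : Affine K) [W.IsElliptic]
    (hr : ∃ P : (W.baseChange K).Point, (AddSubgroup.zmultiples P).FiniteIndex)
    (hi : ∃ f g : (W.baseChange F).Point,
      ∀ m n : ℤ, m • f + n • g ∈ (Affine.Point.baseChange K F).range → m = 0 ∧ n = 0)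
    (hs : ∀ Q : (W.baseChange F).Point → (W.baseChange K).Point,
      (∀ v : HeightOneSpectrum (𝓞 K),
        ∃ z : KPt (algebraMap K F) (algebraMap K (v.adicCompletion K)), Fib Q z) →
      {y : KPt (algebraMap K F) (algebraMap K (AlgebraicClosure K)) | Fib Q y}.Subsingleton)
    (hW : Stoll K W.FunctionField) : Stoll K F :=
  r_TOPB K F W hF hK hr hi hs hW

end Pool.Agent.Results.MP_ab3ecb_nt.RankOnePowers
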